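import Mathlib

/-!
# MDW/AbsW: two abstract inequalities for a symmetric independent perturbation

Setting: `lam`, `π` probability measures on `O`, `T`; `θ : T → T` preserves `π`; `Rs ⊆ T` is the
good set, invariant under `θ`, `π (Rsᶜ) ≤ p ≤ 1/2`; `S ⊆ O × T` measurable, `G ⊆ O` measurable
with
`G × Rs ⊆ S`.

PROOF of `absA`. `F` vanishes on `S` outside `G × T`. So
`∫_S F = ∫_{G × Rs} F + ∫_{S ∩ (G × Rsᶜ)} F`. The first integral is zero: by Fubini it is
`∫_{f ∈ G} ∫_{g ∈ Rs} F (f,g)`, and the inner integral equals its negative by the substitution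
`g ↦ θ g` (`θ` preserves `π` and `Rs`, `F (f, θ g) = -F (f,g)`). The second one is bounded by
`π(Rsᶜ) lam(G) ≤ p lam(G)`. Finally `P(S) ≥ lam(G) π(Rs) ≥ (1-p) lam(G) ≥ lam(G)/2`, so
`|∫_S F| ≤ p lam(G) ≤ 2 p P(S)`.
PROOF of `absB`. Similarly `∫_S F = ∫_{G×Rs} F + e₁`, `∫_S U = ∫_{G×Rs} U + e₂`, `|e₁| ≤ p
lam(G)`,
`0 ≤ e₂ ≤ p lam(G)`, and `∫_{G×Rs} F = (1/2) ∫_{G×Rs} (F + F∘(id×θ))`, so
`-s ∫_{G×Rs} F ≥ (r/2) ∫_{G×Rs} U`. Therefore `(r/2) ∫_S U + s ∫_S F ≤ (r/2) e₂ + |e₁| ≤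
(1 + r/2) p lam(G) ≤ (3/2) p lam(G) ≤ 3 p P(S)`.
Useful: the map `(f,g) ↦ (f, θ g)` preserves `lam.prod π` (`MeasurePreserving.prod`), so one can
work with
set integrals on the product space directly (`MeasurePreserving.setIntegral_preimage_emb` needs an
embedding; better: `∫ indicator (G ×ˢ Rs) F ∘ map` with `MeasurePreserving.integral_comp'` or
`integral_map`). Bounded measurable functions on probability spaces are integrable.
-/

open MeasureTheory ProbabilityTheory Filter Topology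

namespace MDW

private theorem flipInt {O T : Type*} [MeasurableSpace O] [MeasurableSpace T] (lam : Measure O)
    (π : Measure T) [IsProbabilityMeasure lam] [IsProbabilityMeasure π] {θ : T → T}
    (hθ : MeasurePreserving θ π π) {Rs : Set T} (hRs : MeasurableSet Rs)
    (hθR : ∀ g, θ g ∈ Rs ↔ g ∈ Rs) {G : Set O} (hG : MeasurableSet G) {F : O × T → ℝ}
    (hF : Measurable F) :
    ∫ x in G ×ˢ Rs, F (x.1, θ x.2) ∂(lam.prod π) = ∫ x in G ×ˢ Rs, F x ∂(lam.prod π) := by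
  have hmp : MeasurePreserving (Prod.map id θ : O × T → O × T) (lam.prod π) (lam.prod π) :=
    (MeasurePreserving.id lam).prod hθ
  have hA : MeasurableSet (G ×ˢ Rs) := hG.prod hRs
  rw [← integral_indicator hA, ← integral_indicator hA]
  conv_rhs => rw [← hmp.map_eq]
  rw [integral_map hmp.measurable.aemeasurable (hF.indicator hA).aestronglyMeasurable]
  refine integral_congr_ae (Eventually.of_forall fun x => ?_)
  obtain ⟨f, g⟩ := x
  by_cases h : (f, g) ∈ G ×ˢ Rs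
  · have h' : Prod.map id θ (f, g) ∈ G ×ˢ Rs := ⟨h.1, (hθR g).2 h.2⟩
    rw [Set.indicator_of_mem h]
    exact (Set.indicator_of_mem h' F).symm
  · have h' : Prod.map id θ (f, g) ∉ G ×ˢ Rs := fun hh => h ⟨hh.1, (hθR g).1 hh.2⟩
    rw [Set.indicator_of_notMem h]
    exact (Set.indicator_of_notMem h' F).symm

private theorem bint {α : Type*} [MeasurableSpace α] (μ : Measure α) [IsProbabilityMeasure μ]
    {H : α → ℝ} (hH : Measurable H) (hb : ∀ x, |H x| ≤ 1) : Integrable H μ :=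
  (integrable_const (1 : ℝ)).mono' hH.aestronglyMeasurable
    (Eventually.of_forall fun x => by simpa using hb x)

private theorem restInt {O T : Type*} [MeasurableSpace O] [MeasurableSpace T] (lam : Measure O)
    (π : Measure T) [IsProbabilityMeasure lam] [IsProbabilityMeasure π]
    {Rs : Set T} (hRs : MeasurableSet Rs) {p : ℝ} (hp : π.real Rsᶜ ≤ p) {G : Set O}
    (hG : MeasurableSet G) {S : Set (O × T)} (hS : MeasurableSet S) {H : O × T → ℝ}
    (hH : Measurable H) (hb : ∀ x, |H x| ≤ 1) (h1 : ∀ f ∈ G, ∀ g ∈ Rs, (f, g) ∈ S)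
    (h2 : ∀ x ∈ S, H x ≠ 0 → x.1 ∈ G) :
    |(∫ x in S, H x ∂(lam.prod π)) - ∫ x in G ×ˢ Rs, H x ∂(lam.prod π)| ≤ p * lam.real G := by
  have hA : MeasurableSet (G ×ˢ Rs) := hG.prod hRs
  have hint := bint (lam.prod π) hH hb
  have hsub : G ×ˢ Rs ⊆ S := fun x hx => h1 x.1 hx.1 x.2 hx.2
  have e1 : (∫ x in S, H x ∂(lam.prod π)) - ∫ x in G ×ˢ Rs, H x ∂(lam.prod π) =
      ∫ x in S \ (G ×ˢ Rs), H x ∂(lam.prod π) := by
    rw [setIntegral_sdiff hA hint.integrableOn hsub]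
  rw [e1]
  have e2 : ∫ x in S \ (G ×ˢ Rs), H x ∂(lam.prod π) =
      ∫ x, (S \ (G ×ˢ Rs)).indicator H x ∂(lam.prod π) :=
    (integral_indicator (hS.diff hA)).symm
  rw [e2]
  have hC : MeasurableSet (G ×ˢ Rsᶜ) := hG.prod hRs.compl
  have e3 : |∫ x, (S \ (G ×ˢ Rs)).indicator H x ∂(lam.prod π)| ≤
      ∫ x, (G ×ˢ Rsᶜ).indicator (fun _ => (1 : ℝ)) x ∂(lam.prod π) := by
    refine (abs_integral_le_integral_abs).trans ?_
    refine integral_mono_of_nonneg (Eventually.of_forall fun x => abs_nonneg _)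
      ((integrable_const (1 : ℝ)).indicator hC) (Eventually.of_forall fun x => ?_)
    show |(S \ (G ×ˢ Rs)).indicator H x| ≤ (G ×ˢ Rsᶜ).indicator (fun _ => (1 : ℝ)) x
    by_cases hx : x ∈ S \ (G ×ˢ Rs)
    · rw [Set.indicator_of_mem hx]
      by_cases h0 : H x = 0
      · rw [h0, abs_zero]
        exact Set.indicator_nonneg (fun _ _ => zero_le_one) x
      · have hg : x.1 ∈ G := h2 x hx.1 h0
        have hx2 : x ∈ G ×ˢ Rsᶜ := ⟨hg, fun hr => hx.2 ⟨hg, hr⟩⟩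
        rw [Set.indicator_of_mem hx2]
        exact hb x
    · rw [Set.indicator_of_notMem hx, abs_zero]
      exact Set.indicator_nonneg (fun _ _ => zero_le_one) x
  refine e3.trans ?_
  rw [integral_indicator hC, setIntegral_const, smul_eq_mul, mul_one, measureReal_prod_prod]
  have : 0 ≤ lam.real G := measureReal_nonneg
  nlinarith

private theorem lowS {O T : Type*} [MeasurableSpace O] [MeasurableSpace T] (lam : Measure O)
    (π : Measure T) [IsProbabilityMeasure lam] [IsProbabilityMeasure π]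
    {Rs : Set T} (hRs : MeasurableSet Rs) {p : ℝ} (hp : π.real Rsᶜ ≤ p) (hp2 : p ≤ 1 / 2)
    {G : Set O} {S : Set (O × T)} (h1 : ∀ f ∈ G, ∀ g ∈ Rs, (f, g) ∈ S) :
    lam.real G ≤ 2 * (lam.prod π).real S := by
  have hsub : G ×ˢ Rs ⊆ S := fun x hx => h1 x.1 hx.1 x.2 hx.2
  have e1 : (lam.prod π).real (G ×ˢ Rs) ≤ (lam.prod π).real S := measureReal_mono hsub
  rw [measureReal_prod_prod] at e1
  have e2 : π.real Rsᶜ = 1 - π.real Rs := probReal_compl_eq_one_sub hRs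
  have : 0 ≤ lam.real G := measureReal_nonneg
  nlinarith

theorem absA {O T : Type*} [MeasurableSpace O] [MeasurableSpace T] (lam : Measure O)
    (π : Measure T) [IsProbabilityMeasure lam] [IsProbabilityMeasure π] {θ : T → T}
    (hθ : MeasurePreserving θ π π) {Rs : Set T} (hRs : MeasurableSet Rs)
    (hθR : ∀ g, θ g ∈ Rs ↔ g ∈ Rs) {p : ℝ} (hp : π.real Rsᶜ ≤ p) (hp2 : p ≤ 1 / 2) {G : Set O}
    (hG : MeasurableSet G) {S : Set (O × T)} (hS : MeasurableSet S) {F : O × T → ℝ}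
    (hF : Measurable F) (hb : ∀ x, |F x| ≤ 1) (h1 : ∀ f ∈ G, ∀ g ∈ Rs, (f, g) ∈ S)
    (h2 : ∀ x ∈ S, F x ≠ 0 → x.1 ∈ G) (h3 : ∀ f g, F (f, θ g) = -F (f, g)) :
    |∫ x in S, F x ∂(lam.prod π)| ≤ 2 * p * (lam.prod π).real S := by
  have hp0 : 0 ≤ p := measureReal_nonneg.trans hp
  have k1 := restInt lam π hRs hp hG hS hF hb h1 h2
  have k2 := flipInt lam π hθ hRs hθR hG hF
  have k3 := lowS lam π hRs hp hp2 h1
  have k4 : ∫ x in G ×ˢ Rs, F (x.1, θ x.2) ∂(lam.prod π) =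
      -∫ x in G ×ˢ Rs, F x ∂(lam.prod π) := by
    rw [← integral_neg]
    refine integral_congr_ae (Eventually.of_forall fun x => ?_)
    exact h3 x.1 x.2
  have k5 : ∫ x in G ×ˢ Rs, F x ∂(lam.prod π) = 0 := by linarith
  rw [k5, sub_zero] at k1
  nlinarith

theorem absB {O T : Type*} [MeasurableSpace O] [MeasurableSpace T] (lam : Measure O)
    (π : Measure T) [IsProbabilityMeasure lam] [IsProbabilityMeasure π] {θ : T → T}
    (hθ : MeasurePreserving θ π π) {Rs : Set T} (hRs : MeasurableSet Rs)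
    (hθR : ∀ g, θ g ∈ Rs ↔ g ∈ Rs) {p : ℝ} (hp : π.real Rsᶜ ≤ p) (hp2 : p ≤ 1 / 2) {G : Set O}
    (hG : MeasurableSet G) {S : Set (O × T)} (hS : MeasurableSet S) {F U : O × T → ℝ}
    (hF : Measurable F) (hb : ∀ x, |F x| ≤ 1) (hU : Measurable U) (hU0 : ∀ x, 0 ≤ U x)
    (hU1 : ∀ x, U x ≤ 1) (h1 : ∀ f ∈ G, ∀ g ∈ Rs, (f, g) ∈ S)
    (h2 : ∀ x ∈ S, F x ≠ 0 → x.1 ∈ G) (h2U : ∀ x ∈ S, U x ≠ 0 → x.1 ∈ G) {r s : ℝ}
    (hr0 : 0 ≤ r) (hr1 : r ≤ 1) (hs : s = 1 ∨ s = -1)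
    (h3 : ∀ f, ∀ g ∈ Rs, r * U (f, g) ≤ -s * (F (f, g) + F (f, θ g))) :
    r / 2 * (∫ x in S, U x ∂(lam.prod π)) + s * (∫ x in S, F x ∂(lam.prod π)) ≤
      3 * p * (lam.prod π).real S := by
  have hp0 : 0 ≤ p := measureReal_nonneg.trans hp
  have hUb : ∀ x, |U x| ≤ 1 := fun x => by rw [abs_of_nonneg (hU0 x)]; exact hU1 x
  have k1 := restInt lam π hRs hp hG hS hF hb h1 h2
  have k1U := restInt lam π hRs hp hG hS hU hUb h1 h2U
  have k2 := flipInt lam π hθ hRs hθR hG hF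
  have k3 := lowS lam π hRs hp hp2 h1
  have hA : MeasurableSet (G ×ˢ Rs) := hG.prod hRs
  have hFθ : Measurable fun x : O × T => F (x.1, θ x.2) :=
    hF.comp (measurable_fst.prodMk (hθ.measurable.comp measurable_snd))
  have iF := bint (lam.prod π) hF hb
  have iFθ : Integrable (fun x : O × T => F (x.1, θ x.2)) (lam.prod π) :=
    bint (lam.prod π) hFθ (fun x => hb _)
  have iU := bint (lam.prod π) hU hUb
  have k4 : r * (∫ x in G ×ˢ Rs, U x ∂(lam.prod π)) ≤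
      -s * ((∫ x in G ×ˢ Rs, F x ∂(lam.prod π)) +
        ∫ x in G ×ˢ Rs, F (x.1, θ x.2) ∂(lam.prod π)) := by
    rw [← integral_add iF.integrableOn iFθ.integrableOn, ← integral_const_mul,
      ← integral_const_mul]
    refine setIntegral_mono_on (iU.const_mul r).integrableOn
      ((iF.add iFθ).const_mul (-s)).integrableOn hA (fun x hx => ?_)
    exact h3 x.1 x.2 hx.2
  rw [k2] at k4
  have hl : 0 ≤ lam.real G := measureReal_nonneg
  have hpl : 0 ≤ p * lam.real G := mul_nonneg hp0 hl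
  have a1 := abs_le.1 k1
  have a2 := abs_le.1 k1U
  have b1 : r / 2 * (∫ x in S, U x ∂(lam.prod π)) ≤
      r / 2 * (∫ x in G ×ˢ Rs, U x ∂(lam.prod π)) + 1 / 2 * (p * lam.real G) := by
    nlinarith [a2.2]
  have b2 : s * (∫ x in S, F x ∂(lam.prod π)) ≤
      s * (∫ x in G ×ˢ Rs, F x ∂(lam.prod π)) + p * lam.real G := by
    rcases hs with h | h <;> subst h <;> linarith [a1.1, a1.2]
  have b3 : p * lam.real G ≤ p * (2 * (lam.prod π).real S) :=
    mul_le_mul_of_nonneg_left k3 hp0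
  linarith

end MDW
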