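import Pool.Agent.MDW.Defs

/-!
# MDW/Chain: chaining for a continuous function (deterministic)

For `a ≤ b` in `[0,1]` let `dp a b m k = a + (b-a) k / 2^m` (`k ≤ 2^m`) be the dyadic points of
`[a,b]`.

THEOREM `chain`. Let `f` be continuous, `x > 0`, and suppose that
`|f (dp m (k+1)) - f (dp m k)| ≤ x/10 * (9/10)^m` for all `m` and all `k < 2^m`. Then
`|f t - f a| ≤ x` for all `t ∈ [a,b]`.

PROOF. Claim: for all `m` and `k ≤ 2^m`: `|f (dp m k) - f a| ≤ ∑_{i ≤ m} x/10 (9/10)^i`. For `m =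
0`:
`k = 0` trivial, `k = 1` by hypothesis. Step: if `k = 2 k'` is even, `dp (m+1) k = dp m k'`. If
`k = 2 k' + 1` is odd, `dp (m+1) k` and `dp (m+1) (2 k') = dp m k'` are neighbours of level `m+1`.
The sum is at most `x/10 * 1/(1 - 9/10) = x`. The dyadic points `dp m k` are dense in `[a,b]`: for
`t ∈ [a,b]` with `a < b` take `k = ⌊(t-a)/(b-a) 2^m⌋₊ ≤ 2^m`, then `|dp m k - t| ≤ (b-a)/2^m →
0`; by
continuity `|f t - f a| ≤ x`. (For `a = b` everything is trivial.)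
-/

open MeasureTheory ProbabilityTheory Filter Topology

namespace MDW

/-- Dyadic points of `[a,b]`. -/
noncomputable def dp (a b : unitInterval) (m k : ℕ) : unitInterval :=
  Set.projIcc 0 1 zero_le_one ((a : ℝ) + ((b : ℝ) - a) * (k : ℝ) / 2 ^ m)

theorem dp_val {a b : unitInterval} (hab : a ≤ b) {m k : ℕ} (hk : k ≤ 2 ^ m) :
    ((dp a b m k : unitInterval) : ℝ) = (a : ℝ) + ((b : ℝ) - a) * (k : ℝ) / 2 ^ m := by
  have hab' : (a : ℝ) ≤ b := hab
  have hk' : (k : ℝ) ≤ 2 ^ m := by exact_mod_cast hk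
  have h0 : 0 ≤ ((b : ℝ) - a) * (k : ℝ) / 2 ^ m :=
    div_nonneg (mul_nonneg (sub_nonneg.2 hab') (Nat.cast_nonneg k)) (by positivity)
  have h1 : ((b : ℝ) - a) * (k : ℝ) / 2 ^ m ≤ (b : ℝ) - a := by
    rw [div_le_iff₀ (by positivity)]
    exact mul_le_mul_of_nonneg_left hk' (sub_nonneg.2 hab')
  have ha := a.2.1
  have hb := b.2.2
  have hm : (a : ℝ) + ((b : ℝ) - a) * (k : ℝ) / 2 ^ m ∈ Set.Icc (0 : ℝ) 1 :=
    ⟨by linarith, by linarith⟩
  unfold dp
  rw [Set.projIcc_of_mem zero_le_one hm]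

theorem dp_mono {a b : unitInterval} (hab : a ≤ b) {m k : ℕ} (hk : k < 2 ^ m) :
    dp a b m k ≤ dp a b m (k + 1) := by
  have hab' : (a : ℝ) ≤ b := hab
  rw [← Subtype.coe_le_coe, dp_val hab hk.le, dp_val hab (by omega)]
  have h1 : ((b : ℝ) - a) * (k : ℝ) ≤ ((b : ℝ) - a) * ((k + 1 : ℕ) : ℝ) :=
    mul_le_mul_of_nonneg_left (by push_cast; linarith) (sub_nonneg.2 hab')
  have h2 : (0 : ℝ) < 2 ^ m := by positivity
  have h3 := (div_le_div_iff_of_pos_right h2).2 h1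
  linarith

private theorem dp_zero {a b : unitInterval} (hab : a ≤ b) (m : ℕ) : dp a b m 0 = a := by
  apply Subtype.ext
  rw [dp_val hab (Nat.zero_le _)]
  simp

private theorem dp_two {a b : unitInterval} (hab : a ≤ b) {m k : ℕ} (hk : k ≤ 2 ^ m) :
    dp a b (m + 1) (2 * k) = dp a b m k := by
  apply Subtype.ext
  rw [dp_val hab hk, dp_val hab (by rw [pow_succ]; omega)]
  push_cast
  rw [pow_succ]
  field_simp

private theorem claim {a b : unitInterval} (hab : a ≤ b) (f : C(unitInterval, ℝ)) {x : ℝ}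
    (hx : 0 < x) (h : ∀ m k, k < 2 ^ m →
      |f (dp a b m (k + 1)) - f (dp a b m k)| ≤ x / 10 * (9 / 10) ^ m) (m : ℕ) :
    ∀ k ≤ 2 ^ m, |f (dp a b m k) - f a| ≤ x * (1 - (9 / 10) ^ (m + 1)) := by
  induction m with
  | zero =>
    intro k hk
    rw [pow_zero] at hk
    obtain rfl | rfl : k = 0 ∨ k = 1 := by omega
    · rw [dp_zero hab, sub_self, abs_zero]
      norm_num
      linarith
    · have h1 := h 0 0 (by norm_num)
      rw [zero_add, dp_zero hab, pow_zero, mul_one] at h1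
      refine h1.trans ?_
      norm_num
      linarith
  | succ m ih =>
    intro k hk
    have hp : (0 : ℝ) < (9 / 10 : ℝ) ^ (m + 1) := by positivity
    have e : (9 / 10 : ℝ) ^ (m + 1 + 1) = (9 / 10) ^ (m + 1) * (9 / 10) := pow_succ _ _
    rw [pow_succ] at hk
    have hxp : 0 < x * (9 / 10 : ℝ) ^ (m + 1) := mul_pos hx hp
    rcases Nat.even_or_odd' k with ⟨k', rfl | rfl⟩
    · rw [dp_two hab (by omega)]
      refine (ih k' (by omega)).trans ?_
      rw [e]
      nlinarith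
    · have h1 := h (m + 1) (2 * k') (by rw [pow_succ]; omega)
      rw [dp_two hab (by omega : k' ≤ 2 ^ m)] at h1
      have h2 := ih k' (by omega)
      have h3 := abs_sub_le (f (dp a b (m + 1) (2 * k' + 1))) (f (dp a b m k')) (f a)
      rw [e]
      have h4 : x * (1 - (9 / 10 : ℝ) ^ (m + 1) * (9 / 10)) =
          x / 10 * (9 / 10) ^ (m + 1) + x * (1 - (9 / 10) ^ (m + 1)) := by ring
      rw [h4]
      linarith

theorem chain {a b : unitInterval} (hab : a ≤ b) (f : C(unitInterval, ℝ)) {x : ℝ} (hx : 0 < x)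
    (h : ∀ m k, k < 2 ^ m →
      |f (dp a b m (k + 1)) - f (dp a b m k)| ≤ x / 10 * (9 / 10) ^ m)
    {t : unitInterval} (h1 : a ≤ t) (h2 : t ≤ b) : |f t - f a| ≤ x := by
  rcases hab.eq_or_lt with rfl | hlt
  · rw [le_antisymm h2 h1, sub_self, abs_zero]
    exact hx.le
  · have hlt' : (a : ℝ) < b := hlt
    have h1' : (a : ℝ) ≤ t := h1
    have h2' : (t : ℝ) ≤ b := h2
    have hd : (0 : ℝ) < b - a := sub_pos.2 hlt'
    have hd1 : (b : ℝ) - a ≤ 1 := by
      have := a.2.1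
      have := b.2.2
      linarith
    obtain ⟨u, hu⟩ : ∃ u : ℝ, u = (t - a) / (b - a) := ⟨_, rfl⟩
    have hu0 : 0 ≤ u := by
      rw [hu]
      exact div_nonneg (sub_nonneg.2 h1') hd.le
    have hu1 : u ≤ 1 := by
      rw [hu, div_le_one hd]
      linarith
    have hut : (t : ℝ) = a + (b - a) * u := by
      rw [hu]
      field_simp
      ring
    have hfl : ∀ m : ℕ, (⌊u * 2 ^ m⌋₊ : ℝ) ≤ u * 2 ^ m := fun m => Nat.floor_le (by positivity)
    have hfk : ∀ m : ℕ, ⌊u * 2 ^ m⌋₊ ≤ 2 ^ m := by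
      intro m
      have h3 : (⌊u * 2 ^ m⌋₊ : ℝ) ≤ 2 ^ m := by
        refine (hfl m).trans ?_
        have : (0 : ℝ) < 2 ^ m := by positivity
        nlinarith
      exact_mod_cast h3
    have hlim : Tendsto (fun m : ℕ => dp a b m ⌊u * 2 ^ m⌋₊) atTop (𝓝 t) := by
      rw [tendsto_iff_dist_tendsto_zero]
      refine squeeze_zero (fun _ => dist_nonneg) (fun m => ?_)
        (tendsto_pow_atTop_nhds_zero_of_lt_one (r := (1 / 2 : ℝ)) (by norm_num) (by norm_num))
      rw [Subtype.dist_eq, Real.dist_eq, dp_val hab (hfk m), hut]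
      have hp : (0 : ℝ) < 2 ^ m := by positivity
      have h5 := Nat.lt_floor_add_one (u * 2 ^ m)
      have e1 : (a : ℝ) + (b - a) * (⌊u * 2 ^ m⌋₊ : ℝ) / 2 ^ m - (a + (b - a) * u) =
          (b - a) * (((⌊u * 2 ^ m⌋₊ : ℝ) - u * 2 ^ m) / 2 ^ m) := by
        field_simp
        ring
      rw [e1, abs_mul, abs_of_pos hd, abs_div, abs_of_pos hp]
      have h6 : |(⌊u * 2 ^ m⌋₊ : ℝ) - u * 2 ^ m| ≤ 1 := by
        rw [abs_le]
        constructor
        · linarith
        · linarith [hfl m]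
      have h7 : |(⌊u * 2 ^ m⌋₊ : ℝ) - u * 2 ^ m| / 2 ^ m ≤ 1 / 2 ^ m :=
        (div_le_div_iff_of_pos_right hp).2 h6
      rw [one_div_pow]
      calc _ ≤ 1 * (|(⌊u * 2 ^ m⌋₊ : ℝ) - u * 2 ^ m| / 2 ^ m) :=
            mul_le_mul_of_nonneg_right hd1 (by positivity)
        _ ≤ _ := by rw [one_mul]; exact h7
    have hlim2 : Tendsto (fun m : ℕ => |f (dp a b m ⌊u * 2 ^ m⌋₊) - f a|) atTop
        (𝓝 |f t - f a|) :=
      (((f.continuous.tendsto t).comp hlim).sub_const (f a)).abs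
    refine le_of_tendsto hlim2 (Eventually.of_forall fun m => ?_)
    refine (claim hab f hx h m _ (hfk m)).trans ?_
    have : (0 : ℝ) < (9 / 10 : ℝ) ^ (m + 1) := by positivity
    nlinarith

end MDW
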