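import Pool.Agent.MDW.Defs

/-!
# MDW/Win: the window decomposition `f = outW a b f + brW a b f`

`outW a b f t = f (min t a) + (f (max t b) - f b) + (f b - f a) * rp a b t`,
`rp a b t = max 0 (min 1 ((t-a)/(b-a)))`.

PROOFS. For `t ≤ a < b`: `min t a = t`, `max t b = b`, `rp = 0`. For `b ≤ t`: `min t a = a`,
`max t b = t`, `rp = 1`. For `a ≤ t ≤ b`: `min t a = a`, `max t b = b`, `rp = (t-a)/(b-a)`.
Everything else is algebra. Continuity of `f ↦ outW a b f`:
`ContinuousMap.continuous_of_continuous_uncurry`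
(the evaluation map is jointly continuous on the compact space, `ContinuousMap.continuous_eval` or
`ContinuousEval`), or: the map is additive/linear and bounded `‖outW a b f‖ ≤ 5 ‖f‖`.
`outW_affine_min`: an affine function on `[a,b]` is at least the minimum of its end values
(convex combination with the weight `(t-a)/(b-a) ∈ [0,1]`). `outW_half`: value at the midpoint.
`brW_norm_le`: outside `[a,b]` the bridge part is zero; inside
`brW f t = (f t - f a) - (f b - f a) (t-a)/(b-a)`, so `|brW f t| ≤ 2 x` if `|f u - f a| ≤ x` on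
`[a,b]`; `ContinuousMap.norm_le`.
-/

open MeasureTheory ProbabilityTheory Filter Topology

namespace MDW

private theorem w_pos {a b : unitInterval} (hab : a < b) : (0 : ℝ) < (b : ℝ) - a :=
  sub_pos.2 hab

private theorem rp_le' {a b t : unitInterval} (hab : a < b) (ht : t ≤ a) :
    rp (a : ℝ) (b : ℝ) t = 0 := by
  have h1 : ((t : ℝ) - a) / ((b : ℝ) - a) ≤ 0 :=
    div_nonpos_of_nonpos_of_nonneg (sub_nonpos.2 ht) (w_pos hab).le
  exact max_eq_left ((min_le_right _ _).trans h1)

private theorem rp_ge' {a b t : unitInterval} (hab : a < b) (ht : b ≤ t) :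
    rp (a : ℝ) (b : ℝ) t = 1 := by
  have h0 : (b : ℝ) ≤ t := ht
  have h1 : 1 ≤ ((t : ℝ) - a) / ((b : ℝ) - a) := by
    rw [one_le_div (w_pos hab)]
    linarith
  unfold rp
  rw [min_eq_left h1]
  exact max_eq_right zero_le_one

private theorem w_mem {a b t : unitInterval} (hab : a < b) (h1 : a ≤ t) (h2 : t ≤ b) :
    0 ≤ ((t : ℝ) - a) / ((b : ℝ) - a) ∧ ((t : ℝ) - a) / ((b : ℝ) - a) ≤ 1 := by
  have h3 : (a : ℝ) ≤ t := h1
  have h4 : (t : ℝ) ≤ b := h2
  refine ⟨div_nonneg (sub_nonneg.2 h3) (w_pos hab).le, ?_⟩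
  rw [div_le_one (w_pos hab)]
  linarith

theorem outW_of_le {a b t : unitInterval} (hab : a < b) (ht : t ≤ a) (f : C(unitInterval, ℝ)) :
    outW a b f t = f t := by
  change f (min t a) + (f (max t b) - f b) + (f b - f a) * rp (a : ℝ) (b : ℝ) t = f t
  rw [rp_le' hab ht, min_eq_left ht, max_eq_right (ht.trans hab.le)]
  ring

theorem outW_of_ge {a b t : unitInterval} (hab : a < b) (ht : b ≤ t) (f : C(unitInterval, ℝ)) :
    outW a b f t = f t := by
  change f (min t a) + (f (max t b) - f b) + (f b - f a) * rp (a : ℝ) (b : ℝ) t = f t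
  rw [rp_ge' hab ht, min_eq_right (hab.le.trans ht), max_eq_left ht]
  ring

theorem outW_mid {a b t : unitInterval} (hab : a < b) (h1 : a ≤ t) (h2 : t ≤ b)
    (f : C(unitInterval, ℝ)) :
    outW a b f t = f a + (f b - f a) * (((t : ℝ) - a) / ((b : ℝ) - a)) := by
  change f (min t a) + (f (max t b) - f b) + (f b - f a) * rp (a : ℝ) (b : ℝ) t = _
  obtain ⟨h3, h4⟩ := w_mem hab h1 h2
  unfold rp
  rw [min_eq_right h4, max_eq_right h3, min_eq_right h1, max_eq_right h2]
  ring

theorem outW_affine_min {a b t : unitInterval} (hab : a < b) (h1 : a ≤ t) (h2 : t ≤ b)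
    (f : C(unitInterval, ℝ)) : min (f a) (f b) ≤ outW a b f t := by
  rw [outW_mid hab h1 h2]
  obtain ⟨h3, h4⟩ := w_mem hab h1 h2
  nlinarith [mul_nonneg h3 (sub_nonneg.2 (min_le_right (f a) (f b))),
    mul_nonneg (sub_nonneg.2 h4) (sub_nonneg.2 (min_le_left (f a) (f b)))]

theorem outW_half {a b t : unitInterval} (hab : a < b) (ht : (t : ℝ) = ((a : ℝ) + b) / 2)
    (f : C(unitInterval, ℝ)) : outW a b f t = (f a + f b) / 2 := by
  have h0 : (a : ℝ) < b := hab
  have h1 : a ≤ t := by
    change (a : ℝ) ≤ t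
    linarith
  have h2 : t ≤ b := by
    change (t : ℝ) ≤ b
    linarith
  rw [outW_mid hab h1 h2]
  have h3 : ((t : ℝ) - a) / ((b : ℝ) - a) = 1 / 2 := by
    rw [div_eq_div_iff (w_pos hab).ne' two_ne_zero]
    linarith
  rw [h3]
  ring

theorem brW_apply (a b t : unitInterval) (f : C(unitInterval, ℝ)) :
    brW a b f t = f t - outW a b f t := by
  rfl

theorem brW_of_le {a b t : unitInterval} (hab : a < b) (ht : t ≤ a) (f : C(unitInterval, ℝ)) :
    brW a b f t = 0 := by
  rw [brW_apply, outW_of_le hab ht, sub_self]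

theorem brW_of_ge {a b t : unitInterval} (hab : a < b) (ht : b ≤ t) (f : C(unitInterval, ℝ)) :
    brW a b f t = 0 := by
  rw [brW_apply, outW_of_ge hab ht, sub_self]

theorem outW_add_brW (a b : unitInterval) (f : C(unitInterval, ℝ)) :
    outW a b f + brW a b f = f := by
  exact add_sub_cancel _ _

theorem brW_neg (a b : unitInterval) (f : C(unitInterval, ℝ)) :
    brW a b (-f) = -brW a b f := by
  ext t
  change -f t - (-f (min t a) + (-f (max t b) - -f b) + (-f b - -f a) * rp (a : ℝ) (b : ℝ) t) =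
    -(f t - (f (min t a) + (f (max t b) - f b) + (f b - f a) * rp (a : ℝ) (b : ℝ) t))
  ring

theorem continuous_outW (a b : unitInterval) : Continuous (outW a b) := by
  refine ContinuousMap.continuous_of_continuous_uncurry _ ?_
  change Continuous fun p : C(unitInterval, ℝ) × unitInterval =>
    p.1 (min p.2 a) + (p.1 (max p.2 b) - p.1 b) + (p.1 b - p.1 a) * rp (a : ℝ) (b : ℝ) p.2
  unfold rp
  fun_prop

theorem continuous_brW (a b : unitInterval) : Continuous (brW a b) := by
  exact continuous_id.sub (continuous_outW a b)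

theorem brW_norm_le {a b : unitInterval} (hab : a < b) (f : C(unitInterval, ℝ)) {x : ℝ}
    (hx : ∀ t, a ≤ t → t ≤ b → |f t - f a| ≤ x) : ‖brW a b f‖ ≤ 2 * x := by
  have hx0 : 0 ≤ x := (abs_nonneg _).trans (hx a le_rfl hab.le)
  have h0 : 0 ≤ 2 * x := by positivity
  refine (ContinuousMap.norm_le _ h0).2 fun t => ?_
  rcases le_total t a with h1 | h1
  · rw [brW_of_le hab h1, norm_zero]
    exact h0
  rcases le_total b t with h2 | h2
  · rw [brW_of_ge hab h2, norm_zero]
    exact h0
  rw [brW_apply, outW_mid hab h1 h2, Real.norm_eq_abs]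
  obtain ⟨h3, h4⟩ := w_mem hab h1 h2
  have h5 := abs_le.1 (hx t h1 h2)
  have h6 := abs_le.1 (hx b hab.le le_rfl)
  generalize ((t : ℝ) - a) / ((b : ℝ) - a) = w at h3 h4
  rw [abs_le]
  constructor <;> nlinarith [mul_nonneg h3 (sub_nonneg.2 h6.1), mul_nonneg h3 (sub_nonneg.2 h6.2),
    mul_nonneg (sub_nonneg.2 h4) hx0]

end MDW
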