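import Pool.Agent.MDW.GTail
import Pool.Agent.MDW.Chain
import Pool.Agent.MDW.Win

/-!
# MDW/BTail: the bridge on a short window is small

PROOFS. `tail_br`: let `ℓ = b - a > 0` and `x = 1/16`. If `1/4 ≤ ‖brW a b f‖` then by
`brW_norm_le`
(contrapositive: `|f t - f a| ≤ 1/16` on `[a,b]` would give `‖brW‖ ≤ 1/8 < 1/4`) and `chain`
there are
`m` and `k < 2^m` with `|f (dp (k+1)) - f (dp k)| > x/10 (9/10)^m`. By `tail_incr` (increments of
length `ℓ/2^m`) and the union bound (`measure_iUnion_le`, `measure_biUnion_finset_le`) the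
probability is at most
`∑_m 2^m * 92160 (ℓ/2^m)^6 / (x/10 (9/10)^m)^12 = C₁ ℓ^6 ∑_m (2^(-5) (10/9)^12)^m`,
`C₁ = 92160 * 160^12`, and `2^(-5) (10/9)^12 < 1/8` (numerically `0.1106`), so the sum is at most
`8/7`. Any explicit constant is fine (the theorem only claims the existence of a constant, which
must not depend on `ν`, `a`, `b`).
`tail_br2`: for two Wiener measures: if `1/2 ≤ ‖brW g.1‖ + ‖brW g.2‖` then one of the two norms is
`≥ 1/4`; union bound and the marginals of the product measure.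
-/

open MeasureTheory ProbabilityTheory Filter Topology

namespace MDW

private theorem tail_one {ν : Measure C(unitInterval, ℝ)} (h : IsWiener ν) {a b : unitInterval}
    (hab : a < b) (m k : ℕ) (hk : k < 2 ^ m) :
    ν {f | 1 / 160 * (9 / 10 : ℝ) ^ m ≤ |f (dp a b m (k + 1)) - f (dp a b m k)|} ≤
      ENNReal.ofReal (92160 * (((b : ℝ) - a) / 2 ^ m) ^ 6 / (1 / 160 * (9 / 10) ^ m) ^ 12) := by
  have := h.isProbabilityMeasure
  have h1 := h.tail_incr (dp_mono hab.le hk) (x := 1 / 160 * (9 / 10 : ℝ) ^ m) (by positivity)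
  have h2 : ((dp a b m (k + 1) : unitInterval) : ℝ) - (dp a b m k : unitInterval) =
      ((b : ℝ) - a) / 2 ^ m := by
    rw [dp_val hab.le hk.le, dp_val hab.le hk]
    push_cast
    ring
  rw [h2] at h1
  rw [← ofReal_measureReal]
  exact ENNReal.ofReal_le_ofReal h1

private theorem tail_level {ν : Measure C(unitInterval, ℝ)} (h : IsWiener ν)
    {a b : unitInterval} (hab : a < b) (m : ℕ) :
    ν (⋃ k ∈ Finset.range (2 ^ m),
      {f | 1 / 160 * (9 / 10 : ℝ) ^ m ≤ |f (dp a b m (k + 1)) - f (dp a b m k)|}) ≤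
      ENNReal.ofReal (92160 * 160 ^ 12 * ((b : ℝ) - a) ^ 6 * (1 / 8) ^ m) := by
  refine (measure_biUnion_finset_le _ _).trans ?_
  refine (Finset.sum_le_sum fun k hk => tail_one h hab m k (Finset.mem_range.1 hk)).trans ?_
  rw [Finset.sum_const, Finset.card_range, nsmul_eq_mul]
  have e : ((2 ^ m : ℕ) : ENNReal) = ENNReal.ofReal (2 ^ m) := by
    rw [← ENNReal.ofReal_natCast]
    push_cast
    rfl
  rw [e, ← ENNReal.ofReal_mul (by positivity)]
  apply ENNReal.ofReal_le_ofReal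
  have h1 : (2 : ℝ) ^ m * (92160 * (((b : ℝ) - a) / 2 ^ m) ^ 6 / (1 / 160 * (9 / 10) ^ m) ^ 12) =
      92160 * 160 ^ 12 * ((b : ℝ) - a) ^ 6 * (2 / (2 ^ 6 * (9 / 10) ^ 12)) ^ m := by
    have h2 : (2 / (2 ^ 6 * (9 / 10) ^ 12) : ℝ) ^ m =
        2 ^ m / ((2 ^ m) ^ 6 * ((9 / 10) ^ m) ^ 12) := by
      rw [div_pow, mul_pow, ← pow_mul, ← pow_mul, ← pow_mul, ← pow_mul, mul_comm 6 m,
        mul_comm 12 m]
    rw [h2]
    have h3 : (0 : ℝ) < 2 ^ m := by positivity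
    have h4 : (0 : ℝ) < (9 / 10) ^ m := by positivity
    generalize (2 : ℝ) ^ m = u at *
    generalize (9 / 10 : ℝ) ^ m = v at *
    field_simp
    try norm_num
  rw [h1]
  have h5 : (2 / (2 ^ 6 * (9 / 10) ^ 12) : ℝ) ≤ 1 / 8 := by norm_num
  have h6 : (0 : ℝ) ≤ 2 / (2 ^ 6 * (9 / 10) ^ 12) := by positivity
  have h7 := pow_le_pow_left₀ h6 h5 m
  have h8 : 0 ≤ 92160 * 160 ^ 12 * ((b : ℝ) - a) ^ 6 := by positivity
  exact mul_le_mul_of_nonneg_left h7 h8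

private theorem tail_set {a b : unitInterval} (hab : a < b) :
    {f : C(unitInterval, ℝ) | 1 / 4 ≤ ‖brW a b f‖} ⊆
      ⋃ m : ℕ, ⋃ k ∈ Finset.range (2 ^ m),
        {f | 1 / 160 * (9 / 10 : ℝ) ^ m ≤ |f (dp a b m (k + 1)) - f (dp a b m k)|} := by
  intro f hf
  by_contra hcon
  simp only [Set.mem_iUnion, Finset.mem_range, Set.mem_ofPred_eq, exists_prop, not_exists,
    not_and, not_le] at hcon hf
  have h1 : ∀ t, a ≤ t → t ≤ b → |f t - f a| ≤ 1 / 16 := by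
    intro t h1 h2
    refine chain hab.le f (x := 1 / 16) (by norm_num) ?_ h1 h2
    intro m k hk
    have := (hcon m k hk).le
    refine this.trans (le_of_eq ?_)
    ring
  have h2 := brW_norm_le hab f h1
  linarith

private theorem tail_ind {ν : Measure C(unitInterval, ℝ)} (h : IsWiener ν)
    {a b : unitInterval} (hab : a < b) :
    ν.real {f | 1 / 4 ≤ ‖brW a b f‖} ≤ 92160 * 160 ^ 12 * 2 * ((b : ℝ) - a) ^ 6 := by
  have h8 : 0 ≤ 92160 * 160 ^ 12 * ((b : ℝ) - a) ^ 6 := by positivity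
  have hs : Summable fun m : ℕ => 92160 * 160 ^ 12 * ((b : ℝ) - a) ^ 6 * (1 / 8) ^ m :=
    (summable_geometric_of_lt_one (by norm_num) (by norm_num)).mul_left _
  have h1 : ν {f | 1 / 4 ≤ ‖brW a b f‖} ≤
      ENNReal.ofReal (∑' m : ℕ, 92160 * 160 ^ 12 * ((b : ℝ) - a) ^ 6 * (1 / 8) ^ m) := by
    rw [ENNReal.ofReal_tsum_of_nonneg (fun m => by positivity) hs]
    exact (measure_mono (tail_set hab)).trans ((measure_iUnion_le _).trans
      (ENNReal.tsum_le_tsum fun m => tail_level h hab m))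
  have h2 : ∑' m : ℕ, 92160 * 160 ^ 12 * ((b : ℝ) - a) ^ 6 * (1 / 8 : ℝ) ^ m ≤
      92160 * 160 ^ 12 * 2 * ((b : ℝ) - a) ^ 6 := by
    rw [tsum_mul_left, tsum_geometric_of_lt_one (by norm_num) (by norm_num)]
    have : (1 - 1 / 8 : ℝ)⁻¹ ≤ 2 := by norm_num
    calc _ ≤ 92160 * 160 ^ 12 * ((b : ℝ) - a) ^ 6 * 2 := mul_le_mul_of_nonneg_left this h8
      _ = _ := by ring
  refine le_trans ?_ h2
  rw [Measure.real]
  exact ENNReal.toReal_le_of_le_ofReal (tsum_nonneg fun m => by positivity) h1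

theorem tail_br : ∃ C : ℝ, 0 < C ∧ ∀ (ν : Measure C(unitInterval, ℝ)), IsWiener ν →
    ∀ a b : unitInterval, a < b →
      ν.real {f | 1 / 4 ≤ ‖brW a b f‖} ≤ C * ((b : ℝ) - a) ^ 6 := by
  exact ⟨92160 * 160 ^ 12 * 2, by norm_num, fun ν h a b hab => tail_ind h hab⟩

theorem tail_br2 : ∃ C : ℝ, 0 < C ∧ ∀ (ν₁ ν₂ : Measure C(unitInterval, ℝ)), IsWiener ν₁ →
    IsWiener ν₂ → ∀ a b : unitInterval, a < b →
      (ν₁.prod ν₂).real {g | 1 / 2 ≤ ‖brW a b g.1‖ + ‖brW a b g.2‖} ≤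
        C * ((b : ℝ) - a) ^ 6 := by
  refine ⟨2 * (92160 * 160 ^ 12 * 2), by norm_num, fun ν₁ ν₂ h₁ h₂ a b hab => ?_⟩
  have := h₁.isProbabilityMeasure
  have := h₂.isProbabilityMeasure
  have hsub : {g : C(unitInterval, ℝ) × C(unitInterval, ℝ) |
      1 / 2 ≤ ‖brW a b g.1‖ + ‖brW a b g.2‖} ⊆
      ({f | 1 / 4 ≤ ‖brW a b f‖} ×ˢ Set.univ) ∪ (Set.univ ×ˢ {f | 1 / 4 ≤ ‖brW a b f‖}) := by
    rintro ⟨f, g⟩ hfg
    simp only [Set.mem_ofPred_eq] at hfg
    rcases le_or_gt (1 / 4) ‖brW a b f‖ with h | h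
    · exact Or.inl ⟨h, trivial⟩
    · refine Or.inr ⟨trivial, ?_⟩
      simp only [Set.mem_ofPred_eq]
      linarith
  have e1 : (ν₁.prod ν₂).real ({f | 1 / 4 ≤ ‖brW a b f‖} ×ˢ Set.univ) =
      ν₁.real {f | 1 / 4 ≤ ‖brW a b f‖} := by
    rw [Measure.real, Measure.prod_prod, measure_univ, mul_one, Measure.real]
  have e2 : (ν₁.prod ν₂).real (Set.univ ×ˢ {f | 1 / 4 ≤ ‖brW a b f‖}) =
      ν₂.real {f | 1 / 4 ≤ ‖brW a b f‖} := by
    rw [Measure.real, Measure.prod_prod, measure_univ, one_mul, Measure.real]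
  calc _ ≤ (ν₁.prod ν₂).real (({f | 1 / 4 ≤ ‖brW a b f‖} ×ˢ Set.univ) ∪
        (Set.univ ×ˢ {f | 1 / 4 ≤ ‖brW a b f‖})) := measureReal_mono hsub (measure_ne_top _ _)
    _ ≤ _ := measureReal_union_le _ _
    _ ≤ 92160 * 160 ^ 12 * 2 * ((b : ℝ) - a) ^ 6 + 92160 * 160 ^ 12 * 2 * ((b : ℝ) - a) ^ 6 := by
        rw [e1, e2]
        exact add_le_add (tail_ind h₁ hab) (tail_ind h₂ hab)
    _ = _ := by ring

end MDW
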