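import Pool.Agent.MDW.PMeas

/-!
# MDW/WUniq: uniqueness and symmetry of Wiener measure

PROOFS. `IsWiener.isProbabilityMeasure`: `IsGaussianProcess.isProbabilityMeasure`.
`IsWiener.unique`: by `ext_of_fdd` it suffices that for a finite set `J` of times the laws of
`f ↦ (f t)_{t ∈ J}` under `ν` and `ν'` agree. Both are Gaussian measures on `J → ℝ` with the same
mean (zero) and the same covariances `min s t`; so they agree by `IsGaussian.ext` exactly as in
the
Mathlib proof of `IsGaussianProcess.isPreBrownianReal_of_covariance`
(file Mathlib/Probability/BrownianMotion/Basic.lean: transport by `MeasurableEquiv.toLp 2`,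
`integral_map`, `covarianceBilin_apply_pi`, `covariance_map`); copy that proof and replace the
projective family by `ν'.map (fun f (t : J) => f t)`. (Alternatively use characteristic
functions.)
`IsWiener.neg`: `f ↦ -f` is a measurable map; under `ν.map (-·)` the coordinate process has the
law
of `f ↦ - f t` under `ν`: Gaussian (`IsGaussianProcess.of_isGaussianProcess` or `smul` with `-1`),
mean zero, same covariance (`covariance_neg_left`, `covariance_neg_right` or unfold).
`IsWiener.map_neg`: from `neg` and `unique`.
`IsWiener.measurePreserving_flip`: `flip (g₁, g₂) = (g₁, -g₂)` preserves `ν₁.prod ν₂`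
(`MeasurePreserving.prod` of the identity and the negation, or `Measure.map_prod_map`).
-/

open MeasureTheory ProbabilityTheory Filter Topology

namespace MDW

private theorem gauss_ext {ι : Type*} [Fintype ι] {μ μ' : Measure (ι → ℝ)} [IsGaussian μ]
    [IsGaussian μ'] (hm : ∀ i, ∫ x, x i ∂μ = ∫ x, x i ∂μ')
    (hc : ∀ i j, cov[fun x => x i, fun x => x j; μ] = cov[fun x => x i, fun x => x j; μ']) :
    μ = μ' := by
  have hg : ∀ i, HasGaussianLaw (fun x : ι → ℝ => x i) μ :=
    fun i => IsGaussian.hasGaussianLaw_id.eval i
  have hg' : ∀ i, HasGaussianLaw (fun x : ι → ℝ => x i) μ' :=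
    fun i => IsGaussian.hasGaussianLaw_id.eval i
  apply (MeasurableEquiv.toLp 2 (_ → ℝ)).map_measurableEquiv_injective
  rw [MeasurableEquiv.coe_toLp, ← PiLp.coe_symm_continuousLinearEquiv 2 ℝ]
  apply IsGaussian.ext
  · rw [integral_map, integral_map]
    · simp only [id_eq]
      rw [ContinuousLinearEquiv.integral_comp_id_comm,
        ContinuousLinearEquiv.integral_comp_id_comm]
      congr 1
      funext i
      rw [eval_integral, eval_integral]
      · exact hm i
      · exact fun j => (hg' j).integrable
      · exact fun j => (hg j).integrable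
    any_goals fun_prop
  · rw [← ContinuousLinearMap.toBilinForm_inj]
    refine LinearMap.BilinForm.ext_of_isSymm isPosSemidef_covarianceBilin.isSymm
      isPosSemidef_covarianceBilin.isSymm fun x ↦ ?_
    simp only [ContinuousLinearMap.toBilinForm_apply]
    rw [PiLp.coe_symm_continuousLinearEquiv, covarianceBilin_apply_pi, covarianceBilin_apply_pi]
    · refine Finset.sum_congr rfl fun i _ => Finset.sum_congr rfl fun j _ => ?_
      congr 1
      exact hc i j
    · exact fun i ↦ (hg' i).memLp_two
    · exact fun i ↦ (hg i).memLp_two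

theorem IsWiener.isProbabilityMeasure {ν : Measure C(unitInterval, ℝ)} (h : IsWiener ν) :
    IsProbabilityMeasure ν := h.gauss.isProbabilityMeasure

private theorem meas_ev (J : Finset unitInterval) :
    Measurable (fun (f : C(unitInterval, ℝ)) (t : J) => f t) :=
  measurable_pi_lambda _ fun t => (continuous_eval_const (t : unitInterval)).measurable

private theorem meas_neg : Measurable (fun f : C(unitInterval, ℝ) => -f) :=
  continuous_neg.measurable

theorem IsWiener.unique {ν ν' : Measure C(unitInterval, ℝ)} (h : IsWiener ν)
    (h' : IsWiener ν') : ν = ν' := by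
  have i1 := h.isProbabilityMeasure
  have i2 := h'.isProbabilityMeasure
  refine ext_of_fdd fun J => ?_
  have hL : IsGaussian (ν.map (fun (f : C(unitInterval, ℝ)) (t : J) => f t)) :=
    (h.gauss.hasGaussianLaw J).isGaussian_map
  have hL' : IsGaussian (ν'.map (fun (f : C(unitInterval, ℝ)) (t : J) => f t)) :=
    (h'.gauss.hasGaussianLaw J).isGaussian_map
  have hmean : ∀ (ξ : Measure C(unitInterval, ℝ)), IsWiener ξ → ∀ i : J,
      ∫ x, x i ∂(ξ.map (fun (f : C(unitInterval, ℝ)) (t : J) => f t)) = 0 := by
    intro ξ hξ i
    rw [integral_map (meas_ev J).aemeasurable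
      (measurable_pi_apply i).aestronglyMeasurable]
    exact hξ.mean i
  have hcov : ∀ (ξ : Measure C(unitInterval, ℝ)), IsWiener ξ → ∀ i j : J,
      cov[fun x => x i, fun x => x j; ξ.map (fun (f : C(unitInterval, ℝ)) (t : J) => f t)] =
        ((min i.1 j.1 : unitInterval) : ℝ) := by
    intro ξ hξ i j
    rw [covariance_map_fun (measurable_pi_apply i).aestronglyMeasurable
      (measurable_pi_apply j).aestronglyMeasurable (meas_ev J).aemeasurable]
    rcases le_total i.1 j.1 with hij | hij
    · rw [min_eq_left hij]
      exact hξ.cov _ _ hij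
    · rw [min_eq_right hij, covariance_comm]
      exact hξ.cov _ _ hij
  refine gauss_ext (fun i => ?_) fun i j => ?_
  · rw [hmean ν h, hmean ν' h']
  · rw [hcov ν h, hcov ν' h']

theorem IsWiener.neg {ν : Measure C(unitInterval, ℝ)} (h : IsWiener ν) :
    IsWiener (ν.map (fun f => -f)) where
  gauss := by
    constructor
    intro I
    constructor
    have h1 := ((h.gauss.smul (fun _ => (-1 : ℝ))).hasGaussianLaw I).isGaussian_map
    have h2 : Measurable (fun f : C(unitInterval, ℝ) => I.restrict fun x => f x) := meas_ev I
    rw [Measure.map_map h2 meas_neg]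
    convert h1 using 2
    funext f t
    simp
  mean t := by
    rw [integral_map meas_neg.aemeasurable
      (continuous_eval_const t).measurable.aestronglyMeasurable]
    have h1 : ∀ f : C(unitInterval, ℝ), (-f) t = -(f t) := fun f => rfl
    simp only [h1]
    rw [integral_neg, h.mean t, neg_zero]
  cov s t hst := by
    rw [covariance_map_fun (continuous_eval_const s).measurable.aestronglyMeasurable
      (continuous_eval_const t).measurable.aestronglyMeasurable meas_neg.aemeasurable]
    have h1 : ∀ (r : unitInterval), (fun f : C(unitInterval, ℝ) => (-f) r) =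
        -(fun f : C(unitInterval, ℝ) => f r) := fun r => rfl
    rw [h1, h1, covariance_neg_left, covariance_neg_right, neg_neg]
    exact h.cov s t hst

theorem IsWiener.map_neg {ν : Measure C(unitInterval, ℝ)} (h : IsWiener ν) :
    ν.map (fun f => -f) = ν := h.neg.unique h

theorem IsWiener.measurePreserving_flip {ν₁ ν₂ : Measure C(unitInterval, ℝ)}
    (h₁ : IsWiener ν₁) (h₂ : IsWiener ν₂) :
    MeasurePreserving (fun g : C(unitInterval, ℝ) × C(unitInterval, ℝ) => (g.1, -g.2))
      (ν₁.prod ν₂) (ν₁.prod ν₂) := by
  have i1 := h₁.isProbabilityMeasure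
  have i2 := h₂.isProbabilityMeasure
  exact (MeasurePreserving.id ν₁).prod ⟨meas_neg, h₂.map_neg⟩

end MDW
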