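import Pool.Agent.MDW.GShift
import Pool.Agent.MDW.WUniq

/-!
# MDW/CMRamp: Cameron-Martin for a ramp

`rpC a b` is the ramp `t ↦ max 0 (min 1 ((t-a)/(b-a)))`.
(1) `resample_incr`: let `ν` be a Wiener measure, `a < b` in `[0,1]`, `v = b - a`. Then `ν` is
the image of
`ν.prod (gaussianReal 0 v)` under `(f, x) ↦ f - (f b - f a) • rpC a b + x • rpC a b`. PROOF. Let
`A f = f - (f b - f a) • rpC a b` (path valued), `G f = f b - f a`. `f = A f + G f • rpC a b`.
Under `ν`:
`cov(A f t, G f) = (min t b - min t a) - rp t * (b - a) = 0`, since for `t ∈ [0,1]`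
`min t b - min t a = (b-a) rp a b t` (three cases). The process `Sum.elim (fun t f => A f t) (fun
_ f => G f)`
over `unitInterval ⊕ Unit` is Gaussian (`of_isGaussianProcess`), so `A` and `G` are independent
(`indepFun_of_covariance_eq_zero`; then `indepFun_path`-style transfer: the comap of the pi sigma
algebra by the coercion is the sigma algebra of the path space, `comap_coe_eq`). The law of `G` is
`gaussianReal 0 v` (Gaussian, mean zero, variance `b - 2a + a`). Hence
`ν = ν.map (fun f => A f + G f • rpC) = ((ν.map A).prod (ν.map G)).map _ =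
(ν.prod (gaussianReal 0 v)).map (fun p => A p.1 + p.2 • rpC)`.
(2) `cm_ramp`: for `m, R` real there is `c > 0` such that for all measurable `D ⊆ closedBall 0 R`:
`c * ν {f | f + m • rpC a b ∈ D} ≤ ν D`. PROOF. By (1),
`ν {f | f + m • rpC ∈ D} = (ν.prod γ) {p | Φ (p.1, p.2 + m) ∈ D}` and `ν D = (ν.prod γ) {p | Φ p
∈ D}`
with `Φ p = A p.1 + p.2 • rpC a b`, and `Φ (f, x) ∈ D` implies `|x| ≤ 2 R`, because
`(Φ (f,x)) b - (Φ (f,x)) a = x` (`A f b - A f a = 0`: `rp a b b = 1`, `rp a b a = 0`) and
`‖Φ‖ ≤ R`. Apply `shift_section` with `2 R`.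
-/

open MeasureTheory ProbabilityTheory Filter Topology
open scoped ENNReal NNReal

namespace MDW

private theorem cr_cov {ν : Measure C(unitInterval, ℝ)} (h : IsWiener ν) (s t : unitInterval) :
    cov[fun f => f s, fun f => f t; ν] = min (s : ℝ) t := by
  rcases le_total s t with hst | hst
  · rw [h.cov s t hst, min_eq_left (by exact_mod_cast hst)]
  · rw [covariance_comm, h.cov t s hst, min_eq_right (by exact_mod_cast hst)]

private theorem cr_rp {a b : unitInterval} (hab : a < b) (t : unitInterval) :
    min (t : ℝ) b - min (t : ℝ) a = ((b : ℝ) - a) * rp a b t := by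
  have hab' : (a : ℝ) < b := by exact_mod_cast hab
  have hv : (0 : ℝ) < b - a := by linarith
  unfold rp
  rcases le_total (t : ℝ) a with h1 | h1
  · have h2 : (t : ℝ) ≤ b := by linarith
    rw [min_eq_left h1, min_eq_left h2, sub_self]
    have h3 : ((t : ℝ) - a) / (b - a) ≤ 0 := div_nonpos_of_nonpos_of_nonneg (by linarith) hv.le
    rw [min_eq_right (by linarith), max_eq_left h3, mul_zero]
  · rw [min_eq_right h1]
    have h3 : 0 ≤ ((t : ℝ) - a) / (b - a) := div_nonneg (by linarith) hv.le
    rcases le_total (t : ℝ) b with h2 | h2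
    · rw [min_eq_left h2]
      have h4 : ((t : ℝ) - a) / (b - a) ≤ 1 := (div_le_one hv).2 (by linarith)
      rw [min_eq_right h4, max_eq_right h3]
      field_simp
    · rw [min_eq_right h2]
      have h4 : 1 ≤ ((t : ℝ) - a) / (b - a) := (one_le_div hv).2 (by linarith)
      rw [min_eq_left h4, max_eq_right zero_le_one, mul_one]

private theorem cr_rpb {a b : unitInterval} (hab : a < b) : rp a b b = 1 := by
  have hab' : (a : ℝ) < b := by exact_mod_cast hab
  unfold rp
  rw [div_self (by linarith), min_self, max_eq_right zero_le_one]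

private theorem cr_rpa {a b : unitInterval} : rp a b a = 0 := by
  unfold rp
  rw [sub_self, zero_div, min_eq_right zero_le_one, max_self]

private theorem cr_eval (t : unitInterval) : Continuous fun f : C(unitInterval, ℝ) => f t :=
  continuous_eval_const t

theorem IsWiener.resample_incr {ν : Measure C(unitInterval, ℝ)} (h : IsWiener ν)
    {a b : unitInterval} (hab : a < b) :
    (ν.prod (gaussianReal 0 (Real.toNNReal ((b : ℝ) - a)))).map
      (fun p : C(unitInterval, ℝ) × ℝ =>
        p.1 - (p.1 b - p.1 a) • rpC a b + p.2 • rpC a b) = ν := by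
  have hp : IsProbabilityMeasure ν := h.isProbabilityMeasure
  have hab' : (a : ℝ) < b := by exact_mod_cast hab
  let A : C(unitInterval, ℝ) → C(unitInterval, ℝ) := fun f => f - (f b - f a) • rpC a b
  let G : C(unitInterval, ℝ) → ℝ := fun f => f b - f a
  have hAc : Continuous A := by
    have h1 : Continuous fun f : C(unitInterval, ℝ) => f b - f a := (cr_eval b).sub (cr_eval a)
    exact continuous_id.sub (h1.smul continuous_const)
  have hGc : Continuous G :=
    (cr_eval b).sub (cr_eval a)
  have hA : Measurable A := hAc.measurable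
  have hG : Measurable G := hGc.measurable
  have hAt : ∀ (t : unitInterval) (f : C(unitInterval, ℝ)),
      A f t = f t - (f b - f a) * rp a b t := fun t f => rfl
  have hL : ∀ t : unitInterval, MemLp (fun f : C(unitInterval, ℝ) => f t) 2 ν := fun t =>
    (h.gauss.hasGaussianLaw_eval t).memLp_two
  have hjoint : IsGaussianProcess (Sum.elim
      (fun (t : unitInterval) (f : C(unitInterval, ℝ)) => A f t)
      (fun (_ : unitInterval) (f : C(unitInterval, ℝ)) => G f)) ν := by
    classical
    refine h.gauss.of_isGaussianProcess ?_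
    rintro (t | t)
    · refine ⟨{t, a, b},
        { toFun := fun x => x ⟨t, by simp⟩ - (x ⟨b, by simp⟩ - x ⟨a, by simp⟩) * rp a b t
          map_add' := fun x y => by simp only [Pi.add_apply]; ring
          map_smul' := fun c x => by
            simp only [Pi.smul_apply, smul_eq_mul, RingHom.id_apply]
            ring
          cont := by fun_prop }, fun f => rfl⟩
    · refine ⟨{a, b},
        { toFun := fun x => x ⟨b, by simp⟩ - x ⟨a, by simp⟩
          map_add' := fun x y => by simp only [Pi.add_apply]; ring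
          map_smul' := fun c x => by
            simp only [Pi.smul_apply, smul_eq_mul, RingHom.id_apply]
            ring
          cont := by fun_prop }, fun f => rfl⟩
  have hGG : cov[G, G; ν] = (b : ℝ) - a := by
    have h1 : cov[G, G; ν] = cov[fun f => f b, fun f => f b; ν] -
        cov[fun f => f b, fun f => f a; ν] - cov[fun f => f a, fun f => f b; ν] +
        cov[fun f => f a, fun f => f a; ν] :=
      covariance_fun_sub_fun_sub (hL b) (hL a) (hL b) (hL a)
    rw [h1, cr_cov h, cr_cov h, cr_cov h, cr_cov h, min_self, min_self, min_eq_right hab'.le,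
      min_eq_left hab'.le]
    ring
  have hcov : ∀ (t _s : unitInterval), cov[fun f => A f t, G; ν] = 0 := by
    intro t _
    have hGL : MemLp G 2 ν := (hL b).sub (hL a)
    have h1 : cov[fun f => A f t, G; ν] = cov[fun f => f t, G; ν] -
        cov[fun f => G f * rp a b t, G; ν] :=
      covariance_fun_sub_left (hL t) (hGL.mul_const _) hGL
    have h2 : cov[fun f => f t, G; ν] = cov[fun f => f t, fun f => f b; ν] -
        cov[fun f => f t, fun f => f a; ν] := covariance_fun_sub_right (hL t) (hL b) (hL a)
    rw [h1, h2, covariance_mul_const_left, hGG, cr_cov h, cr_cov h, cr_rp hab t]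
    ring
  have hind : IndepFun (fun (f : C(unitInterval, ℝ)) (t : unitInterval) => A f t)
      (fun (f : C(unitInterval, ℝ)) (_ : unitInterval) => G f) ν :=
    hjoint.indepFun_of_covariance_eq_zero
      (fun t => ((cr_eval t).comp hAc).measurable.aemeasurable)
      (fun _ => hG.aemeasurable) hcov
  have hind2 : IndepFun A (fun f => ContinuousMap.const unitInterval (G f)) ν :=
    indepFun_path hind
  have hind3 : IndepFun A G ν := by
    have h1 := hind2.comp measurable_id
      (cr_eval 0).measurable
    exact h1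
  have hGlaw : ν.map G = gaussianReal 0 (Real.toNNReal ((b : ℝ) - a)) := by
    have h1 : HasGaussianLaw G ν := h.gauss.hasGaussianLaw_fun_sub (s := b) (t := a)
    rw [h1.map_eq_gaussianReal]
    have h2 : ∫ f, G f ∂ν = 0 := by
      have h3 : ∫ f, G f ∂ν = ∫ f, f b ∂ν - ∫ f, f a ∂ν :=
        integral_sub ((hL b).integrable (by norm_num)) ((hL a).integrable (by norm_num))
      rw [h3, h.mean, h.mean, sub_zero]
    rw [h2, ← covariance_self hG.aemeasurable, hGG]
  have hprod : ν.map (fun f => (A f, G f)) = (ν.map A).prod (ν.map G) :=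
    (indepFun_iff_map_prod_eq_prod_map_map hA.aemeasurable hG.aemeasurable).1 hind3
  have hΦc : Continuous (fun p : C(unitInterval, ℝ) × ℝ => p.1 + p.2 • rpC a b) := by
    fun_prop
  have h4 : ν = ((ν.map A).prod (ν.map G)).map
      (fun p : C(unitInterval, ℝ) × ℝ => p.1 + p.2 • rpC a b) := by
    rw [← hprod, Measure.map_map hΦc.measurable (hA.prodMk hG)]
    have h5 : (fun p : C(unitInterval, ℝ) × ℝ => p.1 + p.2 • rpC a b) ∘
        (fun f => (A f, G f)) = id := by
      funext f
      change (f - (f b - f a) • rpC a b) + (f b - f a) • rpC a b = f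
      rw [sub_add_cancel]
    rw [h5, Measure.map_id]
  have h6 : (ν.map A).prod (ν.map G) =
      (ν.prod (gaussianReal 0 (Real.toNNReal ((b : ℝ) - a)))).map (Prod.map A id) := by
    rw [← Measure.map_prod_map _ _ hA measurable_id, Measure.map_id, hGlaw]
  rw [h6, Measure.map_map hΦc.measurable (hA.prodMap measurable_id)] at h4
  exact h4.symm

theorem IsWiener.cm_ramp {ν : Measure C(unitInterval, ℝ)} (h : IsWiener ν)
    {a b : unitInterval} (hab : a < b) (m R : ℝ) :
    ∃ c : ℝ≥0∞, 0 < c ∧ ∀ D : Set C(unitInterval, ℝ), MeasurableSet D →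
      D ⊆ Metric.closedBall 0 R → c * ν {f | f + m • rpC a b ∈ D} ≤ ν D := by
  have hp : IsProbabilityMeasure ν := h.isProbabilityMeasure
  have hab' : (a : ℝ) < b := by exact_mod_cast hab
  have hv : Real.toNNReal ((b : ℝ) - a) ≠ 0 := by
    rw [Ne, Real.toNNReal_eq_zero, not_le]
    linarith
  obtain ⟨c, hc0, hc⟩ := shift_section hv m (2 * R)
  refine ⟨c, hc0, fun D hD hDR => ?_⟩
  have hΦc : Continuous (fun p : C(unitInterval, ℝ) × ℝ =>
      p.1 - (p.1 b - p.1 a) • rpC a b + p.2 • rpC a b) := by
    have e1 : Continuous fun p : C(unitInterval, ℝ) × ℝ => p.1 b :=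
      (cr_eval b).comp continuous_fst
    have e2 : Continuous fun p : C(unitInterval, ℝ) × ℝ => p.1 a :=
      (cr_eval a).comp continuous_fst
    exact (continuous_fst.sub ((e1.sub e2).smul continuous_const)).add
      (continuous_snd.smul continuous_const)
  have hsh : Measurable (fun f : C(unitInterval, ℝ) => f + m • rpC a b) :=
    (continuous_id.add continuous_const).measurable
  have h1 := hc ν _ hΦc.measurable D hD (by
    intro p hpD
    have h2 := hDR hpD
    rw [mem_closedBall_zero_iff] at h2
    have h3 := (ContinuousMap.norm_coe_le_norm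
      (p.1 - (p.1 b - p.1 a) • rpC a b + p.2 • rpC a b) b).trans h2
    have h4 := (ContinuousMap.norm_coe_le_norm
      (p.1 - (p.1 b - p.1 a) • rpC a b + p.2 • rpC a b) a).trans h2
    have h5 : (p.1 - (p.1 b - p.1 a) • rpC a b + p.2 • rpC a b) b = p.1 a + p.2 := by
      change p.1 b - (p.1 b - p.1 a) * rp a b b + p.2 * rp a b b = p.1 a + p.2
      rw [cr_rpb hab]
      ring
    have h6 : (p.1 - (p.1 b - p.1 a) • rpC a b + p.2 • rpC a b) a = p.1 a := by
      change p.1 a - (p.1 b - p.1 a) * rp a b a + p.2 * rp a b a = p.1 a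
      rw [cr_rpa]
      ring
    rw [h5, Real.norm_eq_abs] at h3
    rw [h6, Real.norm_eq_abs] at h4
    rw [abs_le] at h3 h4 ⊢
    constructor <;> linarith [h3.1, h3.2, h4.1, h4.2])
  have h2 : ν D = (ν.prod (gaussianReal 0 (Real.toNNReal ((b : ℝ) - a))))
      {p | p.1 - (p.1 b - p.1 a) • rpC a b + p.2 • rpC a b ∈ D} := by
    conv_lhs => rw [← h.resample_incr hab]
    rw [Measure.map_apply hΦc.measurable hD]
    rfl
  have h3 : ν {f | f + m • rpC a b ∈ D} =
      (ν.prod (gaussianReal 0 (Real.toNNReal ((b : ℝ) - a))))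
      {p | p.1 - (p.1 b - p.1 a) • rpC a b + (p.2 + m) • rpC a b ∈ D} := by
    conv_lhs => rw [← h.resample_incr hab]
    have h4 : MeasurableSet {f : C(unitInterval, ℝ) | f + m • rpC a b ∈ D} := hsh hD
    rw [Measure.map_apply hΦc.measurable h4]
    congr 1
    ext p
    simp only [Set.mem_preimage, Set.mem_ofPred_eq, add_smul, add_assoc]
  rw [h2, h3]
  exact h1

end MDW
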