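import Pool.Agent.MDW.CMRamp

/-!
# MDW/CMSpan: Cameron-Martin for finite sums of ramps, in the plane

`RampSpan` is the linear span of the ramps `rpC a b`, `a < b` in `[0,1]`.
(1) `cm_span`: for `h ∈ RampSpan` and `R` there is `c > 0` with `c * ν {f | f + h ∈ D} ≤ ν D` for
all
measurable `D ⊆ closedBall 0 R`. PROOF. `Submodule.span_induction` for the statement
`Q h := ∀ s R, ∃ c > 0, ∀ D …, c * ν {f | f + s • h ∈ D} ≤ ν D`. Ramp: `cm_ramp` with `m = s`.
Zero: `c = 1`.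
Sum: `s • (h₁ + h₂)`: for `D ⊆ closedBall 0 R` let `D' = {f | f + s • h₁ ∈ D} ⊆ closedBall 0 (R +
‖s • h₁‖)`
(measurable); `{f | f + s • (h₁ + h₂) ∈ D} = {f | f + s • h₂ ∈ D'}`; so
`c₁ c₂ ν {…} ≤ c₁ ν D' ≤ ν D`. Scalar: `s • (r • h) = (s r) • h`. (Constants: replace `c` by
`min c 1` if a product `0 < c₁ * c₂` in `ℝ≥0∞` is needed: `ENNReal.mul_pos`.)
(2) `cm_pair`: for `ν₁ ⊗ ν₂` and a pair `(h₁, h₂)`: for measurable
`D ⊆ closedBall 0 R` of `C × C` (sup norm): `c * (ν₁.prod ν₂) {p | p + (h₁, h₂) ∈ D} ≤ (ν₁.prod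
ν₂) D`.
PROOF. Shift first the second coordinate (Tonelli over sections with the first coordinate fixed:
`Measure.prod_apply`; the sections `{y | (x, y) ∈ D'}` are measurable and in the ball), then the
first one (`Measure.prod_apply_symm`), with an enlarged radius in between.
(3) `cm_plane`: let `L = (ν₁.prod ν₂).map (mix ρ)`, `|ρ| < 1`, `κ = √(1-ρ²) > 0`, and `ψ` a
planar path
with `fstC ψ, sndC ψ ∈ RampSpan`. Put `h₁ = fstC ψ`, `h₂ = κ⁻¹ • (sndC ψ - ρ • fstC ψ) ∈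
RampSpan`; then
`mix ρ (p + (h₁, h₂)) = mix ρ p + ψ`. For measurable `D ⊆ closedBall 0 R` of planar paths put
`D' = (mix ρ) ⁻¹' D`: `‖p.1‖ ≤ R` and `κ p.2 = (mix).2 - ρ p.1`, so `‖p.2‖ ≤ 2R/κ`: `D'` is in a
ball.
Apply (2): `L {w | w + ψ ∈ D} = (ν₁.prod ν₂) {p | p + (h₁,h₂) ∈ D'}`, `L D = (ν₁.prod ν₂) D'`
(`Measure.map_apply` with `continuous_mix'`-type measurability; prove the continuity of `mix ρ`
here
privately if needed, or import VDet).
-/

open MeasureTheory ProbabilityTheory Filter Topology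
open scoped ENNReal NNReal

namespace MDW

/-- The linear span of the ramps. -/
def RampSpan : Submodule ℝ C(unitInterval, ℝ) :=
  Submodule.span ℝ {h | ∃ a b : unitInterval, a < b ∧ h = rpC a b}

theorem IsWiener.cm_span {ν : Measure C(unitInterval, ℝ)} (hν : IsWiener ν)
    {h : C(unitInterval, ℝ)} (hh : h ∈ RampSpan) (R : ℝ) :
    ∃ c : ℝ≥0∞, 0 < c ∧ ∀ D : Set C(unitInterval, ℝ), MeasurableSet D →
      D ⊆ Metric.closedBall 0 R → c * ν {f | f + h ∈ D} ≤ ν D := by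
  have key : ∀ h ∈ RampSpan, ∀ s R : ℝ, ∃ c : ℝ≥0∞, 0 < c ∧
      ∀ D : Set C(unitInterval, ℝ), MeasurableSet D →
        D ⊆ Metric.closedBall 0 R → c * ν {f | f + s • h ∈ D} ≤ ν D := by
    intro h hh
    refine Submodule.span_induction (p := fun (h : C(unitInterval, ℝ)) _ => ∀ s R : ℝ,
      ∃ c : ℝ≥0∞, 0 < c ∧ ∀ D : Set C(unitInterval, ℝ), MeasurableSet D →
        D ⊆ Metric.closedBall 0 R → c * ν {f | f + s • h ∈ D} ≤ ν D) ?_ ?_ ?_ ?_ hh
    · rintro h ⟨a, b, hab, rfl⟩ s R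
      exact hν.cm_ramp hab s R
    · intro s R
      refine ⟨1, one_pos, fun D _ _ => ?_⟩
      simp
    · intro x y _ _ hx hy s R
      obtain ⟨c₁, hc₁, h₁⟩ := hx s R
      obtain ⟨c₂, hc₂, h₂⟩ := hy s (R + ‖s • x‖)
      refine ⟨c₁ * c₂, ENNReal.mul_pos hc₁.ne' hc₂.ne', fun D hD hDR => ?_⟩
      have hm : MeasurableSet {f : C(unitInterval, ℝ) | f + s • x ∈ D} :=
        (continuous_id.add continuous_const).measurable hD
      have hb : {f : C(unitInterval, ℝ) | f + s • x ∈ D} ⊆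
          Metric.closedBall 0 (R + ‖s • x‖) := by
        intro f hf
        have h3 := hDR hf
        rw [mem_closedBall_zero_iff] at h3 ⊢
        calc ‖f‖ = ‖(f + s • x) - s • x‖ := by rw [add_sub_cancel_right]
          _ ≤ ‖f + s • x‖ + ‖s • x‖ := norm_sub_le _ _
          _ ≤ R + ‖s • x‖ := by gcongr
      have he : {f : C(unitInterval, ℝ) | f + s • (x + y) ∈ D} =
          {f | f + s • y ∈ {f : C(unitInterval, ℝ) | f + s • x ∈ D}} := by
        ext f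
        simp only [Set.mem_ofPred_eq]
        rw [smul_add, add_assoc, add_comm (s • y)]
      rw [he, mul_assoc]
      calc c₁ * (c₂ * ν {f | f + s • y ∈ {f : C(unitInterval, ℝ) | f + s • x ∈ D}})
          ≤ c₁ * ν {f : C(unitInterval, ℝ) | f + s • x ∈ D} := by
            gcongr
            exact h₂ _ hm hb
        _ ≤ ν D := h₁ D hD hDR
    · intro r x _ hx s R
      obtain ⟨c, hc, h1⟩ := hx (s * r) R
      refine ⟨c, hc, fun D hD hDR => ?_⟩
      have h2 := h1 D hD hDR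
      rwa [mul_smul] at h2
  obtain ⟨c, hc, h1⟩ := key h hh 1 R
  refine ⟨c, hc, fun D hD hDR => ?_⟩
  have h2 := h1 D hD hDR
  rwa [one_smul] at h2

private theorem cm_snd {ν₁ ν₂ : Measure C(unitInterval, ℝ)} (hν₁ : IsWiener ν₁)
    (hν₂ : IsWiener ν₂) {h₂ : C(unitInterval, ℝ)} (hh₂ : h₂ ∈ RampSpan) (R : ℝ) :
    ∃ c : ℝ≥0∞, 0 < c ∧ ∀ D : Set (C(unitInterval, ℝ) × C(unitInterval, ℝ)),
      MeasurableSet D → D ⊆ Metric.closedBall 0 R →
        c * (ν₁.prod ν₂) {p | p + (0, h₂) ∈ D} ≤ (ν₁.prod ν₂) D := by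
  have := hν₁.isProbabilityMeasure
  have := hν₂.isProbabilityMeasure
  obtain ⟨c, hc, h⟩ := hν₂.cm_span hh₂ R
  refine ⟨c, hc, fun D hD hDR => ?_⟩
  have hcont : Continuous fun p : C(unitInterval, ℝ) × C(unitInterval, ℝ) =>
      p + ((0 : C(unitInterval, ℝ)), h₂) := continuous_id.add continuous_const
  have hm : MeasurableSet {p : C(unitInterval, ℝ) × C(unitInterval, ℝ) |
      p + ((0 : C(unitInterval, ℝ)), h₂) ∈ D} := hcont.measurable hD
  rw [Measure.prod_apply hm, Measure.prod_apply hD,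
    ← lintegral_const_mul _ (measurable_measure_prodMk_left hm)]
  refine lintegral_mono fun x => ?_
  have h1 := h (Prod.mk x ⁻¹' D) (measurable_prodMk_left hD) (by
    intro y hy
    have h2 := hDR hy
    rw [mem_closedBall_zero_iff] at h2 ⊢
    exact (norm_snd_le (x, y)).trans h2)
  refine le_trans (le_of_eq ?_) h1
  congr 2
  ext y
  simp

private theorem cm_fst {ν₁ ν₂ : Measure C(unitInterval, ℝ)} (hν₁ : IsWiener ν₁)
    (hν₂ : IsWiener ν₂) {h₁ : C(unitInterval, ℝ)} (hh₁ : h₁ ∈ RampSpan) (R : ℝ) :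
    ∃ c : ℝ≥0∞, 0 < c ∧ ∀ D : Set (C(unitInterval, ℝ) × C(unitInterval, ℝ)),
      MeasurableSet D → D ⊆ Metric.closedBall 0 R →
        c * (ν₁.prod ν₂) {p | p + (h₁, 0) ∈ D} ≤ (ν₁.prod ν₂) D := by
  have := hν₁.isProbabilityMeasure
  have := hν₂.isProbabilityMeasure
  obtain ⟨c, hc, h⟩ := hν₁.cm_span hh₁ R
  refine ⟨c, hc, fun D hD hDR => ?_⟩
  have hcont : Continuous fun p : C(unitInterval, ℝ) × C(unitInterval, ℝ) =>
      p + (h₁, (0 : C(unitInterval, ℝ))) := continuous_id.add continuous_const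
  have hm : MeasurableSet {p : C(unitInterval, ℝ) × C(unitInterval, ℝ) |
      p + (h₁, (0 : C(unitInterval, ℝ))) ∈ D} := hcont.measurable hD
  rw [Measure.prod_apply_symm hm, Measure.prod_apply_symm hD,
    ← lintegral_const_mul _ (measurable_measure_prodMk_right hm)]
  refine lintegral_mono fun y => ?_
  have h1 := h ((fun x => (x, y)) ⁻¹' D) (measurable_prodMk_right hD) (by
    intro x hx
    have h2 := hDR hx
    rw [mem_closedBall_zero_iff] at h2 ⊢
    exact (norm_fst_le (x, y)).trans h2)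
  refine le_trans (le_of_eq ?_) h1
  congr 2
  ext x
  simp

theorem cm_pair {ν₁ ν₂ : Measure C(unitInterval, ℝ)} (hν₁ : IsWiener ν₁) (hν₂ : IsWiener ν₂)
    {h₁ h₂ : C(unitInterval, ℝ)} (hh₁ : h₁ ∈ RampSpan) (hh₂ : h₂ ∈ RampSpan) (R : ℝ) :
    ∃ c : ℝ≥0∞, 0 < c ∧ ∀ D : Set (C(unitInterval, ℝ) × C(unitInterval, ℝ)),
      MeasurableSet D → D ⊆ Metric.closedBall 0 R →
        c * (ν₁.prod ν₂) {p | p + (h₁, h₂) ∈ D} ≤ (ν₁.prod ν₂) D := by
  obtain ⟨c₁, hc₁, k₁⟩ := cm_fst hν₁ hν₂ hh₁ R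
  obtain ⟨c₂, hc₂, k₂⟩ := cm_snd hν₁ hν₂ hh₂ (R + ‖h₁‖)
  refine ⟨c₁ * c₂, ENNReal.mul_pos hc₁.ne' hc₂.ne', fun D hD hDR => ?_⟩
  have hcont : Continuous fun p : C(unitInterval, ℝ) × C(unitInterval, ℝ) =>
      p + (h₁, (0 : C(unitInterval, ℝ))) := continuous_id.add continuous_const
  have hm : MeasurableSet {p : C(unitInterval, ℝ) × C(unitInterval, ℝ) |
      p + (h₁, (0 : C(unitInterval, ℝ))) ∈ D} := hcont.measurable hD
  have hb : {p : C(unitInterval, ℝ) × C(unitInterval, ℝ) |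
      p + (h₁, (0 : C(unitInterval, ℝ))) ∈ D} ⊆ Metric.closedBall 0 (R + ‖h₁‖) := by
    intro p hp
    have h3 := hDR hp
    rw [mem_closedBall_zero_iff] at h3 ⊢
    have h4 : ‖(h₁, (0 : C(unitInterval, ℝ)))‖ = ‖h₁‖ := by
      rw [Prod.norm_def, norm_zero]
      exact max_eq_left (norm_nonneg _)
    calc ‖p‖ = ‖(p + (h₁, (0 : C(unitInterval, ℝ)))) - (h₁, (0 : C(unitInterval, ℝ)))‖ := by
          rw [add_sub_cancel_right]
      _ ≤ ‖p + (h₁, (0 : C(unitInterval, ℝ)))‖ + ‖(h₁, (0 : C(unitInterval, ℝ)))‖ :=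
          norm_sub_le _ _
      _ ≤ R + ‖h₁‖ := by
          rw [h4]
          gcongr
  have he : {p : C(unitInterval, ℝ) × C(unitInterval, ℝ) | p + (h₁, h₂) ∈ D} =
      {p | p + (0, h₂) ∈ {p : C(unitInterval, ℝ) × C(unitInterval, ℝ) |
        p + (h₁, (0 : C(unitInterval, ℝ))) ∈ D}} := by
    ext p
    have h5 : p + (h₁, h₂) = p + (0, h₂) + (h₁, 0) := by
      ext t <;> simp [add_assoc]
    simp only [Set.mem_ofPred_eq, h5]
  rw [he, mul_assoc]
  calc c₁ * (c₂ * (ν₁.prod ν₂) {p | p + (0, h₂) ∈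
        {p : C(unitInterval, ℝ) × C(unitInterval, ℝ) |
          p + (h₁, (0 : C(unitInterval, ℝ))) ∈ D}})
      ≤ c₁ * (ν₁.prod ν₂) {p : C(unitInterval, ℝ) × C(unitInterval, ℝ) |
          p + (h₁, (0 : C(unitInterval, ℝ))) ∈ D} := by
        gcongr
        exact k₂ _ hm hb
    _ ≤ (ν₁.prod ν₂) D := k₁ D hD hDR

private theorem continuous_mixA (ρ : ℝ) : Continuous (mix ρ) := by
  refine ContinuousMap.continuous_of_continuous_uncurry _ ?_
  have h1 : Continuous fun x : (C(unitInterval, ℝ) × C(unitInterval, ℝ)) × unitInterval =>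
      x.1.1 x.2 := by fun_prop
  have h2 : Continuous fun x : (C(unitInterval, ℝ) × C(unitInterval, ℝ)) × unitInterval =>
      x.1.2 x.2 := by fun_prop
  exact h1.prodMk ((continuous_const.mul h1).add (continuous_const.mul h2))

theorem cm_plane {ν₁ ν₂ : Measure C(unitInterval, ℝ)} (hν₁ : IsWiener ν₁) (hν₂ : IsWiener ν₂)
    {ρ : ℝ} (hρ : |ρ| < 1) {ψ : C(unitInterval, ℝ × ℝ)} (h₁ : fstC ψ ∈ RampSpan)
    (h₂ : sndC ψ ∈ RampSpan) (R : ℝ) :
    ∃ c : ℝ≥0∞, 0 < c ∧ ∀ D : Set C(unitInterval, ℝ × ℝ), MeasurableSet D →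
      D ⊆ Metric.closedBall 0 R →
        c * ((ν₁.prod ν₂).map (mix ρ)) {w | w + ψ ∈ D} ≤ ((ν₁.prod ν₂).map (mix ρ)) D := by
  have hκ : 0 < √(1 - ρ ^ 2) := by
    refine Real.sqrt_pos.2 ?_
    have h3 : ρ ^ 2 < 1 := by
      rw [← sq_abs]
      have h4 := abs_nonneg ρ
      nlinarith
    linarith
  obtain ⟨κ, hκe⟩ : ∃ κ, κ = √(1 - ρ ^ 2) := ⟨_, rfl⟩
  rw [← hκe] at hκ
  have hg : κ⁻¹ • (sndC ψ - ρ • fstC ψ) ∈ RampSpan :=
    RampSpan.smul_mem _ (RampSpan.sub_mem h₂ (RampSpan.smul_mem _ h₁))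
  obtain ⟨c, hc, h⟩ := cm_pair hν₁ hν₂ h₁ hg (|R| + 2 * |R| / κ)
  refine ⟨c, hc, fun D hD hDR => ?_⟩
  have hmix : Measurable (mix ρ) := (continuous_mixA ρ).measurable
  have hcont : Continuous fun w : C(unitInterval, ℝ × ℝ) => w + ψ :=
    continuous_id.add continuous_const
  have hm : MeasurableSet {w : C(unitInterval, ℝ × ℝ) | w + ψ ∈ D} := hcont.measurable hD
  rw [Measure.map_apply hmix hm, Measure.map_apply hmix hD]
  have he : mix ρ ⁻¹' {w : C(unitInterval, ℝ × ℝ) | w + ψ ∈ D} =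
      {p | p + (fstC ψ, κ⁻¹ • (sndC ψ - ρ • fstC ψ)) ∈ mix ρ ⁻¹' D} := by
    ext p
    simp only [Set.mem_preimage, Set.mem_ofPred_eq]
    have h5 : mix ρ p + ψ = mix ρ (p + (fstC ψ, κ⁻¹ • (sndC ψ - ρ • fstC ψ))) := by
      ext t
      · simp [mix, fstC]
      · simp only [mix, fstC, sndC, ContinuousMap.add_apply, ContinuousMap.coe_mk,
          Prod.snd_add, Prod.fst_add, ContinuousMap.coe_smul, ContinuousMap.coe_sub,
          Pi.smul_apply, Pi.sub_apply, smul_eq_mul]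
        rw [← hκe]
        field_simp
        ring
    rw [h5]
  rw [he]
  refine h _ (hmix hD) ?_
  intro p hp
  have h6 := hDR hp
  rw [mem_closedBall_zero_iff] at h6 ⊢
  have h7 : ∀ t, ‖mix ρ p t‖ ≤ |R| := fun t =>
    ((mix ρ p).norm_coe_le_norm t).trans (h6.trans (le_abs_self R))
  have h8 : ∀ t, |p.1 t| ≤ |R| := fun t => (norm_fst_le (mix ρ p t)).trans (h7 t)
  have h9 : ∀ t, |ρ * p.1 t + κ * p.2 t| ≤ |R| := fun t => by
    have := (norm_snd_le (mix ρ p t)).trans (h7 t)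
    rw [hκe]
    exact this
  have hR : 0 ≤ 2 * |R| / κ := by positivity
  have h10 : ∀ t, |p.2 t| ≤ 2 * |R| / κ := fun t => by
    rw [le_div_iff₀ hκ]
    have e1 : |p.2 t| * κ = |(ρ * p.1 t + κ * p.2 t) - ρ * p.1 t| := by
      rw [add_sub_cancel_left, abs_mul, abs_of_pos hκ, mul_comm]
    rw [e1]
    have e2 : |ρ * p.1 t| ≤ |R| := by
      rw [abs_mul]
      have e3 := h8 t
      have e4 := abs_nonneg (p.1 t)
      have e5 := abs_nonneg ρ
      nlinarith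
    have e6 := abs_sub (ρ * p.1 t + κ * p.2 t) (ρ * p.1 t)
    linarith [h9 t]
  rw [Prod.norm_def]
  refine max_le ?_ ?_
  · rw [ContinuousMap.norm_le _ (by positivity)]
    intro t
    have := h8 t
    rw [Real.norm_eq_abs]
    linarith
  · rw [ContinuousMap.norm_le _ (by positivity)]
    intro t
    have := h10 t
    rw [Real.norm_eq_abs]
    linarith [abs_nonneg R]

end MDW
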