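import Pool.Agent.MDW.Defs

/-!
# MDW/Cnt: counting arcs, minima of the heights, and the heights after the half turn

`height σ k = #{x | x < k ≤ σ x}`, `cnt σ i j = #{x | x < i, j ≤ σ x}` (real numbers).

PROOFS. `cnt_le_height`: inclusion of the filtered sets (`Finset.card_le_card`).
`exists_height_eq_cnt`: let `A = {x | x < i, i ≤ σ x, σ x < j}`. If `A = ∅` take `l = i`: an arc
`x < i ≤ σ x` has `σ x ≥ j`. Otherwise let `x₀ ∈ A` with `σ x₀` maximal and `l = σ x₀ + 1`, so
`i < l ≤ j`. The sets `{x | x < l ≤ σ x}` and `{x | x < i, j ≤ σ x}` are equal: `⊇` is clear. For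
`⊆` let `x < l ≤ σ x`. If `x < i`: `σ x < j` would give `x ∈ A` with `σ x ≥ l > σ x₀`, against
maximality. If `i ≤ x`: `x ≤ σ x₀` and `x ≠ σ x₀` (otherwise `σ x = x₀ < i ≤ x < l`, against
`l ≤ σ x`), so `x₀ < x < σ x₀ < σ x`: a crossing, impossible.
`cnt_end`: no `x` has `σ x ≥ m`. `height_rotP`: put `r = rot n`, `σ' = rotP n σ`. The bijection
`r` maps `{x | x < k ≤ σ' x}` onto `{y | n ≤ y < n + k, ¬(n ≤ σ y < n + k)}` (`k ≤ n`), which is
the disjoint union of `U = {y | n ≤ y < n+k, σ y < n}` and `V = {y | n ≤ y < n+k, n+k ≤ σ y}`.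
The involution `σ` maps `U` bijectively onto `{x | x < n, n ≤ σ x < n+k}`, so
`height σ n = #U + cnt σ n (n+k)`; and `{x | x < n+k ≤ σ x}` is the disjoint union of `V` and
`{x | x < n, n+k ≤ σ x}`, so `height σ (n+k) = #V + cnt σ n (n+k)`. Add up.
`cnt_rotP`: `r` maps `{x | x < k, n ≤ σ' x}` onto `{y | n ≤ y < n+k, σ y < n} = U`. The equality
of
cardinals: `Finset.card_bij`, `Finset.card_nbij'`, `Finset.card_map`; disjoint unions:
`Finset.card_union_of_disjoint`, `Finset.filter_card_add_filter_neg_card_eq_card` or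
`Finset.card_filter` sums.
-/

open MeasureTheory ProbabilityTheory Filter Topology

namespace MDW

theorem cnt_le_height {m : ℕ} (σ : Equiv.Perm (Fin m)) {i l j : ℕ} (hil : i ≤ l)
    (hlj : l ≤ j) : cnt σ i j ≤ height σ l := by
  unfold cnt height
  rw [Nat.cast_le]
  refine Finset.card_le_card fun x hx => ?_
  rw [Finset.mem_filter] at hx ⊢
  exact ⟨hx.1, lt_of_lt_of_le hx.2.1 hil, hlj.trans hx.2.2⟩

theorem exists_height_eq_cnt {m : ℕ} {σ : Equiv.Perm (Fin m)} (h : IsArch σ) {i j : ℕ}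
    (hij : i ≤ j) : ∃ l, i ≤ l ∧ l ≤ j ∧ height σ l = cnt σ i j := by
  obtain ⟨h1, h2, h3⟩ := h
  by_cases hA : ∃ x : Fin m, x.val < i ∧ i ≤ (σ x).val ∧ (σ x).val < j
  · obtain ⟨x₀, hx₀, hmax⟩ := (Set.toFinite {x : Fin m | x.val < i ∧ i ≤ (σ x).val ∧
      (σ x).val < j}).exists_maximalFor (fun x => (σ x).val) _ hA
    obtain ⟨a1, a2, a3⟩ := hx₀
    refine ⟨(σ x₀).val + 1, by omega, by omega, ?_⟩
    unfold cnt height
    rw [Nat.cast_inj]
    congr 1
    ext x
    rw [Finset.mem_filter, Finset.mem_filter]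
    constructor
    · rintro ⟨-, b1, b2⟩
      refine ⟨Finset.mem_univ x, ?_, ?_⟩
      · by_contra hx
        have c1 : x ≠ σ x₀ := by
          intro hc
          rw [hc, h1] at b2
          omega
        have c2 : x.val ≠ (σ x₀).val := fun hc => c1 (Fin.ext hc)
        refine h3 x₀ x ?_ ?_ ?_
        · rw [Fin.lt_def]
          omega
        · rw [Fin.lt_def]
          omega
        · rw [Fin.lt_def]
          omega
      · by_contra hx
        by_cases hxi : x.val < i
        · have c1 : x ∈ {x : Fin m | x.val < i ∧ i ≤ (σ x).val ∧ (σ x).val < j} :=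
            ⟨hxi, by omega, by omega⟩
          have c2 : (σ x).val ≤ (σ x₀).val :=
            hmax c1 (show (σ x₀).val ≤ (σ x).val by omega)
          omega
        · have c1 : x ≠ σ x₀ := by
            intro hc
            rw [hc, h1] at b2
            omega
          have c2 : x.val ≠ (σ x₀).val := fun hc => c1 (Fin.ext hc)
          refine h3 x₀ x ?_ ?_ ?_
          · rw [Fin.lt_def]
            omega
          · rw [Fin.lt_def]
            omega
          · rw [Fin.lt_def]
            omega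
    · rintro ⟨-, b1, b2⟩
      exact ⟨Finset.mem_univ x, by omega, by omega⟩
  · refine ⟨i, le_rfl, hij, ?_⟩
    unfold cnt height
    rw [Nat.cast_inj]
    congr 1
    ext x
    rw [Finset.mem_filter, Finset.mem_filter]
    constructor
    · rintro ⟨-, b1, b2⟩
      refine ⟨Finset.mem_univ x, b1, ?_⟩
      by_contra hx
      exact hA ⟨x, b1, b2, by omega⟩
    · rintro ⟨-, b1, b2⟩
      exact ⟨Finset.mem_univ x, b1, by omega⟩

theorem cnt_end {m : ℕ} (σ : Equiv.Perm (Fin m)) {i j : ℕ} (hj : m ≤ j) : cnt σ i j = 0 := by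
  unfold cnt
  rw [Nat.cast_eq_zero, Finset.card_eq_zero, Finset.filter_eq_empty_iff]
  intro x _ hx
  have := (σ x).2
  omega

theorem height_nonneg {m : ℕ} (σ : Equiv.Perm (Fin m)) (k : ℕ) : 0 ≤ height σ k :=
  Nat.cast_nonneg _

private theorem nsplit {m : ℕ} (p a b : Fin m → Prop) [DecidablePred p] [DecidablePred a]
    [DecidablePred b] (h : ∀ x, p x ↔ a x ∨ b x) (hd : ∀ x, ¬ (a x ∧ b x)) :
    (Finset.univ.filter p).card = (Finset.univ.filter a).card + (Finset.univ.filter b).card := by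
  rw [← Finset.card_union_of_disjoint, ← Finset.filter_or]
  · congr 1
    ext x
    rw [Finset.mem_filter, Finset.mem_filter, h x]
  · rw [Finset.disjoint_filter]
    exact fun x _ ha hb => hd x ⟨ha, hb⟩

private theorem nperm {m : ℕ} (e : Equiv.Perm (Fin m)) (p q : Fin m → Prop) [DecidablePred p]
    [DecidablePred q] (h : ∀ x, p x ↔ q (e x)) :
    (Finset.univ.filter p).card = (Finset.univ.filter q).card := by
  refine Finset.card_bij (fun x _ => e x) ?_ ?_ ?_
  · intro x hx
    rw [Finset.mem_filter] at hx ⊢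
    exact ⟨Finset.mem_univ _, (h x).1 hx.2⟩
  · intro x _ y _ hxy
    exact e.injective hxy
  · intro y hy
    rw [Finset.mem_filter] at hy
    refine ⟨e.symm y, ?_, e.apply_symm_apply y⟩
    rw [Finset.mem_filter]
    refine ⟨Finset.mem_univ _, (h _).2 ?_⟩
    rw [e.apply_symm_apply]
    exact hy.2

private theorem rot_val {n : ℕ} (y : Fin (2 * n)) :
    (y.val < n ∧ (rot n y).val = y.val + n) ∨ (n ≤ y.val ∧ (rot n y).val = y.val - n) := by
  by_cases h : y.val < n
  · left
    refine ⟨h, ?_⟩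
    change (if h : y.val < n then (⟨y.val + n, by omega⟩ : Fin (2 * n)) else
      ⟨y.val - n, by omega⟩).val = _
    rw [dif_pos h]
  · right
    refine ⟨not_lt.1 h, ?_⟩
    change (if h : y.val < n then (⟨y.val + n, by omega⟩ : Fin (2 * n)) else
      ⟨y.val - n, by omega⟩).val = _
    rw [dif_neg h]

private theorem rot_rot {n : ℕ} (y : Fin (2 * n)) : rot n (rot n y) = y := by
  apply Fin.ext
  have h1 := y.2
  rcases rot_val y with ⟨a, b⟩ | ⟨a, b⟩ <;> rcases rot_val (rot n y) with ⟨c, d⟩ | ⟨c, d⟩ <;>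
    omega

/-- The heights in terms of the two sets of the proof. -/
private theorem parts {n : ℕ} {σ : Equiv.Perm (Fin (2 * n))} (h : IsArch σ) {k : ℕ} :
    (Finset.univ.filter fun i : Fin (2 * n) => i.val < n ∧ n ≤ (σ i).val).card =
      (Finset.univ.filter fun y : Fin (2 * n) => (n ≤ y.val ∧ y.val < n + k) ∧
        (σ y).val < n).card +
      (Finset.univ.filter fun x : Fin (2 * n) => x.val < n ∧ n + k ≤ (σ x).val).card := by
  rw [nsplit (fun i : Fin (2 * n) => i.val < n ∧ n ≤ (σ i).val)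
    (fun i : Fin (2 * n) => i.val < n ∧ n ≤ (σ i).val ∧ (σ i).val < n + k)
    (fun x : Fin (2 * n) => x.val < n ∧ n + k ≤ (σ x).val) (fun x => by omega)
    (fun x => by omega)]
  rw [nperm σ (fun i : Fin (2 * n) => i.val < n ∧ n ≤ (σ i).val ∧ (σ i).val < n + k)
    (fun y : Fin (2 * n) => (n ≤ y.val ∧ y.val < n + k) ∧ (σ y).val < n) (fun x => by
      rw [h.1 x]
      omega)]

theorem height_rotP {n : ℕ} {σ : Equiv.Perm (Fin (2 * n))} (h : IsArch σ) {k : ℕ}
    (hk : k ≤ n) :
    height (rotP n σ) k = height σ n + height σ (n + k) - 2 * cnt σ n (n + k) := by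
  have e1 : (Finset.univ.filter fun i : Fin (2 * n) => i.val < k ∧
      k ≤ (rotP n σ i).val).card =
      (Finset.univ.filter fun y : Fin (2 * n) => (n ≤ y.val ∧ y.val < n + k) ∧
        ¬ (n ≤ (σ y).val ∧ (σ y).val < n + k)).card := by
    refine nperm (rot n) _ _ fun x => ?_
    have a1 := rot_val x
    have a2 := rot_val (σ (rot n x))
    have a3 : (rotP n σ x).val = (rot n (σ (rot n x))).val := rfl
    have a4 := (σ (rot n x)).2
    rw [a3]
    omega
  have e2 := nsplit (fun y : Fin (2 * n) => (n ≤ y.val ∧ y.val < n + k) ∧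
        ¬ (n ≤ (σ y).val ∧ (σ y).val < n + k))
    (fun y : Fin (2 * n) => (n ≤ y.val ∧ y.val < n + k) ∧ (σ y).val < n)
    (fun y : Fin (2 * n) => (n ≤ y.val ∧ y.val < n + k) ∧ n + k ≤ (σ y).val)
    (fun x => by omega) (fun x => by omega)
  have e3 := parts h (k := k)
  have e4 := nsplit (fun y : Fin (2 * n) => y.val < n + k ∧ n + k ≤ (σ y).val)
    (fun y : Fin (2 * n) => (n ≤ y.val ∧ y.val < n + k) ∧ n + k ≤ (σ y).val)
    (fun x : Fin (2 * n) => x.val < n ∧ n + k ≤ (σ x).val)
    (fun x => by omega) (fun x => by omega)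
  unfold height cnt
  rw [e1, e2, e3, e4]
  push_cast
  ring

theorem cnt_rotP {n : ℕ} {σ : Equiv.Perm (Fin (2 * n))} (h : IsArch σ) {k : ℕ}
    (hk : k ≤ n) : cnt (rotP n σ) k n = height σ n - cnt σ n (n + k) := by
  have e1 : (Finset.univ.filter fun i : Fin (2 * n) => i.val < k ∧
      n ≤ (rotP n σ i).val).card =
      (Finset.univ.filter fun y : Fin (2 * n) => (n ≤ y.val ∧ y.val < n + k) ∧
        (σ y).val < n).card := by
    refine nperm (rot n) _ _ fun x => ?_
    have a1 := rot_val x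
    have a2 := rot_val (σ (rot n x))
    have a3 : (rotP n σ x).val = (rot n (σ (rot n x))).val := rfl
    have a4 := (σ (rot n x)).2
    rw [a3]
    omega
  have e3 := parts h (k := k)
  unfold height cnt
  rw [e1, e3]
  push_cast
  ring

end MDW
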