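import Pool.Agent.MDW.Stat

/-!
# MDW: auxiliary definitions for the proof
-/

open MeasureTheory ProbabilityTheory Filter Topology
open scoped NNReal BoundedContinuousFunction

noncomputable section

namespace MDW

/-! ## Auxiliary definitions -/

/-- Truncation to `[-1,1]`. -/
def cl (x : ℝ) : ℝ := max (-1) (min 1 x)

/-- Continuous cutoff: `0` for `x ≤ 1`, `1` for `x ≥ 2`. -/
def ph (x : ℝ) : ℝ := max 0 (min 1 (x - 1))

/-- Deviation of the middle value from the mean of its neighbours. -/
def sd (a : ℕ → ℝ) (j : ℕ) : ℝ := a (j + 1) - (a j + a (j + 2)) / 2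

/-- Grid point `k / (2 N)` of `[0,1]`. -/
def tg (N k : ℕ) : unitInterval := Set.projIcc 0 1 zero_le_one ((k : ℝ) / (2 * N))

/-- First coordinate path. -/
def fstC (w : C(unitInterval, ℝ × ℝ)) : C(unitInterval, ℝ) :=
  ⟨fun t => (w t).1, by fun_prop⟩

/-- Second coordinate path. -/
def sndC (w : C(unitInterval, ℝ × ℝ)) : C(unitInterval, ℝ) :=
  ⟨fun t => (w t).2, by fun_prop⟩

/-- Minimum of `f` on `[s,t]`. -/
def mn (f : C(unitInterval, ℝ)) (s t : unitInterval) : ℝ := sInf (f '' Set.Icc s t)

/-- Value of the coordinate path at a grid point. -/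
def gv (N : ℕ) (f : C(unitInterval, ℝ)) (k : ℕ) : ℝ := f (tg N k)

/-- Minimum of the coordinate path between two grid points. -/
def gm (N : ℕ) (f : C(unitInterval, ℝ)) (i j : ℕ) : ℝ := mn f (tg N i) (tg N j)

/-- Algebraic form of the first test functional. -/
def PA (ρ : ℝ) (X Y J M : ℕ → ℝ) (N j : ℕ) : ℝ :=
  cl (sd (fun k => Y k - ρ * X k) j) * cl (sd J j) *
    (ph (Y j - M (j + 2)) * ph (Y (j + 2) - M (j + 2)) * ph (X j) * ph (X (j + 2)) *
      ph (X N + X j - 2 * J j) * ph (X N + X (j + 2) - 2 * J (j + 2)))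

/-- Algebraic form of the second test functional (the first one after the half turn). -/
def PB (ρ : ℝ) (X Y I K : ℕ → ℝ) (N j : ℕ) : ℝ :=
  cl (sd (fun k => Y (N + k) - ρ * X (N + k)) j - 2 * sd K j + 2 * ρ * sd I j) *
    cl (-sd I j) *
    (ph (Y (N + j) - 2 * K j + K (j + 2)) * ph (Y (N + j + 2) - K (j + 2)) *
      ph (X N + X (N + j) - 2 * I j) * ph (X N + X (N + j + 2) - 2 * I (j + 2)) *
      ph (X (N + j)) * ph (X (N + j + 2)))

/-- The lower bound functional. -/
def PU (X Y I K : ℕ → ℝ) (N j : ℕ) : ℝ :=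
  min ((sd I j) ^ 2) 1 *
    (ph (Y (N + j) - K j) * ph (Y (N + j + 2) - K j) *
      ph (X N + X (N + j) - 2 * I j) * ph (X N + X (N + j + 2) - 2 * I (j + 2)) *
      ph (X (N + j)) * ph (X (N + j + 2)))

/-- First test functional on paths. -/
def PsiA (ρ : ℝ) (N j : ℕ) (w : C(unitInterval, ℝ × ℝ)) : ℝ :=
  PA ρ (gv N (fstC w)) (gv N (sndC w)) (fun k => gm N (fstC w) k N)
    (fun k => gm N (sndC w) k N) N j

/-- Second test functional on paths. -/
def PsiB (ρ : ℝ) (N j : ℕ) (w : C(unitInterval, ℝ × ℝ)) : ℝ :=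
  PB ρ (gv N (fstC w)) (gv N (sndC w)) (fun k => gm N (fstC w) N (N + k))
    (fun k => gm N (sndC w) N (N + k)) N j

/-- Lower bound functional on paths. -/
def Ups (N j : ℕ) (w : C(unitInterval, ℝ × ℝ)) : ℝ :=
  PU (gv N (fstC w)) (gv N (sndC w)) (fun k => gm N (fstC w) N (N + k))
    (fun k => gm N (sndC w) N (N + k)) N j

/-- The half turn `i ↦ i + n mod 2 n` of the points. -/
def rot (n : ℕ) : Equiv.Perm (Fin (2 * n)) where
  toFun i := if h : i.val < n then ⟨i.val + n, by omega⟩ else ⟨i.val - n, by omega⟩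
  invFun i := if h : i.val < n then ⟨i.val + n, by omega⟩ else ⟨i.val - n, by omega⟩
  left_inv i := by
    by_cases h : i.val < n
    · simp [h]
    · have := i.2
      have h2 : i.val - n < n := by omega
      simp only [h, dite_false, h2, dite_true]
      ext
      simp only
      omega
  right_inv i := by
    by_cases h : i.val < n
    · simp [h]
    · have := i.2
      have h2 : i.val - n < n := by omega
      simp only [h, dite_false, h2, dite_true]
      ext
      simp only
      omega

/-- The matching after the half turn. -/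
def rotP (n : ℕ) (σ : Equiv.Perm (Fin (2 * n))) : Equiv.Perm (Fin (2 * n)) :=
  (rot n).trans (σ.trans (rot n))

/-- The pair of matchings after the half turn. -/
def rotM (n : ℕ) (M : Equiv.Perm (Fin (2 * n)) × Equiv.Perm (Fin (2 * n))) :
    Equiv.Perm (Fin (2 * n)) × Equiv.Perm (Fin (2 * n)) := (rotP n M.1, rotP n M.2)

/-- Number of arcs with one endpoint among the first `i` points and the other one not among the
first `j` points. -/
def cnt {m : ℕ} (σ : Equiv.Perm (Fin m)) (i j : ℕ) : ℝ :=
  ((Finset.univ.filter fun x : Fin m => x.val < i ∧ j ≤ (σ x).val).card : ℝ)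

/-- The path `t ↦ a * (interpolated height of σ at 2 n t)`. -/
def pathOf (a : ℝ) (n : ℕ) (σ : Equiv.Perm (Fin (2 * n))) : C(unitInterval, ℝ) where
  toFun t := a * linInt (2 * n) (height σ) (2 * n * t)
  continuous_toFun := by unfold linInt; fun_prop

/-- Increasing ramp from `0` (before `a`) to `1` (after `b`). -/
def rp (a b : ℝ) (t : unitInterval) : ℝ := max 0 (min 1 (((t : ℝ) - a) / (b - a)))

/-- The ramp as a continuous path. -/
def rpC (a b : ℝ) : C(unitInterval, ℝ) := ⟨rp a b, by unfold rp; fun_prop⟩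

/-- Replace `f` on the window `[a,b]` by the affine interpolation of its boundary values. -/
def outW (a b : unitInterval) (f : C(unitInterval, ℝ)) : C(unitInterval, ℝ) where
  toFun t := f (min t a) + (f (max t b) - f b) + (f b - f a) * rp a b t
  continuous_toFun := by unfold rp; fun_prop

/-- The bridge part of `f` on the window `[a,b]`. -/
def brW (a b : unitInterval) (f : C(unitInterval, ℝ)) : C(unitInterval, ℝ) := f - outW a b f

/-- The planar path `(f, ρ f + √(1-ρ²) g)`. -/
def mix (ρ : ℝ) (p : C(unitInterval, ℝ) × C(unitInterval, ℝ)) : C(unitInterval, ℝ × ℝ) where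
  toFun t := (p.1 t, ρ * p.1 t + √(1 - ρ ^ 2) * p.2 t)
  continuous_toFun := by fun_prop

/-- Wiener measure on `C([0,1],ℝ)`. -/
structure IsWiener (ν : Measure C(unitInterval, ℝ)) : Prop where
  /-- the coordinate process is Gaussian -/
  gauss : IsGaussianProcess (fun (t : unitInterval) (f : C(unitInterval, ℝ)) => f t) ν
  /-- it is centered -/
  mean : ∀ t : unitInterval, ∫ f, f t ∂ν = 0
  /-- it has the covariance `min s t` -/
  cov : ∀ s t : unitInterval, s ≤ t → cov[fun f => f s, fun f => f t; ν] = (s : ℝ)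

end MDW
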