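import Pool.Agent.MDW.Minm

/-!
# MDW/Func: the test functionals are continuous and bounded by one

PROOFS. `fstC`, `sndC` are continuous maps `C(unitInterval, ℝ × ℝ) → C(unitInterval, ℝ)`: they
are `ContinuousMap.comp ⟨Prod.fst, _⟩` and `ContinuousMap.comp ⟨Prod.snd, _⟩`
(`ContinuousMap.continuous_postcomp`); they agree with the definitions by `ext; rfl`. Evaluation
at a point is continuous (`ContinuousMap.continuous_eval_const`). So `w ↦ gv N (fstC w) k` and
`w ↦ gm N (fstC w) i j` (by `continuous_mn`) are continuous, and `PsiA`, `PsiB`, `Ups` are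
compositions of continuous real functions (`cl`, `ph`, `sd`, `min`, `max`, powers): unfold
everything and use `fun_prop` or `Continuous.mul`, `Continuous.add`, ….
Bounds: `|cl x| ≤ 1`, `0 ≤ ph x ≤ 1`, `0 ≤ min (x^2) 1 ≤ 1`; products of numbers of absolute
value at most one (`abs_mul`, `mul_le_one₀`).
-/

open MeasureTheory ProbabilityTheory Filter Topology

namespace MDW

theorem abs_cl_le (x : ℝ) : |cl x| ≤ 1 :=
  abs_le.2 ⟨le_max_left _ _, max_le (by norm_num) (min_le_left _ _)⟩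

theorem ph_nonneg (x : ℝ) : 0 ≤ ph x := le_max_left _ _

theorem ph_le_one (x : ℝ) : ph x ≤ 1 := max_le zero_le_one (min_le_left _ _)

/-- A nonzero cutoff forces the argument to be larger than one. -/
theorem one_lt_of_ph_ne_zero {x : ℝ} (h : ph x ≠ 0) : 1 < x := by
  by_contra h1
  apply h
  unfold ph
  exact max_eq_left ((min_le_right _ _).trans (by linarith))

theorem ph_eq_one {x : ℝ} (h : 2 ≤ x) : ph x = 1 := by
  unfold ph
  rw [min_eq_left (by linarith), max_eq_right zero_le_one]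

theorem cl_neg (x : ℝ) : cl (-x) = -cl x := by
  unfold cl
  simp only [max_def, min_def]
  split_ifs <;> linarith

theorem continuous_fstC : Continuous fstC :=
  ContinuousMap.continuous_postcomp (X := unitInterval)
    (⟨Prod.fst, continuous_fst⟩ : C(ℝ × ℝ, ℝ))

theorem continuous_sndC : Continuous sndC :=
  ContinuousMap.continuous_postcomp (X := unitInterval)
    (⟨Prod.snd, continuous_snd⟩ : C(ℝ × ℝ, ℝ))

private theorem c_gv1 (N k : ℕ) :
    Continuous fun w : C(unitInterval, ℝ × ℝ) => gv N (fstC w) k :=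
  (continuous_eval_const (tg N k)).comp continuous_fstC

private theorem c_gv2 (N k : ℕ) :
    Continuous fun w : C(unitInterval, ℝ × ℝ) => gv N (sndC w) k :=
  (continuous_eval_const (tg N k)).comp continuous_sndC

private theorem c_gm1 (N i j : ℕ) :
    Continuous fun w : C(unitInterval, ℝ × ℝ) => gm N (fstC w) i j :=
  (continuous_mn (tg N i) (tg N j)).comp continuous_fstC

private theorem c_gm2 (N i j : ℕ) :
    Continuous fun w : C(unitInterval, ℝ × ℝ) => gm N (sndC w) i j :=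
  (continuous_mn (tg N i) (tg N j)).comp continuous_sndC

private theorem c_PA {T : Type*} [TopologicalSpace T] (ρ : ℝ) {X Y J M : T → ℕ → ℝ}
    (hX : ∀ k, Continuous fun w => X w k) (hY : ∀ k, Continuous fun w => Y w k)
    (hJ : ∀ k, Continuous fun w => J w k) (hM : ∀ k, Continuous fun w => M w k) (N j : ℕ) :
    Continuous fun w => PA ρ (X w) (Y w) (J w) (M w) N j := by
  unfold PA sd cl ph
  fun_prop

private theorem c_PB {T : Type*} [TopologicalSpace T] (ρ : ℝ) {X Y J M : T → ℕ → ℝ}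
    (hX : ∀ k, Continuous fun w => X w k) (hY : ∀ k, Continuous fun w => Y w k)
    (hJ : ∀ k, Continuous fun w => J w k) (hM : ∀ k, Continuous fun w => M w k) (N j : ℕ) :
    Continuous fun w => PB ρ (X w) (Y w) (J w) (M w) N j := by
  unfold PB sd cl ph
  fun_prop

private theorem c_PU {T : Type*} [TopologicalSpace T] {X Y J M : T → ℕ → ℝ}
    (hX : ∀ k, Continuous fun w => X w k) (hY : ∀ k, Continuous fun w => Y w k)
    (hJ : ∀ k, Continuous fun w => J w k) (hM : ∀ k, Continuous fun w => M w k) (N j : ℕ) :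
    Continuous fun w => PU (X w) (Y w) (J w) (M w) N j := by
  unfold PU sd ph
  fun_prop

theorem continuous_PsiA (ρ : ℝ) (N j : ℕ) : Continuous (PsiA ρ N j) :=
  c_PA ρ (c_gv1 N) (c_gv2 N) (fun k => c_gm1 N k N) (fun k => c_gm2 N k N) N j

theorem continuous_PsiB (ρ : ℝ) (N j : ℕ) : Continuous (PsiB ρ N j) :=
  c_PB ρ (c_gv1 N) (c_gv2 N) (fun k => c_gm1 N N (N + k)) (fun k => c_gm2 N N (N + k)) N j

theorem continuous_Ups (N j : ℕ) : Continuous (Ups N j) :=
  c_PU (c_gv1 N) (c_gv2 N) (fun k => c_gm1 N N (N + k)) (fun k => c_gm2 N N (N + k)) N j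

private theorem abs_ph_le (x : ℝ) : |ph x| ≤ 1 := by
  rw [abs_of_nonneg (ph_nonneg x)]
  exact ph_le_one x

private theorem abs_mul_le {x y : ℝ} (hx : |x| ≤ 1) (hy : |y| ≤ 1) : |x * y| ≤ 1 := by
  rw [abs_mul]
  exact mul_le_one₀ hx (abs_nonneg y) hy

private theorem mul01 {x y : ℝ} (hx : 0 ≤ x ∧ x ≤ 1) (hy : 0 ≤ y ∧ y ≤ 1) :
    0 ≤ x * y ∧ x * y ≤ 1 :=
  ⟨mul_nonneg hx.1 hy.1, mul_le_one₀ hx.2 hy.1 hy.2⟩

private theorem ph01 (x : ℝ) : 0 ≤ ph x ∧ ph x ≤ 1 := ⟨ph_nonneg x, ph_le_one x⟩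

private theorem PU01 (X Y I K : ℕ → ℝ) (N j : ℕ) : 0 ≤ PU X Y I K N j ∧ PU X Y I K N j ≤ 1 := by
  unfold PU
  exact mul01 ⟨le_min (sq_nonneg _) zero_le_one, min_le_right _ _⟩
    (mul01 (mul01 (mul01 (mul01 (mul01 (ph01 _) (ph01 _)) (ph01 _)) (ph01 _)) (ph01 _)) (ph01 _))

theorem abs_PsiA_le (ρ : ℝ) (N j : ℕ) (w : C(unitInterval, ℝ × ℝ)) : |PsiA ρ N j w| ≤ 1 := by
  unfold PsiA PA
  exact abs_mul_le (abs_mul_le (abs_cl_le _) (abs_cl_le _))
    (abs_mul_le (abs_mul_le (abs_mul_le (abs_mul_le (abs_mul_le (abs_ph_le _) (abs_ph_le _))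
      (abs_ph_le _)) (abs_ph_le _)) (abs_ph_le _)) (abs_ph_le _))

theorem abs_PsiB_le (ρ : ℝ) (N j : ℕ) (w : C(unitInterval, ℝ × ℝ)) : |PsiB ρ N j w| ≤ 1 := by
  unfold PsiB PB
  exact abs_mul_le (abs_mul_le (abs_cl_le _) (abs_cl_le _))
    (abs_mul_le (abs_mul_le (abs_mul_le (abs_mul_le (abs_mul_le (abs_ph_le _) (abs_ph_le _))
      (abs_ph_le _)) (abs_ph_le _)) (abs_ph_le _)) (abs_ph_le _))

theorem Ups_nonneg (N j : ℕ) (w : C(unitInterval, ℝ × ℝ)) : 0 ≤ Ups N j w :=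
  (PU01 _ _ _ _ N j).1

theorem Ups_le_one (N j : ℕ) (w : C(unitInterval, ℝ × ℝ)) : Ups N j w ≤ 1 :=
  (PU01 _ _ _ _ N j).2

end MDW
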