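import Pool.Agent.MDW.Defs

/-!
# MDW/Grid: grid points

Basic facts about the grid points `tg N k` (value `k/(2N)` for `k ≤ 2N`, `0 < N`).

PROOFS. `tg N k = Set.projIcc 0 1 _ (k/(2N))`; for `k ≤ 2N` the number `k/(2N)` lies in `[0,1]`,
so `Set.projIcc_of_mem` gives the value. Monotonicity, strict monotonicity, midpoint and length
are arithmetic with `div_lt_div_iff_of_pos_right` etc. (`field_simp`, `nlinarith`); compare
subtypes through `Subtype.ext_iff`, `Subtype.coe_le_coe`, `Subtype.coe_lt_coe`.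
-/

open MeasureTheory ProbabilityTheory Filter Topology

namespace MDW

theorem tg_val {N k : ℕ} (hN : 0 < N) (hk : k ≤ 2 * N) :
    ((tg N k : unitInterval) : ℝ) = (k : ℝ) / (2 * N) := by
  have hN' : (0 : ℝ) < 2 * N := by positivity
  have hk' : (k : ℝ) ≤ 2 * N := by exact_mod_cast hk
  have hm : (k : ℝ) / (2 * N) ∈ Set.Icc (0 : ℝ) 1 :=
    ⟨by positivity, by rw [div_le_one hN']; exact hk'⟩
  unfold tg
  rw [Set.projIcc_of_mem zero_le_one hm]

theorem tg_zero (N : ℕ) : tg N 0 = 0 := by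
  unfold tg
  rw [Nat.cast_zero, zero_div, Set.projIcc_left]
  rfl

theorem tg_last {N : ℕ} (hN : 0 < N) : tg N (2 * N) = 1 := by
  apply Subtype.ext
  rw [tg_val hN le_rfl]
  have hN' : (N : ℝ) ≠ 0 := by positivity
  push_cast
  rw [div_self (by positivity)]

theorem tg_half {N : ℕ} (hN : 0 < N) : ((tg N N : unitInterval) : ℝ) = 1 / 2 := by
  rw [tg_val hN (by omega)]
  have hN' : (N : ℝ) ≠ 0 := by positivity
  field_simp

theorem tg_le {N i j : ℕ} (hN : 0 < N) (hij : i ≤ j) : tg N i ≤ tg N j := by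
  unfold tg
  apply Set.monotone_projIcc
  have hN' : (0 : ℝ) < 2 * N := by positivity
  rw [div_le_div_iff_of_pos_right hN']
  exact_mod_cast hij

theorem tg_lt {N i j : ℕ} (hN : 0 < N) (hij : i < j) (hj : j ≤ 2 * N) : tg N i < tg N j := by
  rw [← Subtype.coe_lt_coe, tg_val hN (by omega), tg_val hN hj]
  have hN' : (0 : ℝ) < 2 * N := by positivity
  rw [div_lt_div_iff_of_pos_right hN']
  exact_mod_cast hij

theorem tg_len {N k : ℕ} (hN : 0 < N) (hk : k + 2 ≤ 2 * N) :
    ((tg N (k + 2) : unitInterval) : ℝ) - (tg N k : ℝ) = 1 / N := by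
  rw [tg_val hN hk, tg_val hN (by omega)]
  have hN' : (N : ℝ) ≠ 0 := by positivity
  push_cast
  field_simp
  ring

theorem tg_mid {N k : ℕ} (hN : 0 < N) (hk : k + 2 ≤ 2 * N) :
    ((tg N (k + 1) : unitInterval) : ℝ) = ((tg N k : ℝ) + (tg N (k + 2) : ℝ)) / 2 := by
  rw [tg_val hN hk, tg_val hN (by omega), tg_val hN (by omega)]
  push_cast
  ring

end MDW
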