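import Pool.Agent.MDW.Defs

/-!
# MDW/Minm: the minimum of a continuous path on an interval

`mn f s t = sInf (f '' Set.Icc s t)`.

PROOFS. For `s ≤ t` the set `Set.Icc s t` of `unitInterval` is nonempty and compact, so the
image is nonempty and compact and the infimum is attained (`IsCompact.sInf_mem`,
`IsCompact.exists_isMinOn`); it is bounded below (`IsCompact.bddBelow`). `mn_le`: `csInf_le`.
`le_mn`: `le_csInf`. `mn_congr`: `Set.image_congr`. `mn_dist`: for `u` with `mn g s t = g u` one
has `mn f s t ≤ f u ≤ g u + dist f g` (`ContinuousMap.dist_apply_le_dist`), and symmetrically.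
`continuous_mn`: if `s ≤ t` the map is 1-Lipschitz by `mn_dist`
(`LipschitzWith.of_dist_le_mul` or `Metric.continuous_iff`); if not `s ≤ t` then
`Set.Icc s t = ∅` and the map is constant. `mn_anti`: smaller interval, larger minimum.
`mn_split`: the minimum over `[s,u]` is the minimum of the minima over `[s,t]` and `[t,u]`.
-/

open MeasureTheory ProbabilityTheory Filter Topology

namespace MDW

private theorem mm_compact (f : C(unitInterval, ℝ)) (s t : unitInterval) :
    IsCompact (f '' Set.Icc s t) :=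
  isCompact_Icc.image f.continuous

private theorem mm_bdd (f : C(unitInterval, ℝ)) (s t : unitInterval) :
    BddBelow (f '' Set.Icc s t) :=
  (mm_compact f s t).bddBelow

private theorem mm_nonempty (f : C(unitInterval, ℝ)) {s t : unitInterval} (h : s ≤ t) :
    (f '' Set.Icc s t).Nonempty :=
  ⟨f s, s, ⟨le_refl s, h⟩, rfl⟩

theorem mn_le {f : C(unitInterval, ℝ)} {s t u : unitInterval} (h1 : s ≤ u) (h2 : u ≤ t) :
    mn f s t ≤ f u := by
  unfold mn
  exact csInf_le (mm_bdd f s t) ⟨u, ⟨h1, h2⟩, rfl⟩

theorem exists_mn {f : C(unitInterval, ℝ)} {s t : unitInterval} (h : s ≤ t) :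
    ∃ u, s ≤ u ∧ u ≤ t ∧ mn f s t = f u := by
  obtain ⟨u, ⟨h1, h2⟩, h3⟩ := (mm_compact f s t).sInf_mem (mm_nonempty f h)
  exact ⟨u, h1, h2, h3.symm⟩

theorem le_mn {f : C(unitInterval, ℝ)} {s t : unitInterval} {c : ℝ} (h : s ≤ t)
    (hc : ∀ u, s ≤ u → u ≤ t → c ≤ f u) : c ≤ mn f s t := by
  obtain ⟨u, h1, h2, h3⟩ := exists_mn (f := f) h
  rw [h3]
  exact hc u h1 h2

theorem mn_congr {f g : C(unitInterval, ℝ)} {s t : unitInterval}
    (h : ∀ u, s ≤ u → u ≤ t → f u = g u) : mn f s t = mn g s t := by
  unfold mn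
  congr 1
  exact Set.image_congr (fun u hu => h u hu.1 hu.2)

theorem mn_anti {f : C(unitInterval, ℝ)} {s t s' t' : unitInterval} (h1 : s ≤ s')
    (h2 : s' ≤ t') (h3 : t' ≤ t) : mn f s t ≤ mn f s' t' :=
  le_mn h2 (fun _ hu1 hu2 => mn_le (h1.trans hu1) (hu2.trans h3))

theorem mn_split {f : C(unitInterval, ℝ)} {s t u : unitInterval} (h1 : s ≤ t) (h2 : t ≤ u) :
    mn f s u = min (mn f s t) (mn f t u) := by
  apply le_antisymm
  · exact le_min (mn_anti le_rfl h1 h2) (mn_anti h1 h2 le_rfl)
  · apply le_mn (h1.trans h2)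
    intro v hv1 hv2
    rcases le_total v t with h | h
    · exact (min_le_left _ _).trans (mn_le hv1 h)
    · exact (min_le_right _ _).trans (mn_le h hv2)

private theorem mm_dist_aux {f g : C(unitInterval, ℝ)} {s t : unitInterval} (h : s ≤ t) :
    mn f s t - mn g s t ≤ dist f g := by
  obtain ⟨u, h1, h2, h3⟩ := exists_mn (f := g) h
  have h4 : mn f s t ≤ f u := mn_le h1 h2
  have h5 : dist (f u) (g u) ≤ dist f g := ContinuousMap.dist_apply_le_dist u
  have h6 : f u - g u ≤ dist (f u) (g u) := by
    rw [Real.dist_eq]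
    exact le_abs_self _
  rw [h3]
  linarith

theorem mn_dist {f g : C(unitInterval, ℝ)} {s t : unitInterval} (h : s ≤ t) :
    |mn f s t - mn g s t| ≤ dist f g := by
  rw [abs_le]
  constructor
  · have h1 := mm_dist_aux (f := g) (g := f) h
    rw [dist_comm] at h1
    linarith
  · exact mm_dist_aux h

theorem continuous_mn (s t : unitInterval) :
    Continuous (fun f : C(unitInterval, ℝ) => mn f s t) := by
  by_cases h : s ≤ t
  · have h1 : LipschitzWith 1 (fun f : C(unitInterval, ℝ) => mn f s t) := by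
      apply LipschitzWith.of_dist_le_mul
      intro f g
      rw [Real.dist_eq]
      simpa using mn_dist (f := f) (g := g) h
    exact h1.continuous
  · have h1 : (fun f : C(unitInterval, ℝ) => mn f s t) = fun _ => sInf (∅ : Set ℝ) := by
      funext f
      unfold mn
      rw [Set.Icc_eq_empty h, Set.image_empty]
    rw [h1]
    exact continuous_const

end MDW
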