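import Pool.Agent.MDW.VDet
import Pool.Agent.MDW.Func
import Pool.Agent.MDW.Grid
import Pool.Agent.MDW.Minm

/-!
# MDW/DetA: the first functional is odd under the flip, and its support

Window `a = tg N j`, `b = tg N (j+2)`, `j + 2 ≤ N`.
PROOF of `PsiA_flp`. Let `v = vp f g`, `v' = vp f (flp g)`. First coordinates agree everywhere
(`vp_flp_fst`), so `fstC v' = fstC v` (`ContinuousMap.ext`) and all `X` and `J` terms agree. The
second coordinates agree outside the open window (`vp_flp_out`): so `Y j`, `Y (j+2)` agree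
(`tg N j = a`, `tg N (j+2) = b`), and `gm N (sndC ·) (j+2) N = mn · (tg N (j+2)) (tg N N)` agree
by
`mn_congr` (all points of the interval are `≥ b`). The argument of the first factor is
`sd (Y - ρ X) j = κ * brW a b g.2 (tg N (j+1))` by `vp_mid` (the midpoint: `tg_mid`), which
changes
its sign under `flp` (`brW_neg`); `cl_neg`. So `PsiA v' = - PsiA v`: unfold `PsiA`, `PA`, `sd`,
`gv`,
`gm`.
PROOF of `PsiA_big`. Let `w ∈ QuadEnd E` and `PsiA ρ N j w ≠ 0`. All factors are nonzero, so by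
`one_lt_of_ph_ne_zero`: `X j > 1`, `X (j+2) > 1`, `Y j > 1 + M (j+2)`, `Y (j+2) > 1 + M (j+2)`,
where
`M (j+2) = mn (sndC w) _ _ ≥ 0` by `le_mn` (the interval `[tg (j+2), tg N]` is nonempty, the path
is in
the quadrant).
-/

open MeasureTheory ProbabilityTheory Filter Topology

namespace MDW

theorem PsiA_flp {ρ : ℝ} {z : ℝ × ℝ} {N j : ℕ} (hN : 0 < N) (hj : j + 2 ≤ N)
    (f g : C(unitInterval, ℝ) × C(unitInterval, ℝ)) :
    PsiA ρ N j (vp ρ z (tg N j) (tg N (j + 2)) f (flp g)) =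
      -PsiA ρ N j (vp ρ z (tg N j) (tg N (j + 2)) f g) := by
  have hab : tg N j < tg N (j + 2) := tg_lt hN (by omega) (by omega)
  have hmid := tg_mid (N := N) (k := j) hN (by omega)
  have ef : fstC (vp ρ z (tg N j) (tg N (j + 2)) f (flp g)) =
      fstC (vp ρ z (tg N j) (tg N (j + 2)) f g) :=
    ContinuousMap.ext fun t => vp_flp_fst t
  have ea : gv N (sndC (vp ρ z (tg N j) (tg N (j + 2)) f (flp g))) j =
      gv N (sndC (vp ρ z (tg N j) (tg N (j + 2)) f g)) j :=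
    congrArg Prod.snd (vp_flp_out hab (Or.inl le_rfl))
  have eb : gv N (sndC (vp ρ z (tg N j) (tg N (j + 2)) f (flp g))) (j + 2) =
      gv N (sndC (vp ρ z (tg N j) (tg N (j + 2)) f g)) (j + 2) :=
    congrArg Prod.snd (vp_flp_out hab (Or.inr le_rfl))
  have ek : gm N (sndC (vp ρ z (tg N j) (tg N (j + 2)) f (flp g))) (j + 2) N =
      gm N (sndC (vp ρ z (tg N j) (tg N (j + 2)) f g)) (j + 2) N :=
    mn_congr fun t ht _ => congrArg Prod.snd (vp_flp_out hab (Or.inr ht))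
  have d1 : sd (fun k => gv N (sndC (vp ρ z (tg N j) (tg N (j + 2)) f g)) k -
      ρ * gv N (fstC (vp ρ z (tg N j) (tg N (j + 2)) f g)) k) j =
      √(1 - ρ ^ 2) * brW (tg N j) (tg N (j + 2)) g.2 (tg N (j + 1)) :=
    vp_mid (ρ := ρ) (z := z) (f := f) (g := g) hab hmid
  have d2 : sd (fun k => gv N (sndC (vp ρ z (tg N j) (tg N (j + 2)) f (flp g))) k -
      ρ * gv N (fstC (vp ρ z (tg N j) (tg N (j + 2)) f g)) k) j =
      -(√(1 - ρ ^ 2) * brW (tg N j) (tg N (j + 2)) g.2 (tg N (j + 1))) := by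
    rw [← ef]
    have h := vp_mid (ρ := ρ) (z := z) (f := f) (g := flp g) hab hmid
    have h2 : brW (tg N j) (tg N (j + 2)) (flp g).2 (tg N (j + 1)) =
        -brW (tg N j) (tg N (j + 2)) g.2 (tg N (j + 1)) := by
      change brW (tg N j) (tg N (j + 2)) (-g.2) (tg N (j + 1)) = _
      rw [brW_neg]
      rfl
    rw [h2, mul_neg] at h
    exact h
  unfold PsiA PA
  beta_reduce
  rw [ef, ea, eb, ek, d1, d2, cl_neg]
  ring

theorem PsiA_big {ρ : ℝ} {N j : ℕ} (hN : 0 < N) (hj : j + 2 ≤ N) {E : Set (ℝ × ℝ)}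
    {w : C(unitInterval, ℝ × ℝ)} (hw : w ∈ QuadEnd E) (h : PsiA ρ N j w ≠ 0) :
    Big (w (tg N j)) ∧ Big (w (tg N (j + 2))) := by
  unfold PsiA PA at h
  obtain ⟨_, h⟩ := mul_ne_zero_iff.1 h
  obtain ⟨h, _⟩ := mul_ne_zero_iff.1 h
  obtain ⟨h, _⟩ := mul_ne_zero_iff.1 h
  obtain ⟨h, h4⟩ := mul_ne_zero_iff.1 h
  obtain ⟨h, h3⟩ := mul_ne_zero_iff.1 h
  obtain ⟨h1, h2⟩ := mul_ne_zero_iff.1 h
  have hm : 0 ≤ gm N (sndC w) (j + 2) N := le_mn (tg_le hN hj) fun u _ _ => (hw.1 u).2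
  have k1 : 1 < (w (tg N j)).2 - gm N (sndC w) (j + 2) N := one_lt_of_ph_ne_zero h1
  have k2 : 1 < (w (tg N (j + 2))).2 - gm N (sndC w) (j + 2) N := one_lt_of_ph_ne_zero h2
  have k3 : 1 < (w (tg N j)).1 := one_lt_of_ph_ne_zero h3
  have k4 : 1 < (w (tg N (j + 2))).1 := one_lt_of_ph_ne_zero h4
  exact ⟨⟨k3.le, by linarith⟩, ⟨k4.le, by linarith⟩⟩

end MDW
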