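import Pool.Agent.MDW.VDet
import Pool.Agent.MDW.Func
import Pool.Agent.MDW.Grid
import Pool.Agent.MDW.Minm

/-!
# MDW/DetB: the second functional on a window of the second half

Window `a = tg N (N+j)`, `b = tg N (N+j+2)`, `j + 2 ≤ N`. For a path `w` write `X k`, `Y k` for
the
values at the grid points, `I k = gm N (fstC w) N (N+k)`, `K k = gm N (sndC w) N (N+k)`.

(1) `PsiB_big`, `Ups_big`: supports. Let `w ∈ QuadEnd E`. If `PsiB ρ N j w ≠ 0` then
`X (N+j) > 1`, `X (N+j+2) > 1`, `Y (N+j) > 1 + 2 K j - K (j+2) ≥ 1 + K j ≥ 1` (because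
`K (j+2) ≤ K j`, `mn_anti`, and `K ≥ 0` in the quadrant, `le_mn`) and `Y (N+j+2) > 1 + K (j+2) ≥
1`.
If `Ups N j w ≠ 0`: `X (N+j) > 1`, `X (N+j+2) > 1`, `Y (N+j) > 1 + K j`, `Y (N+j+2) > 1 + K j`.

(2) `PsiB_eq`: suppose that `H`: `min (w a).2 (w b).2 - 1/2 < (w t).2` for `a ≤ t ≤ b`. Then
`PsiB ρ N j w = cl (dV + 2 ρ dI) * cl (-dI) * (ph (Y(N+j) - K j) * ph (Y(N+j+2) - K j) *
(four X factors))` with `dV = sd (fun k => Y (N+k) - ρ X (N+k)) j`, `dI = sd I j`. PROOF. By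
`mn_split`, `K (j+2) = min (K j) m` and `K (j+1) = min (K j) m'`, where `m`, `m'` are the minima
of the
second coordinate over `[a,b]` and `[a, tg (N+j+1)]`, `m ≤ m'` (`mn_anti`). By `H` and
`exists_mn`:
`m > min (Y(N+j)) (Y(N+j+2)) - 1/2`. Case A: `K (j+2) = K j`; then `K (j+1) = K j` too (`mn_anti`
twice), `sd K j = 0` and the two sides are literally equal. Case B: `K (j+2) < K j`; then
`K (j+2) = m`. Both sides are zero: right side: if both `ph (Y(N+j) - K j)` and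
`ph (Y(N+j+2) - K j)` were nonzero, then `m > 1 + K j - 1/2 > K j`, a contradiction. Left side: if
`ph (Y(N+j) - 2 K j + K (j+2)) ≠ 0` and `ph (Y(N+j+2) - K (j+2)) ≠ 0`, then
`Y(N+j) > 1 + 2 K j - K (j+2) > 1 + K j` and `Y(N+j+2) > 1 + K (j+2) = 1 + m`; since
`m > min - 1/2`: either `m > Y(N+j) - 1/2 > K j + 1/2`, against `m = K (j+2) < K j`, or
`m > Y(N+j+2) - 1/2 > m + 1/2`, impossible.
-/

open MeasureTheory ProbabilityTheory Filter Topology

namespace MDW

private theorem dB_anti (f : C(unitInterval, ℝ)) {N i j : ℕ} (hN : 0 < N) (hij : i ≤ j) :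
    gm N f N (N + j) ≤ gm N f N (N + i) :=
  mn_anti le_rfl (tg_le hN (Nat.le_add_right N i)) (tg_le hN (by omega))

private theorem dB_nonneg {w : C(unitInterval, ℝ × ℝ)} {E : Set (ℝ × ℝ)} (hw : w ∈ QuadEnd E)
    {N : ℕ} (hN : 0 < N) (i : ℕ) : 0 ≤ gm N (sndC w) N (N + i) :=
  le_mn (tg_le hN (Nat.le_add_right N i)) (fun u _ _ => (hw.1 u).2)

theorem PsiB_big {ρ : ℝ} {N j : ℕ} (hN : 0 < N) (hj : j + 2 ≤ N) {E : Set (ℝ × ℝ)}
    {w : C(unitInterval, ℝ × ℝ)} (hw : w ∈ QuadEnd E) (h : PsiB ρ N j w ≠ 0) :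
    Big (w (tg N (N + j))) ∧ Big (w (tg N (N + j + 2))) := by
  unfold PsiB PB at h
  simp only [mul_ne_zero_iff] at h
  obtain ⟨_, ⟨⟨⟨⟨h1, h2⟩, _⟩, _⟩, h3⟩, h4⟩ := h
  have k1 := one_lt_of_ph_ne_zero h1
  have k2 := one_lt_of_ph_ne_zero h2
  have k3 := one_lt_of_ph_ne_zero h3
  have k4 := one_lt_of_ph_ne_zero h4
  have a1 := dB_anti (sndC w) hN (show j ≤ j + 2 by omega)
  have a2 := dB_nonneg hw hN j
  have a3 := dB_nonneg hw hN (j + 2)
  have e1 : gv N (sndC w) (N + j) = (w (tg N (N + j))).2 := rfl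
  have e2 : gv N (sndC w) (N + j + 2) = (w (tg N (N + j + 2))).2 := rfl
  have e3 : gv N (fstC w) (N + j) = (w (tg N (N + j))).1 := rfl
  have e4 : gv N (fstC w) (N + j + 2) = (w (tg N (N + j + 2))).1 := rfl
  rw [e1] at k1
  rw [e2] at k2
  rw [e3] at k3
  rw [e4] at k4
  refine ⟨⟨k3.le, by linarith⟩, k4.le, by linarith⟩

theorem Ups_big {N j : ℕ} (hN : 0 < N) (hj : j + 2 ≤ N) {E : Set (ℝ × ℝ)}
    {w : C(unitInterval, ℝ × ℝ)} (hw : w ∈ QuadEnd E) (h : Ups N j w ≠ 0) :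
    Big (w (tg N (N + j))) ∧ Big (w (tg N (N + j + 2))) := by
  unfold Ups PU at h
  simp only [mul_ne_zero_iff] at h
  obtain ⟨_, ⟨⟨⟨⟨h1, h2⟩, _⟩, _⟩, h3⟩, h4⟩ := h
  have k1 := one_lt_of_ph_ne_zero h1
  have k2 := one_lt_of_ph_ne_zero h2
  have k3 := one_lt_of_ph_ne_zero h3
  have k4 := one_lt_of_ph_ne_zero h4
  have a2 := dB_nonneg hw hN j
  have e1 : gv N (sndC w) (N + j) = (w (tg N (N + j))).2 := rfl
  have e2 : gv N (sndC w) (N + j + 2) = (w (tg N (N + j + 2))).2 := rfl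
  have e3 : gv N (fstC w) (N + j) = (w (tg N (N + j))).1 := rfl
  have e4 : gv N (fstC w) (N + j + 2) = (w (tg N (N + j + 2))).1 := rfl
  rw [e1] at k1
  rw [e2] at k2
  rw [e3] at k3
  rw [e4] at k4
  refine ⟨⟨k3.le, by linarith⟩, k4.le, by linarith⟩

private theorem dB_split (f : C(unitInterval, ℝ)) {N i j : ℕ} (hN : 0 < N) (hij : i ≤ j) :
    gm N f N (N + j) = min (gm N f N (N + i)) (gm N f (N + i) (N + j)) :=
  mn_split (tg_le hN (Nat.le_add_right N i)) (tg_le hN (by omega))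

theorem PsiB_eq {ρ : ℝ} {N j : ℕ} (hN : 0 < N) (hj : j + 2 ≤ N)
    {w : C(unitInterval, ℝ × ℝ)}
    (H : ∀ t, tg N (N + j) ≤ t → t ≤ tg N (N + j + 2) →
      min (w (tg N (N + j))).2 (w (tg N (N + j + 2))).2 - 1 / 2 < (w t).2) :
    PsiB ρ N j w =
      cl (sd (fun k => gv N (sndC w) (N + k) - ρ * gv N (fstC w) (N + k)) j +
          2 * ρ * sd (fun k => gm N (fstC w) N (N + k)) j) *
        cl (-sd (fun k => gm N (fstC w) N (N + k)) j) *
        (ph (gv N (sndC w) (N + j) - gm N (sndC w) N (N + j)) *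
          ph (gv N (sndC w) (N + j + 2) - gm N (sndC w) N (N + j)) *
          ph (gv N (fstC w) N + gv N (fstC w) (N + j) - 2 * gm N (fstC w) N (N + j)) *
          ph (gv N (fstC w) N + gv N (fstC w) (N + j + 2) -
            2 * gm N (fstC w) N (N + (j + 2))) *
          ph (gv N (fstC w) (N + j)) * ph (gv N (fstC w) (N + j + 2))) := by
  have a1 := dB_anti (sndC w) hN (show j ≤ j + 1 by omega)
  have a2 := dB_anti (sndC w) hN (show j + 1 ≤ j + 2 by omega)
  have e1 : gv N (sndC w) (N + j) = (w (tg N (N + j))).2 := rfl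
  have e2 : gv N (sndC w) (N + j + 2) = (w (tg N (N + j + 2))).2 := rfl
  rcases eq_or_lt_of_le (a2.trans a1) with hA | hB
  · have hA1 : gm N (sndC w) N (N + (j + 1)) = gm N (sndC w) N (N + j) :=
      le_antisymm a1 (hA ▸ a2)
    have hs : sd (fun k => gm N (sndC w) N (N + k)) j = 0 := by
      unfold sd
      simp only
      rw [hA, hA1]
      ring
    unfold PsiB PB
    rw [hs]
    simp only
    rw [hA]
    have e5 : gv N (sndC w) (N + j) - 2 * gm N (sndC w) N (N + j) + gm N (sndC w) N (N + j) =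
        gv N (sndC w) (N + j) - gm N (sndC w) N (N + j) := by ring
    rw [e5, mul_zero, sub_zero]
  · have hsp := dB_split (sndC w) hN (show j ≤ j + 2 by omega)
    have hm : gm N (sndC w) N (N + (j + 2)) = gm N (sndC w) (N + j) (N + (j + 2)) := by
      rcases min_choice (gm N (sndC w) N (N + j)) (gm N (sndC w) (N + j) (N + (j + 2))) with
        hc | hc
      · rw [hc] at hsp
        rw [hsp] at hB
        exact absurd hB (lt_irrefl _)
      · rw [hsp, hc]
    obtain ⟨u, u1, u2, u3⟩ := exists_mn (f := sndC w) (s := tg N (N + j))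
      (t := tg N (N + (j + 2))) (tg_le hN (by omega))
    have hgu : gm N (sndC w) N (N + (j + 2)) = (w u).2 := by
      rw [hm]
      exact u3
    have hH := H u u1 u2
    rw [← hgu] at hH
    rw [← e1, ← e2] at hH
    have hmin := min_lt_iff.mp (lt_of_sub_pos (by linarith :
      0 < gm N (sndC w) N (N + (j + 2)) + 1 / 2 -
        min (gv N (sndC w) (N + j)) (gv N (sndC w) (N + j + 2))))
    have hL : PsiB ρ N j w = 0 := by
      by_contra h
      unfold PsiB PB at h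
      simp only [← ne_eq, mul_ne_zero_iff] at h
      obtain ⟨_, ⟨⟨⟨⟨h1, h2⟩, _⟩, _⟩, _⟩, _⟩ := h
      have k1 := one_lt_of_ph_ne_zero h1
      have k2 := one_lt_of_ph_ne_zero h2
      rcases hmin with h3 | h3
      · linarith
      · linarith
    rw [hL]
    symm
    by_contra h
    simp only [← ne_eq, mul_ne_zero_iff] at h
    obtain ⟨_, ⟨⟨⟨⟨h1, h2⟩, _⟩, _⟩, _⟩, _⟩ := h
    have k1 := one_lt_of_ph_ne_zero h1
    have k2 := one_lt_of_ph_ne_zero h2
    rcases hmin with h3 | h3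
    · linarith
    · linarith

end MDW
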