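import Pool.Agent.MDW.DetB

/-!
# MDW/DetC: the pointwise inequality between the second functional and the lower bound functional

Window `a = tg N (N+j)`, `b = tg N (N+j+2)`, `j + 2 ≤ N`. Notation as in DetB.lean; `(2)` refers
to
`PsiB_eq` of DetB.lean.

(3) `cl_ineq`: for `|d| ≤ 1/2` and `x` real, `s = 1` if `x ≥ 0`, `s = -1` if `x ≤ 0`:
`min |x| 1 ≤ s * (cl (x + d) + cl (x - d))`. PROOF: by symmetry `x ≥ 0`, `d ≥ 0` (replace `d` by
`-d`; `cl_neg`). If `x + d ≤ 1` then both are untruncated (`x - d ≥ -1/2`), the sum is `2x ≥ x`.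
If
`x + d > 1`: the sum is `1 + min 1 (x-d)` and `x - d > 1 - 2 d ≥ 0`, so it is at least `1`.

(4) `UpsB`: let `g ∈ RS a b`, `|ρ| ≤ 1`, `ρ ≠ 0`, `s = 1` if `ρ > 0`, `s = -1` if `ρ < 0`,
`v = vp f g`, `v' = vp f (flp g)`. Both satisfy `H`: by `vp_snd_close`, `up_min_snd`, `vp_eq_up`
at `a`
and `b`; the deviation is `< 1/2` (for `v'` use `RS_flp`). So (2) applies to both. First
coordinates
agree; the second ones agree outside the open window, so `Y(N+j)`, `Y(N+j+2)`, `K j` agree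
(`K j` is the minimum over `[tg N N, a]`). By `vp_mid`, `dV(v) = κ * brW g.2 (mid) =: d`,
`dV(v') = -d`, `|d| ≤ ‖brW g.2‖ < 1/2`. With `χ ≥ 0` the product of the six cutoffs,
`PsiB v + PsiB v' = χ * cl (-dI) * (cl (2ρ dI + d) + cl (2 ρ dI - d))`, and
`-s (…) = χ * cl dI * s (cl (x+d) + cl (x-d))` with `x = 2 ρ dI`. Since `s` times the sign of
`dI` is
the sign of `x`: the right side is `χ * |cl dI| * (sign x) (cl (x+d) + cl (x-d)) ≥
χ * min |dI| 1 * min (2 |ρ| |dI|) 1 ≥ |ρ| χ (min |dI| 1)² = |ρ| χ min (dI²) 1` (as `|ρ| ≤ 1`).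
-/

open MeasureTheory ProbabilityTheory Filter Topology

namespace MDW

private theorem detC_cl_pos {x d : ℝ} (hd : |d| ≤ 1 / 2) (hx : 0 ≤ x) :
    min x 1 ≤ cl (x + d) + cl (x - d) := by
  obtain ⟨h1, h2⟩ := abs_le.1 hd
  have e1 : cl (x + d) = min 1 (x + d) := by
    unfold cl
    apply max_eq_right
    apply le_min <;> linarith
  have e2 : cl (x - d) = min 1 (x - d) := by
    unfold cl
    apply max_eq_right
    apply le_min <;> linarith
  rw [e1, e2]
  have m1 : min x 1 ≤ x := min_le_left _ _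
  have m2 : min x 1 ≤ 1 := min_le_right _ _
  rcases le_total 1 (x + d) with h3 | h3
  · rw [min_eq_left h3]
    rcases le_total 1 (x - d) with h4 | h4
    · rw [min_eq_left h4]; linarith
    · rw [min_eq_right h4]; linarith
  · rw [min_eq_right h3]
    rcases le_total 1 (x - d) with h4 | h4
    · rw [min_eq_left h4]; linarith
    · rw [min_eq_right h4]; linarith

theorem cl_ineq {x d s : ℝ} (hd : |d| ≤ 1 / 2) (hs : (s = 1 ∧ 0 ≤ x) ∨ (s = -1 ∧ x ≤ 0)) :
    min |x| 1 ≤ s * (cl (x + d) + cl (x - d)) := by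
  rcases hs with ⟨rfl, hx⟩ | ⟨rfl, hx⟩
  · rw [abs_of_nonneg hx, one_mul]
    exact detC_cl_pos hd hx
  · rw [abs_of_nonpos hx]
    have h := detC_cl_pos (x := -x) (d := d) hd (by linarith)
    have e1 : cl (-x + d) = -cl (x - d) := by rw [← cl_neg]; congr 1; ring
    have e2 : cl (-x - d) = -cl (x + d) := by rw [← cl_neg]; congr 1; ring
    rw [e1, e2] at h
    linarith

private theorem detC_cl_nonneg {x : ℝ} (hx : 0 ≤ x) : cl x = min x 1 := by
  unfold cl
  rw [min_comm]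
  apply max_eq_right
  apply le_min <;> linarith

private theorem detC_real {ρ s d D : ℝ} (hρ : |ρ| ≤ 1)
    (hs : (s = 1 ∧ 0 < ρ) ∨ (s = -1 ∧ ρ < 0)) (hd : |d| ≤ 1 / 2) :
    |ρ| * min (D ^ 2) 1 ≤ s * cl D * (cl (2 * ρ * D + d) + cl (2 * ρ * D - d)) := by
  have key : min |D| 1 * min |2 * ρ * D| 1 ≤
      s * cl D * (cl (2 * ρ * D + d) + cl (2 * ρ * D - d)) := by
    rcases le_total 0 D with hD | hD
    · have e1 : cl D = min |D| 1 := by rw [detC_cl_nonneg hD, abs_of_nonneg hD]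
      have h2 : min |2 * ρ * D| 1 ≤ s * (cl (2 * ρ * D + d) + cl (2 * ρ * D - d)) := by
        apply cl_ineq hd
        rcases hs with ⟨rfl, h⟩ | ⟨rfl, h⟩
        · exact Or.inl ⟨rfl, by positivity⟩
        · refine Or.inr ⟨rfl, ?_⟩
          nlinarith
      rw [e1]
      have h0 : 0 ≤ min |D| 1 := le_min (abs_nonneg _) zero_le_one
      calc min |D| 1 * min |2 * ρ * D| 1 ≤
          min |D| 1 * (s * (cl (2 * ρ * D + d) + cl (2 * ρ * D - d))) :=
            mul_le_mul_of_nonneg_left h2 h0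
        _ = _ := by ring
    · have e1 : cl D = -min |D| 1 := by
        rw [abs_of_nonpos hD, ← detC_cl_nonneg (by linarith : 0 ≤ -D), cl_neg, neg_neg]
      have h2 : min |2 * ρ * D| 1 ≤ (-s) * (cl (2 * ρ * D + d) + cl (2 * ρ * D - d)) := by
        apply cl_ineq hd
        rcases hs with ⟨rfl, h⟩ | ⟨rfl, h⟩
        · refine Or.inr ⟨rfl, ?_⟩
          nlinarith
        · refine Or.inl ⟨by norm_num, ?_⟩
          nlinarith
      rw [e1]
      have h0 : 0 ≤ min |D| 1 := le_min (abs_nonneg _) zero_le_one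
      calc min |D| 1 * min |2 * ρ * D| 1 ≤
          min |D| 1 * ((-s) * (cl (2 * ρ * D + d) + cl (2 * ρ * D - d))) :=
            mul_le_mul_of_nonneg_left h2 h0
        _ = _ := by ring
  refine le_trans ?_ key
  have hr0 : 0 ≤ |ρ| := abs_nonneg _
  have hD0 : 0 ≤ |D| := abs_nonneg _
  have habs : |2 * ρ * D| = 2 * |ρ| * |D| := by
    rw [abs_mul, abs_mul, abs_of_pos (by norm_num : (0 : ℝ) < 2)]
  rw [habs, ← sq_abs D]
  have h0 : 0 ≤ min |D| 1 := le_min hD0 zero_le_one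
  have h1 : |ρ| * min |D| 1 ≤ min (2 * |ρ| * |D|) 1 := by
    apply le_min
    · have : min |D| 1 ≤ |D| := min_le_left _ _
      nlinarith
    · have : min |D| 1 ≤ 1 := min_le_right _ _
      nlinarith
  have h2 : min (|D| ^ 2) 1 ≤ min |D| 1 * min |D| 1 := by
    rcases le_total |D| 1 with h | h
    · rw [min_eq_left h]
      exact (min_le_left _ _).trans (by rw [sq])
    · rw [min_eq_right h, one_mul]
      exact min_le_right _ _
  calc |ρ| * min (|D| ^ 2) 1 ≤ |ρ| * (min |D| 1 * min |D| 1) :=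
        mul_le_mul_of_nonneg_left h2 hr0
    _ = min |D| 1 * (|ρ| * min |D| 1) := by ring
    _ ≤ _ := mul_le_mul_of_nonneg_left h1 h0

private theorem detC_H {ρ : ℝ} (hρ : |ρ| ≤ 1) {z : ℝ × ℝ} {a b : unitInterval} (hab : a < b)
    (f g : C(unitInterval, ℝ) × C(unitInterval, ℝ)) (hg : g ∈ RS a b) :
    ∀ t, a ≤ t → t ≤ b →
      min (vp ρ z a b f g a).2 (vp ρ z a b f g b).2 - 1 / 2 < (vp ρ z a b f g t).2 := by
  intro t h1 h2
  rw [vp_eq_up hab (Or.inl le_rfl : a ≤ a ∨ b ≤ a), vp_eq_up hab (Or.inr le_rfl : b ≤ a ∨ b ≤ b)]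
  have h3 := up_min_snd (ρ := ρ) (z := z) (f := f) hab h1 h2
  have h4 := (abs_le.1 (vp_snd_close (z := z) (a := a) (b := b) (f := f) (g := g) hρ t)).1
  have h5 : ‖brW a b g.1‖ + ‖brW a b g.2‖ < 1 / 2 := hg
  linarith

theorem UpsB {ρ s : ℝ} (hρ : |ρ| ≤ 1) (hs : (s = 1 ∧ 0 < ρ) ∨ (s = -1 ∧ ρ < 0)) {z : ℝ × ℝ}
    {N j : ℕ} (hN : 0 < N) (hj : j + 2 ≤ N)
    (f g : C(unitInterval, ℝ) × C(unitInterval, ℝ))
    (hg : g ∈ RS (tg N (N + j)) (tg N (N + j + 2))) :
    |ρ| * Ups N j (vp ρ z (tg N (N + j)) (tg N (N + j + 2)) f g) ≤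
      -s * (PsiB ρ N j (vp ρ z (tg N (N + j)) (tg N (N + j + 2)) f g) +
        PsiB ρ N j (vp ρ z (tg N (N + j)) (tg N (N + j + 2)) f (flp g))) := by
  have hab : tg N (N + j) < tg N (N + j + 2) := tg_lt hN (by omega) (by omega)
  have hmid := tg_mid (N := N) (k := N + j) hN (by omega)
  have hg' : flp g ∈ RS (tg N (N + j)) (tg N (N + j + 2)) := (RS_flp _ _ g).2 hg
  rw [PsiB_eq hN hj (detC_H hρ hab f g hg), PsiB_eq hN hj (detC_H hρ hab f (flp g) hg')]
  -- first coordinates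
  have ef : fstC (vp ρ z (tg N (N + j)) (tg N (N + j + 2)) f (flp g)) =
      fstC (vp ρ z (tg N (N + j)) (tg N (N + j + 2)) f g) :=
    ContinuousMap.ext fun t => vp_flp_fst t
  have ea : gv N (sndC (vp ρ z (tg N (N + j)) (tg N (N + j + 2)) f (flp g))) (N + j) =
      gv N (sndC (vp ρ z (tg N (N + j)) (tg N (N + j + 2)) f g)) (N + j) :=
    congrArg Prod.snd (vp_flp_out hab (Or.inl le_rfl))
  have eb : gv N (sndC (vp ρ z (tg N (N + j)) (tg N (N + j + 2)) f (flp g))) (N + j + 2) =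
      gv N (sndC (vp ρ z (tg N (N + j)) (tg N (N + j + 2)) f g)) (N + j + 2) :=
    congrArg Prod.snd (vp_flp_out hab (Or.inr le_rfl))
  have ek : gm N (sndC (vp ρ z (tg N (N + j)) (tg N (N + j + 2)) f (flp g))) N (N + j) =
      gm N (sndC (vp ρ z (tg N (N + j)) (tg N (N + j + 2)) f g)) N (N + j) :=
    mn_congr fun t _ ht => congrArg Prod.snd (vp_flp_out hab (Or.inl ht))
  have d1 : sd (fun k => gv N (sndC (vp ρ z (tg N (N + j)) (tg N (N + j + 2)) f g)) (N + k) -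
      ρ * gv N (fstC (vp ρ z (tg N (N + j)) (tg N (N + j + 2)) f g)) (N + k)) j =
      √(1 - ρ ^ 2) * brW (tg N (N + j)) (tg N (N + j + 2)) g.2 (tg N (N + j + 1)) :=
    vp_mid (ρ := ρ) (z := z) (f := f) (g := g) hab hmid
  have d2 : sd (fun k => gv N (sndC (vp ρ z (tg N (N + j)) (tg N (N + j + 2)) f (flp g))) (N + k) -
      ρ * gv N (fstC (vp ρ z (tg N (N + j)) (tg N (N + j + 2)) f g)) (N + k)) j =
      -(√(1 - ρ ^ 2) * brW (tg N (N + j)) (tg N (N + j + 2)) g.2 (tg N (N + j + 1))) := by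
    rw [← ef]
    have h := vp_mid (ρ := ρ) (z := z) (f := f) (g := flp g) hab hmid
    have h2 : brW (tg N (N + j)) (tg N (N + j + 2)) (flp g).2 (tg N (N + j + 1)) =
        -brW (tg N (N + j)) (tg N (N + j + 2)) g.2 (tg N (N + j + 1)) := by
      change brW (tg N (N + j)) (tg N (N + j + 2)) (-g.2) (tg N (N + j + 1)) = _
      rw [brW_neg]
      rfl
    rw [h2, mul_neg] at h
    exact h
  rw [ef, ea, eb, ek, d1, d2]
  -- the deviation is small
  have hk1 : √(1 - ρ ^ 2) ≤ 1 := by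
    rw [Real.sqrt_le_one]
    nlinarith [sq_nonneg ρ]
  have hk0 : 0 ≤ √(1 - ρ ^ 2) := Real.sqrt_nonneg _
  have hd : |√(1 - ρ ^ 2) * brW (tg N (N + j)) (tg N (N + j + 2)) g.2 (tg N (N + j + 1))| ≤
      1 / 2 := by
    rw [abs_mul, abs_of_nonneg hk0]
    have h1 := ContinuousMap.norm_coe_le_norm
      (brW (tg N (N + j)) (tg N (N + j + 2)) g.2) (tg N (N + j + 1))
    rw [Real.norm_eq_abs] at h1
    have h2 : ‖brW (tg N (N + j)) (tg N (N + j + 2)) g.1‖ +
      ‖brW (tg N (N + j)) (tg N (N + j + 2)) g.2‖ < 1 / 2 := hg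
    have h3 := norm_nonneg (brW (tg N (N + j)) (tg N (N + j + 2)) g.1)
    have h4 : |brW (tg N (N + j)) (tg N (N + j + 2)) g.2 (tg N (N + j + 1))| ≤ 1 / 2 := by linarith
    calc √(1 - ρ ^ 2) * |brW (tg N (N + j)) (tg N (N + j + 2)) g.2 (tg N (N + j + 1))| ≤
        1 * (1 / 2) := mul_le_mul hk1 h4 (abs_nonneg _) zero_le_one
      _ = 1 / 2 := one_mul _
  generalize √(1 - ρ ^ 2) * brW (tg N (N + j)) (tg N (N + j + 2)) g.2 (tg N (N + j + 1)) = d at *
  unfold Ups PU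
  generalize vp ρ z (tg N (N + j)) (tg N (N + j + 2)) f g = v at *
  generalize sd (fun k => gm N (fstC v) N (N + k)) j = D
  have hr := detC_real (D := D) hρ hs hd
  rw [cl_neg D]
  have hχ : 0 ≤ (ph (gv N (sndC v) (N + j) - gm N (sndC v) N (N + j)) *
          ph (gv N (sndC v) (N + j + 2) - gm N (sndC v) N (N + j)) *
          ph (gv N (fstC v) N + gv N (fstC v) (N + j) - 2 * gm N (fstC v) N (N + j)) *
          ph (gv N (fstC v) N + gv N (fstC v) (N + j + 2) -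
            2 * gm N (fstC v) N (N + (j + 2))) *
          ph (gv N (fstC v) (N + j)) * ph (gv N (fstC v) (N + j + 2))) :=
    mul_nonneg (mul_nonneg (mul_nonneg (mul_nonneg (mul_nonneg (ph_nonneg _) (ph_nonneg _))
      (ph_nonneg _)) (ph_nonneg _)) (ph_nonneg _)) (ph_nonneg _)
  generalize (ph (gv N (sndC v) (N + j) - gm N (sndC v) N (N + j)) *
          ph (gv N (sndC v) (N + j + 2) - gm N (sndC v) N (N + j)) *
          ph (gv N (fstC v) N + gv N (fstC v) (N + j) - 2 * gm N (fstC v) N (N + j)) *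
          ph (gv N (fstC v) N + gv N (fstC v) (N + j + 2) -
            2 * gm N (fstC v) N (N + (j + 2))) *
          ph (gv N (fstC v) (N + j)) * ph (gv N (fstC v) (N + j + 2))) = χ at *
  calc |ρ| * (min (D ^ 2) 1 * χ) = (|ρ| * min (D ^ 2) 1) * χ := by ring
    _ ≤ (s * cl D * (cl (2 * ρ * D + d) + cl (2 * ρ * D - d))) * χ :=
        mul_le_mul_of_nonneg_right hr hχ
    _ = _ := by
      rw [show d + 2 * ρ * D = 2 * ρ * D + d by ring, show -d + 2 * ρ * D = 2 * ρ * D - d by ring]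
      ring

end MDW
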