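import Pool.Agent.MDW.Stat

/-!
# MDW/RhoNum: the correlation of the problem is in `(-1, 0)`

`γ = √(17/3 - √145/3)`, `ρ₀ = - cos (π γ²/4)`.
-/

open Real

namespace MDW

private theorem s145 : (12 : ℝ) < √145 ∧ √145 < 12.1 := by
  constructor
  · rw [Real.lt_sqrt (by norm_num)]
    norm_num
  · rw [Real.sqrt_lt' (by norm_num)]
    norm_num

private theorem gam_sq : gam ^ 2 = 17 / 3 - √145 / 3 := by
  unfold gam
  rw [Real.sq_sqrt]
  have := s145
  linarith [this.2]

theorem gam_pos : 0 < gam ∧ gam < 2 := by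
  have h := s145
  constructor
  · unfold gam
    apply Real.sqrt_pos.2
    linarith [h.2]
  · unfold gam
    rw [Real.sqrt_lt' (by norm_num)]
    linarith [h.1]

theorem gam_eq : 25 - 6 * (2 / gam + gam / 2) ^ 2 = -4 := by
  have h0 : gam ≠ 0 := gam_pos.1.ne'
  have h1 : gam ^ 2 = 17 / 3 - √145 / 3 := gam_sq
  have h2 : (√145 : ℝ) ^ 2 = 145 := Real.sq_sqrt (by norm_num)
  have h3 : 3 * (gam ^ 2) ^ 2 - 34 * gam ^ 2 + 48 = 0 := by
    rw [h1]
    nlinarith [h2]
  field_simp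
  nlinarith [h3]

theorem rho0_mem : -1 < rho0 ∧ rho0 < 0 := by
  have h := s145
  have h1 : gam ^ 2 = 17 / 3 - √145 / 3 := gam_sq
  have hlo : 1 < gam ^ 2 := by rw [h1]; linarith [h.2]
  have hhi : gam ^ 2 < 2 := by rw [h1]; linarith [h.1]
  have hpi := Real.pi_pos
  have a1 : 0 < π * gam ^ 2 / 4 := by positivity
  have a2 : π * gam ^ 2 / 4 < π / 2 := by nlinarith
  unfold rho0
  constructor
  · have : Real.cos (π * gam ^ 2 / 4) < Real.cos 0 :=
      Real.cos_lt_cos_of_nonneg_of_le_pi_div_two le_rfl a2.le a1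
    rw [Real.cos_zero] at this
    linarith
  · have : 0 < Real.cos (π * gam ^ 2 / 4) :=
      Real.cos_pos_of_mem_Ioo ⟨by linarith, a2⟩
    linarith

end MDW
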