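import Pool.Agent.MDW.CMSpan

/-!
# MDW/Poly: polygonal approximation from the span of the ramps

THEOREM `exists_ramp_approx`. Let `g : [0,1] → ℝ` be continuous, `g ≥ 0`, `g 0 = g 1 = 0`, `ε >
0`. There
is `h ∈ RampSpan` with `h ≥ 0`, `h 0 = h 1 = 0` and `|h t - g t| ≤ ε` for all `t`.
PROOF. By uniform continuity choose `m ≥ 1` such that `|s - t| ≤ 1/m` implies `|g s - g t| ≤ ε`.
Let
`t_k = k/m` (`k = 0..m`), `h = ∑_{k<m} (g t_{k+1} - g t_k) • rpC t_k t_{k+1}`, an element of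
`RampSpan`. For
`t ∈ [t_k, t_{k+1}]` the ramps with smaller index are one, those with larger index zero, so
`h t = g t_0 + … = (1-λ) g t_k + λ g t_{k+1}` with `λ = m t - k ∈ [0,1]` (telescoping, `g t_0 =
0`). So
`h ≥ 0`, `h 0 = 0`, `h 1 = g 1 = 0`, and `|h t - g t| ≤ (1-λ) |g t_k - g t| + λ |g t_{k+1} - g t|
≤ ε`.

THEOREM `exists_shift`. Let `ζ, T` be continuous paths and `L` real with `‖ζ‖ + ‖T‖ ≤ L`. There is
`h ∈ RampSpan`, `h ≥ 0`, `h 0 = h 1 = 0`, with `|ζ t + h t - (L + T t)| ≤ 1/4` for all `t` with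
`1/2 ≤ t ≤ 7/8`. PROOF. Apply the first theorem to `g t = bump t * (L + T t - ζ t)` with
`bump t = max 0 (min 1 (min (2 t) (8 - 8 t)))`, which is continuous, `0` at `0` and `1`, and `1`
for
`1/2 ≤ t ≤ 7/8`; `L + T - ζ ≥ 0` because `|T t| + |ζ t| ≤ L`.
-/

open MeasureTheory ProbabilityTheory Filter Topology
open scoped ENNReal NNReal

namespace MDW

private theorem rpC_low {a b t : unitInterval} (hab : a < b) (ht : t ≤ a) :
    rpC a b t = 0 := by
  change rp a b t = 0
  unfold rp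
  have h1 : (a : ℝ) < b := hab
  have h2 : (t : ℝ) ≤ a := ht
  have h3 : ((t : ℝ) - a) / (b - a) ≤ 0 :=
    div_nonpos_of_nonpos_of_nonneg (by linarith) (by linarith)
  exact max_eq_left ((min_le_right _ _).trans h3)

private theorem rpC_high {a b t : unitInterval} (hab : a < b) (ht : b ≤ t) :
    rpC a b t = 1 := by
  change rp a b t = 1
  unfold rp
  have h1 : (a : ℝ) < b := hab
  have h2 : (b : ℝ) ≤ t := ht
  have h3 : 1 ≤ ((t : ℝ) - a) / (b - a) := by
    rw [le_div_iff₀ (by linarith)]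
    linarith
  rw [min_eq_left h3]
  exact max_eq_right zero_le_one

private theorem rpC_mid {a b t : unitInterval} (hab : a < b) (h1 : a ≤ t) (h2 : t ≤ b) :
    rpC a b t = ((t : ℝ) - a) / (b - a) := by
  change rp a b t = _
  unfold rp
  have h3 : (a : ℝ) < b := hab
  have h4 : (a : ℝ) ≤ t := h1
  have h5 : (t : ℝ) ≤ b := h2
  have h6 : ((t : ℝ) - a) / (b - a) ≤ 1 := by
    rw [div_le_one (by linarith)]
    linarith
  have h7 : 0 ≤ ((t : ℝ) - a) / (b - a) := div_nonneg (by linarith) (by linarith)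
  rw [min_eq_right h6, max_eq_right h7]

/-- The grid point `k / m`. -/
private noncomputable def gp (m k : ℕ) : unitInterval :=
  Set.projIcc (0 : ℝ) 1 zero_le_one ((k : ℝ) / m)

private theorem gp_coe {m k : ℕ} (hm : 0 < m) (hk : k ≤ m) : ((gp m k : unitInterval) : ℝ) =
    (k : ℝ) / m := by
  have h1 : (0 : ℝ) < m := by exact_mod_cast hm
  have h2 : (k : ℝ) ≤ m := by exact_mod_cast hk
  unfold gp
  rw [Set.projIcc_of_mem zero_le_one ⟨by positivity, by rw [div_le_one h1]; exact h2⟩]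

private theorem gp_lt {m k l : ℕ} (hm : 0 < m) (hkl : k < l) (hl : l ≤ m) :
    gp m k < gp m l := by
  have h1 : (0 : ℝ) < m := by exact_mod_cast hm
  have h2 : (k : ℝ) < l := by exact_mod_cast hkl
  rw [← Subtype.coe_lt_coe, gp_coe hm (hkl.le.trans hl), gp_coe hm hl]
  gcongr

private theorem gp_le {m k l : ℕ} (hm : 0 < m) (hkl : k ≤ l) (hl : l ≤ m) :
    gp m k ≤ gp m l := by
  rcases hkl.eq_or_lt with h | h
  · rw [h]
  · exact (gp_lt hm h hl).le

private theorem gp_zero {m : ℕ} (hm : 0 < m) : gp m 0 = 0 := by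
  apply Subtype.ext
  rw [gp_coe hm (Nat.zero_le m)]
  simp

private theorem gp_self {m : ℕ} (hm : 0 < m) : gp m m = 1 := by
  apply Subtype.ext
  rw [gp_coe hm le_rfl]
  have h1 : (m : ℝ) ≠ 0 := by exact_mod_cast hm.ne'
  simp [h1]

/-- The polygonal approximation. -/
private noncomputable def pol (g : C(unitInterval, ℝ)) (m : ℕ) : C(unitInterval, ℝ) :=
  ∑ k ∈ Finset.range m, (g (gp m (k + 1)) - g (gp m k)) • rpC (gp m k) (gp m (k + 1))

private theorem pol_mem (g : C(unitInterval, ℝ)) {m : ℕ} (hm : 0 < m) :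
    pol g m ∈ RampSpan := by
  refine RampSpan.sum_mem fun k hk => RampSpan.smul_mem _ (Submodule.subset_span ?_)
  have h1 := Finset.mem_range.1 hk
  exact ⟨gp m k, gp m (k + 1), gp_lt hm (Nat.lt_succ_self k) h1, rfl⟩

private theorem pol_apply (g : C(unitInterval, ℝ)) (m : ℕ) (t : unitInterval) :
    pol g m t = ∑ k ∈ Finset.range m,
      (g (gp m (k + 1)) - g (gp m k)) * rpC (gp m k) (gp m (k + 1)) t := by
  unfold pol
  rw [ContinuousMap.coe_sum, Finset.sum_apply]
  rfl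

private theorem pol_eq (g : C(unitInterval, ℝ)) (h0 : g 0 = 0) {m k : ℕ} (hk : k < m)
    {t : unitInterval} (h1 : gp m k ≤ t) (h2 : t ≤ gp m (k + 1)) :
    pol g m t = g (gp m k) + (g (gp m (k + 1)) - g (gp m k)) * (m * t - k) := by
  have hm : 0 < m := by omega
  have hmR : (0 : ℝ) < m := by exact_mod_cast hm
  rw [pol_apply]
  obtain ⟨j, rfl⟩ : ∃ j, m = (k + 1) + j := ⟨m - (k + 1), by omega⟩
  rw [Finset.sum_range_add, Finset.sum_range_succ]
  have e1 : ∑ x ∈ Finset.range k, (g (gp (k + 1 + j) (x + 1)) - g (gp (k + 1 + j) x)) *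
      rpC (gp (k + 1 + j) x) (gp (k + 1 + j) (x + 1)) t = g (gp (k + 1 + j) k) := by
    have e2 : ∀ x ∈ Finset.range k, (g (gp (k + 1 + j) (x + 1)) - g (gp (k + 1 + j) x)) *
        rpC (gp (k + 1 + j) x) (gp (k + 1 + j) (x + 1)) t =
        g (gp (k + 1 + j) (x + 1)) - g (gp (k + 1 + j) x) := by
      intro x hx
      have h3 := Finset.mem_range.1 hx
      rw [rpC_high (gp_lt hm (Nat.lt_succ_self x) (by omega))
        ((gp_le hm (show x + 1 ≤ k by omega) (by omega)).trans h1), mul_one]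
    rw [Finset.sum_congr rfl e2, Finset.sum_range_sub (fun x => g (gp (k + 1 + j) x)),
      gp_zero hm, h0, sub_zero]
  have e3 : ∑ x ∈ Finset.range j, (g (gp (k + 1 + j) (k + 1 + x + 1)) -
      g (gp (k + 1 + j) (k + 1 + x))) *
      rpC (gp (k + 1 + j) (k + 1 + x)) (gp (k + 1 + j) (k + 1 + x + 1)) t = 0 := by
    refine Finset.sum_eq_zero fun x hx => ?_
    have h3 := Finset.mem_range.1 hx
    rw [rpC_low (gp_lt hm (Nat.lt_succ_self _) (by omega))
      (h2.trans (gp_le hm (show k + 1 ≤ k + 1 + x by omega) (by omega))), mul_zero]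
  rw [e1, e3, add_zero, rpC_mid (gp_lt hm (Nat.lt_succ_self k) hk) h1 h2,
    gp_coe hm hk.le, gp_coe hm hk]
  congr 2
  push_cast at hmR ⊢
  field_simp
  ring

theorem exists_ramp_approx (g : C(unitInterval, ℝ)) (hg : ∀ t, 0 ≤ g t) (h0 : g 0 = 0)
    (h1 : g 1 = 0) {ε : ℝ} (hε : 0 < ε) :
    ∃ h ∈ RampSpan, (∀ t, 0 ≤ h t) ∧ h 0 = 0 ∧ h 1 = 0 ∧ ∀ t, |h t - g t| ≤ ε := by
  obtain ⟨δ, hδ, hu⟩ := Metric.uniformContinuous_iff.1
    (CompactSpace.uniformContinuous_of_continuous g.continuous) ε hε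
  obtain ⟨n, hn⟩ := exists_nat_one_div_lt hδ
  obtain ⟨m, hmn⟩ : ∃ m, m = n + 1 := ⟨_, rfl⟩
  have hm : 0 < m := by omega
  have hmR : (0 : ℝ) < m := by exact_mod_cast hm
  have hmδ : 1 / (m : ℝ) < δ := by
    rw [hmn]
    push_cast
    exact hn
  have key : ∀ t : unitInterval, ∃ (k : ℕ) (l : ℝ), k < m ∧ 0 ≤ l ∧ l ≤ 1 ∧
      pol g m t = (1 - l) * g (gp m k) + l * g (gp m (k + 1)) ∧
      |g (gp m k) - g t| ≤ ε ∧ |g (gp m (k + 1)) - g t| ≤ ε := by
    intro t
    have ht0 : (0 : ℝ) ≤ t := t.2.1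
    have ht1 : (t : ℝ) ≤ 1 := t.2.2
    obtain ⟨k, hk, hk1, hk2⟩ : ∃ k : ℕ, k < m ∧ (k : ℝ) ≤ m * t ∧
        (m : ℝ) * t ≤ (k : ℝ) + 1 := by
      by_cases h : ⌊(m : ℝ) * t⌋₊ < m
      · exact ⟨_, h, Nat.floor_le (by positivity), (Nat.lt_floor_add_one _).le⟩
      · refine ⟨m - 1, by omega, ?_, ?_⟩
        · have h2 : (m : ℝ) ≤ m * t :=
            le_trans (by exact_mod_cast (not_lt.1 h)) (Nat.floor_le (by positivity))
          have h3 : ((m - 1 : ℕ) : ℝ) ≤ m := by exact_mod_cast Nat.sub_le m 1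
          linarith
        · have h3 : ((m - 1 : ℕ) : ℝ) = m - 1 := by
            rw [Nat.cast_sub (by omega)]
            simp
          rw [h3]
          nlinarith
    have c1 := gp_coe hm hk.le
    have c2 := gp_coe hm hk
    have a1 : gp m k ≤ t := by
      rw [← Subtype.coe_le_coe, c1, div_le_iff₀ hmR]
      linarith
    have a2 : t ≤ gp m (k + 1) := by
      rw [← Subtype.coe_le_coe, c2, le_div_iff₀ hmR]
      push_cast
      linarith
    have hd : ((k + 1 : ℕ) : ℝ) / m - (k : ℝ) / m = 1 / m := by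
      push_cast
      field_simp
      ring
    refine ⟨k, m * t - k, hk, by linarith, by linarith, ?_, ?_, ?_⟩
    · rw [pol_eq g h0 hk a1 a2]
      ring
    · have h4 : dist (gp m k) t < δ := by
        have b1 : ((gp m k : unitInterval) : ℝ) ≤ t := a1
        have b2 : (t : ℝ) ≤ (gp m (k + 1) : unitInterval) := a2
        rw [Subtype.dist_eq, Real.dist_eq, abs_sub_comm, abs_of_nonneg (by linarith)]
        rw [c1]
        rw [c2] at b2
        linarith
      have h5 := hu h4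
      rw [Real.dist_eq] at h5
      exact h5.le
    · have h4 : dist (gp m (k + 1)) t < δ := by
        have b1 : ((gp m k : unitInterval) : ℝ) ≤ t := a1
        have b2 : (t : ℝ) ≤ (gp m (k + 1) : unitInterval) := a2
        rw [Subtype.dist_eq, Real.dist_eq, abs_of_nonneg (by linarith)]
        rw [c1] at b1
        rw [c2]
        linarith
      have h5 := hu h4
      rw [Real.dist_eq] at h5
      exact h5.le
  refine ⟨pol g m, pol_mem g hm, ?_, ?_, ?_, ?_⟩
  · intro t
    obtain ⟨k, l, _, hl0, hl1, he, _, _⟩ := key t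
    rw [he]
    exact add_nonneg (mul_nonneg (by linarith) (hg _)) (mul_nonneg hl0 (hg _))
  · have h2 := pol_eq g h0 (t := 0) hm (by rw [gp_zero hm])
      (by rw [← gp_zero hm]; exact gp_le hm (by omega) (by omega))
    rw [h2, gp_zero hm, h0]
    simp
  · have h2 := pol_eq g h0 (t := 1) (show n < m by omega)
      (by rw [← gp_self hm]; exact gp_le hm (by omega) le_rfl)
      (by rw [← hmn, gp_self hm])
    rw [h2, ← hmn, gp_self hm, h1, hmn]
    push_cast
    simp
  · intro t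
    obtain ⟨k, l, _, hl0, hl1, he, hb1, hb2⟩ := key t
    rw [he]
    have e1 : (1 - l) * g (gp m k) + l * g (gp m (k + 1)) - g t =
        (1 - l) * (g (gp m k) - g t) + l * (g (gp m (k + 1)) - g t) := by ring
    rw [e1]
    calc |(1 - l) * (g (gp m k) - g t) + l * (g (gp m (k + 1)) - g t)|
        ≤ |(1 - l) * (g (gp m k) - g t)| + |l * (g (gp m (k + 1)) - g t)| := abs_add_le _ _
      _ = (1 - l) * |g (gp m k) - g t| + l * |g (gp m (k + 1)) - g t| := by
          rw [abs_mul, abs_mul, abs_of_nonneg hl0, abs_of_nonneg (sub_nonneg.2 hl1)]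
      _ ≤ (1 - l) * ε + l * ε :=
          add_le_add (mul_le_mul_of_nonneg_left hb1 (by linarith))
            (mul_le_mul_of_nonneg_left hb2 hl0)
      _ = ε := by ring

/-- The bump function. -/
private noncomputable def bump : C(unitInterval, ℝ) :=
  ⟨fun t => max 0 (min 1 (min (2 * (t : ℝ)) (8 - 8 * t))), by fun_prop⟩

private theorem bump_apply (t : unitInterval) :
    bump t = max 0 (min 1 (min (2 * (t : ℝ)) (8 - 8 * t))) := rfl

theorem exists_shift (ζ T : C(unitInterval, ℝ)) {L : ℝ} (hL : ‖ζ‖ + ‖T‖ ≤ L) :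
    ∃ h ∈ RampSpan, (∀ t, 0 ≤ h t) ∧ h 0 = 0 ∧ h 1 = 0 ∧
      ∀ t : unitInterval, 1 / 2 ≤ (t : ℝ) → (t : ℝ) ≤ 7 / 8 →
        |ζ t + h t - (L + T t)| ≤ 1 / 4 := by
  have hpos : ∀ t, 0 ≤ L + T t - ζ t := by
    intro t
    have h1 := ζ.norm_coe_le_norm t
    have h2 := T.norm_coe_le_norm t
    rw [Real.norm_eq_abs] at h1 h2
    have h3 := le_abs_self (ζ t)
    have h4 := neg_abs_le (T t)
    linarith
  obtain ⟨h, hh, hp, h0, h1, ha⟩ := exists_ramp_approx
    (bump * (ContinuousMap.const _ L + T - ζ)) (fun t => mul_nonneg (le_max_left _ _) (hpos t))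
    (by simp [bump_apply]) (by simp [bump_apply]) (show (0 : ℝ) < 1 / 4 by norm_num)
  refine ⟨h, hh, hp, h0, h1, fun t ht1 ht2 => ?_⟩
  have h2 := ha t
  have h3 : bump t = 1 := by
    rw [bump_apply, min_eq_left (le_min (by linarith) (by linarith)),
      max_eq_right zero_le_one]
  have h4 : (bump * (ContinuousMap.const unitInterval L + T - ζ)) t = L + T t - ζ t := by
    rw [ContinuousMap.mul_apply, h3, one_mul]
    rfl
  rw [h4] at h2
  have h5 : ζ t + h t - (L + T t) = h t - (L + T t - ζ t) := by ring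
  rw [h5]
  exact h2

end MDW
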