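import Pool.Agent.MDW.TubeS
import Pool.Agent.MDW.Poly

/-!
# MDW/Tube: an excursion law charges high tubes

PROOF of `tube_pos`: take `ζ` from `ball_pos` (`μ` is a probability measure by
`IsExcursionLaw.isProbabilityMeasure`), `L = ‖ζ‖ + max ‖T₁‖ ‖T₂‖` (then
`‖fstC ζ‖, ‖sndC ζ‖ ≤ ‖ζ‖`),
`h₁, h₂` from `exists_shift` for `(fstC ζ, T₁)`, `(sndC ζ, T₂)`, `ψ = (h₁, h₂)` (a path with
`fstC ψ = h₁`, `sndC ψ = h₂`). By `shift_pos` the ball of radius `1/4` around `ζ + ψ` is charged,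
and it
is contained in the tube:
`|(w t).1 - (L + T₁ t)| ≤ |(w t).1 - (ζ t).1 - h₁ t| + 1/4 ≤ 1/2`. `measure_mono`.
-/

open MeasureTheory ProbabilityTheory Filter Topology
open scoped ENNReal NNReal BoundedContinuousFunction

namespace MDW

private theorem norm_fstC_le (ζ : C(unitInterval, ℝ × ℝ)) : ‖fstC ζ‖ ≤ ‖ζ‖ := by
  rw [ContinuousMap.norm_le _ (norm_nonneg ζ)]
  intro t
  exact (norm_fst_le (ζ t)).trans (ζ.norm_coe_le_norm t)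

private theorem norm_sndC_le (ζ : C(unitInterval, ℝ × ℝ)) : ‖sndC ζ‖ ≤ ‖ζ‖ := by
  rw [ContinuousMap.norm_le _ (norm_nonneg ζ)]
  intro t
  exact (norm_snd_le (ζ t)).trans (ζ.norm_coe_le_norm t)

theorem tube_pos {ρ : ℝ} (hρ : |ρ| < 1) {μ : Measure C(unitInterval, ℝ × ℝ)}
    (hμ : IsExcursionLaw ρ μ) (T₁ T₂ : C(unitInterval, ℝ)) :
    ∃ L : ℝ, 0 ≤ L ∧ 0 < μ {w | ∀ t : unitInterval, 1 / 2 ≤ (t : ℝ) → (t : ℝ) ≤ 7 / 8 →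
      |(w t).1 - (L + T₁ t)| ≤ 1 / 2 ∧ |(w t).2 - (L + T₂ t)| ≤ 1 / 2} := by
  have hp := hμ.isProbabilityMeasure
  obtain ⟨ζ, hζ⟩ := ball_pos μ
  have e1 : ‖fstC ζ‖ + ‖T₁‖ ≤ ‖ζ‖ + max ‖T₁‖ ‖T₂‖ :=
    add_le_add (norm_fstC_le ζ) (le_max_left _ _)
  have e2 : ‖sndC ζ‖ + ‖T₂‖ ≤ ‖ζ‖ + max ‖T₁‖ ‖T₂‖ :=
    add_le_add (norm_sndC_le ζ) (le_max_right _ _)
  obtain ⟨h₁, m₁, n₁, z₁, u₁, a₁⟩ := exists_shift (fstC ζ) T₁ e1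
  obtain ⟨h₂, m₂, n₂, z₂, u₂, a₂⟩ := exists_shift (sndC ζ) T₂ e2
  set L : ℝ := ‖ζ‖ + max ‖T₁‖ ‖T₂‖ with hL
  have hL0 : 0 ≤ L := add_nonneg (norm_nonneg _) ((norm_nonneg _).trans (le_max_left _ _))
  let ψ : C(unitInterval, ℝ × ℝ) := ⟨fun t => (h₁ t, h₂ t), by fun_prop⟩
  have s1 : fstC ψ = h₁ := by ext t; rfl
  have s2 : sndC ψ = h₂ := by ext t; rfl
  have hb := shift_pos hρ hμ (ψ := ψ) hζ (s1 ▸ m₁) (s2 ▸ m₂) (fun t => ⟨n₁ t, n₂ t⟩)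
    (Prod.ext u₁ u₂)
  refine ⟨L, hL0, lt_of_lt_of_le hb (measure_mono ?_)⟩
  intro w hw t ht1 ht2
  rw [Metric.mem_ball] at hw
  have hd : dist (w t) ((ζ + ψ) t) ≤ 1 / 4 := (ContinuousMap.dist_apply_le_dist t).trans hw.le
  have hd1 : |(w t).1 - ((ζ t).1 + h₁ t)| ≤ 1 / 4 := by
    have := (le_max_left _ _).trans ((Prod.dist_eq (x := w t) (y := (ζ + ψ) t)) ▸ hd)
    exact this
  have hd2 : |(w t).2 - ((ζ t).2 + h₂ t)| ≤ 1 / 4 := by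
    have := (le_max_right _ _).trans ((Prod.dist_eq (x := w t) (y := (ζ + ψ) t)) ▸ hd)
    exact this
  have b1 : |(ζ t).1 + h₁ t - (L + T₁ t)| ≤ 1 / 4 := a₁ t ht1 ht2
  have b2 : |(ζ t).2 + h₂ t - (L + T₂ t)| ≤ 1 / 4 := a₂ t ht1 ht2
  rw [abs_le] at hd1 hd2 b1 b2
  refine ⟨abs_le.2 ⟨?_, ?_⟩, abs_le.2 ⟨?_, ?_⟩⟩ <;> linarith

end MDW
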