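import Pool.Agent.MDW.Func
import Pool.Agent.MDW.Grid
import Pool.Agent.MDW.Minm

/-!
# MDW/TubeLow: lower bound of the functional on the tube

`T1 t = max (6 + 64 (9/16 - t)) (min (6 + 32 (t - 9/16)) (min 8 (8 - 40 (t - 3/4))))`,
`T2 t = min 10 (6 + 64 (t - 9/16))`.
Values: `T1 (1/2) = 10`, `T1 (9/16) = 6`, `T1 ≥ 6` on `[1/2, 5/8]`, `T1 = 8` on `[5/8, 3/4]`,
`T1 (7/8) = 3`, `T1 ≥ 3` on `[1/2, 7/8]`; `T2 (9/16) = 6`, `T2 = 10` on `[5/8, 7/8]`.

(1) `seq_dev`: let `a : ℕ → ℝ`, `q ≥ 1`, `a (q+1) = a q`, `a q - a (3q) ≥ 2`. There is `j` with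
`q ≤ j`, `j + 2 ≤ 3q` and `1/(4 q²) ≤ |sd a j|`. PROOF. Suppose not. With `d k = a (k+1) - a k`:
`sd a k = (d k - d (k+1))/2`, so `|d (q+i+1)| ≤ |d (q+i)| + 2/(4q²)` for `i + 2 ≤ 2q`, hence
`|d (q+i)| ≤ i/(2q²)` for `i < 2q` (`d q = 0`), so
`|a q - a (3q)| ≤ ∑_{i<2q} i/(2q²) ≤ 2q * (2q)/(2q²)/2 …`; precisely `∑_{i<2q} i = q (2q-1)`, the
bound
is `(2q-1)/(2q) < 1 < 2`. (Even the crude bound `2q * (2q-1)/(2q²) < 2` suffices.)
(2) `tube_lower`: `N = 4q`, `tg N k = k/(8q)`; let `w` be in the tube. Let `q ≤ j`, `j + 2 ≤ 3q`.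
Grid: `tg N N = 1/2`, `tg N (N+q) = 5/8`, `tg N (N+3q) = 7/8`; `tg N (N+j), tg N (N+j+2) ∈ [5/8,
7/8]`.
`I k = gm N (fstC w) N (N+k)`, `K k = gm N (sndC w) N (N+k)`.
 * `K j ≤ (w (9/16)).2 ≤ L + 6.5` (`mn_le`, `9/16 ∈ [1/2, tg (N+j)]`), and
   `Y (N+j), Y (N+j+2) ≥ L + 9.5`: the two Y cutoffs have arguments `≥ 3 ≥ 2`.
 * `X N ≥ L + 9.5`, `I j, I (j+2) ≤ (w (9/16)).1 ≤ L + 6.5`, `X (N+j) ≥ I j` and
   `X (N+j+2) ≥ I (j+2)` (`mn_le`): `X N + X (N+j) - 2 I j ≥ X N - I j ≥ 3`.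
 * `X (N+j), X (N+j+2) ≥ L + 3 - 1/2 ≥ 2`.
 So all six cutoffs are one (`ph_eq_one`) and `Ups N j w = min ((sd I j)²) 1`.
 * `I (q+1) = I q`: `mn_split` at `tg (N+q)`: the path is `≥ L + 7.5` on `[5/8, tg (N+q+1)]`
(which is
   inside `[5/8, 3/4]` as `(q+1)/(8q) ≤ 1/4`), while `I q ≤ L + 6.5`.
 * `I q ≥ L + 5.5` (`le_mn`, `T1 ≥ 6` on `[1/2,5/8]`), `I (3q) ≤ (w (7/8)).1 ≤ L + 3.5`.
 By (1) some `j` has `|sd I j| ≥ 1/(4q²)`, so `Ups N j w ≥ min (1/(16 q⁴)) 1 = 1/(16 q⁴)`, and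
the other
 terms of the sum are nonnegative (`Finset.single_le_sum`, `Ups_nonneg`).
-/

open MeasureTheory ProbabilityTheory Filter Topology

namespace MDW

/-- First coordinate of the target path. -/
noncomputable def T1 : C(unitInterval, ℝ) where
  toFun t := max (6 + 64 * (9 / 16 - (t : ℝ)))
    (min (6 + 32 * ((t : ℝ) - 9 / 16)) (min 8 (8 - 40 * ((t : ℝ) - 3 / 4))))
  continuous_toFun := by fun_prop

/-- Second coordinate of the target path. -/
noncomputable def T2 : C(unitInterval, ℝ) where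
  toFun t := min 10 (6 + 64 * ((t : ℝ) - 9 / 16))
  continuous_toFun := by fun_prop

private theorem T1_apply (t : unitInterval) : T1 t = max (6 + 64 * (9 / 16 - (t : ℝ)))
    (min (6 + 32 * ((t : ℝ) - 9 / 16)) (min 8 (8 - 40 * ((t : ℝ) - 3 / 4)))) := rfl

private theorem T2_apply (t : unitInterval) :
    T2 t = min 10 (6 + 64 * ((t : ℝ) - 9 / 16)) := rfl

private theorem T1_half {t : unitInterval} (h : (t : ℝ) = 1 / 2) : 10 ≤ T1 t := by
  rw [T1_apply, h]
  exact le_max_of_le_left (by norm_num)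

private theorem T1_six {t : unitInterval} (h : (t : ℝ) ≤ 5 / 8) : 6 ≤ T1 t := by
  rw [T1_apply]
  rcases le_total (t : ℝ) (9 / 16) with h1 | h1
  · exact le_max_of_le_left (by linarith)
  · exact le_max_of_le_right (le_min (by linarith) (le_min (by norm_num) (by linarith)))

private theorem T1_eight {t : unitInterval} (h : 5 / 8 ≤ (t : ℝ)) (h' : (t : ℝ) ≤ 3 / 4) :
    8 ≤ T1 t := by
  rw [T1_apply]
  exact le_max_of_le_right (le_min (by linarith) (le_min le_rfl (by linarith)))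

private theorem T1_three {t : unitInterval} (h : (t : ℝ) ≤ 7 / 8) : 3 ≤ T1 t := by
  rw [T1_apply]
  rcases le_total (t : ℝ) (9 / 16) with h1 | h1
  · exact le_max_of_le_left (by linarith)
  · exact le_max_of_le_right (le_min (by linarith) (le_min (by norm_num) (by linarith)))

private theorem T1_nine {t : unitInterval} (h : (t : ℝ) = 9 / 16) : T1 t ≤ 6 := by
  rw [T1_apply, h]
  exact max_le (by norm_num) (min_le_of_left_le (by norm_num))

private theorem T1_end {t : unitInterval} (h : (t : ℝ) = 7 / 8) : T1 t ≤ 3 := by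
  rw [T1_apply, h]
  exact max_le (by norm_num) (min_le_of_right_le (min_le_of_right_le (by norm_num)))

private theorem T2_nine {t : unitInterval} (h : (t : ℝ) = 9 / 16) : T2 t ≤ 6 := by
  rw [T2_apply, h]
  exact min_le_of_right_le (by norm_num)

private theorem T2_ten {t : unitInterval} (h : 5 / 8 ≤ (t : ℝ)) : 10 ≤ T2 t := by
  rw [T2_apply]
  exact le_min le_rfl (by linarith)

theorem seq_dev {a : ℕ → ℝ} {q : ℕ} (hq : 1 ≤ q) (h1 : a (q + 1) = a q)
    (h2 : 2 ≤ a q - a (3 * q)) :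
    ∃ j, q ≤ j ∧ j + 2 ≤ 3 * q ∧ 1 / (4 * (q : ℝ) ^ 2) ≤ |sd a j| := by
  by_contra hcon
  push Not at hcon
  have hq' : (1 : ℝ) ≤ q := by exact_mod_cast hq
  obtain ⟨δ, hδ⟩ : ∃ δ : ℝ, δ = 1 / (4 * (q : ℝ) ^ 2) := ⟨_, rfl⟩
  rw [← hδ] at hcon
  have hδ0 : 0 < δ := by rw [hδ]; positivity
  have hδq : δ * (q : ℝ) ^ 2 = 1 / 4 := by
    rw [hδ]
    field_simp
  have hd : ∀ i : ℕ, i < 2 * q → |a (q + i + 1) - a (q + i)| ≤ 2 * i * δ := by
    intro i
    induction i with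
    | zero => intro _; simp [h1]
    | succ i ih =>
      intro hi
      have h3 := abs_le.1 (ih (by omega))
      have h4 := abs_lt.1 (hcon (q + i) (by omega) (by omega))
      unfold sd at h4
      have e1 : q + (i + 1) + 1 = q + i + 2 := by ring
      have e2 : q + (i + 1) = q + i + 1 := by ring
      rw [e1, e2, abs_le]
      push_cast
      constructor <;> nlinarith [h3.1, h3.2, h4.1, h4.2]
  have hs : ∀ i : ℕ, i ≤ 2 * q → |a (q + i) - a q| ≤ i * (2 * (2 * q - 1) * δ) := by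
    intro i
    induction i with
    | zero => intro _; simp
    | succ i ih =>
      intro hi
      have h3 := abs_le.1 (ih (by omega))
      have h4 := abs_le.1 (hd i (by omega))
      have h5 : (i : ℝ) ≤ 2 * q - 1 := by
        have : i + 1 ≤ 2 * q := hi
        have : ((i + 1 : ℕ) : ℝ) ≤ ((2 * q : ℕ) : ℝ) := by exact_mod_cast this
        push_cast at this
        linarith
      have h6 : 2 * (i : ℝ) * δ ≤ 2 * (2 * q - 1) * δ :=
        mul_le_mul_of_nonneg_right (by linarith) hδ0.le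
      have e2 : q + (i + 1) = q + i + 1 := by ring
      rw [e2, abs_le]
      push_cast
      constructor <;> nlinarith [h3.1, h3.2, h4.1, h4.2]
  have h7 := (abs_le.1 (hs (2 * q) le_rfl)).1
  have e3 : q + 2 * q = 3 * q := by ring
  rw [e3] at h7
  push_cast at h7
  nlinarith [mul_pos hδ0 (lt_of_lt_of_le one_pos hq')]

theorem tube_lower {q : ℕ} (hq : 1 ≤ q) {L : ℝ} (hL : 0 ≤ L) {w : C(unitInterval, ℝ × ℝ)}
    (hw : ∀ t : unitInterval, 1 / 2 ≤ (t : ℝ) → (t : ℝ) ≤ 7 / 8 →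
      |(w t).1 - (L + T1 t)| ≤ 1 / 2 ∧ |(w t).2 - (L + T2 t)| ≤ 1 / 2) :
    1 / (16 * (q : ℝ) ^ 4) ≤ ∑ j ∈ Finset.Ico q (3 * q - 1), Ups (4 * q) j w := by
  have hq' : (1 : ℝ) ≤ q := by exact_mod_cast hq
  have hN : 0 < 4 * q := by omega
  obtain ⟨N, hNq⟩ : ∃ N : ℕ, N = 4 * q := ⟨_, rfl⟩
  rw [← hNq] at hN ⊢
  -- values of grid points
  have htg : ∀ k, k ≤ 2 * N → ((tg N k : unitInterval) : ℝ) = (k : ℝ) / (8 * q) := by
    intro k hk
    rw [tg_val hN hk, hNq]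
    push_cast
    ring_nf
  have hq0 : (0 : ℝ) < 8 * q := by linarith
  have htN : ((tg N N : unitInterval) : ℝ) = 1 / 2 := tg_half hN
  have ht5 : ((tg N (N + q) : unitInterval) : ℝ) = 5 / 8 := by
    rw [htg _ (by omega), hNq]
    push_cast
    field_simp
    ring
  have ht51 : ((tg N (N + (q + 1)) : unitInterval) : ℝ) ≤ 3 / 4 := by
    rw [htg _ (by omega), hNq, div_le_iff₀ hq0]
    push_cast
    linarith
  have ht7 : ((tg N (N + 3 * q) : unitInterval) : ℝ) = 7 / 8 := by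
    rw [htg _ (by omega), hNq]
    push_cast
    field_simp
    ring
  obtain ⟨s, hs⟩ : ∃ s : unitInterval, (s : ℝ) = 9 / 16 := ⟨⟨9 / 16, by norm_num, by norm_num⟩, rfl⟩
  -- bounds for the path
  have hsX : (fstC w) s ≤ L + 13 / 2 := by
    have h1 := (abs_le.1 (hw s (by rw [hs]; norm_num) (by rw [hs]; norm_num)).1).2
    have h2 := T1_nine hs
    change (w s).1 ≤ _
    linarith
  have hsY : (sndC w) s ≤ L + 13 / 2 := by
    have h1 := (abs_le.1 (hw s (by rw [hs]; norm_num) (by rw [hs]; norm_num)).2).2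
    have h2 := T2_nine hs
    change (w s).2 ≤ _
    linarith
  have hNs : tg N N ≤ s := Subtype.coe_le_coe.1 (by rw [htN, hs]; norm_num)
  have hs5 : ∀ j, q ≤ j → s ≤ tg N (N + j) := by
    intro j hj
    refine le_trans ?_ (tg_le hN (show N + q ≤ N + j by omega))
    exact Subtype.coe_le_coe.1 (by rw [ht5, hs]; norm_num)
  obtain ⟨I, hI⟩ : ∃ I : ℕ → ℝ, I = fun k => gm N (fstC w) N (N + k) := ⟨_, rfl⟩
  obtain ⟨K, hK⟩ : ∃ K : ℕ → ℝ, K = fun k => gm N (sndC w) N (N + k) := ⟨_, rfl⟩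
  have hIle : ∀ j, q ≤ j → I j ≤ L + 13 / 2 := by
    intro j hj
    rw [hI]
    exact (mn_le hNs (hs5 j hj)).trans hsX
  have hKle : ∀ j, q ≤ j → K j ≤ L + 13 / 2 := by
    intro j hj
    rw [hK]
    exact (mn_le hNs (hs5 j hj)).trans hsY
  have hIX : ∀ j, I j ≤ gv N (fstC w) (N + j) := by
    intro j
    rw [hI]
    exact mn_le (tg_le hN (by omega)) le_rfl
  have hXN : L + 19 / 2 ≤ gv N (fstC w) N := by
    have h1 := (abs_le.1 (hw (tg N N) (by rw [htN]) (by rw [htN]; norm_num)).1).1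
    have h2 := T1_half htN
    change _ ≤ (w (tg N N)).1
    linarith
  have hrange : ∀ j, q ≤ j → j ≤ 3 * q → 5 / 8 ≤ ((tg N (N + j) : unitInterval) : ℝ) ∧
      ((tg N (N + j) : unitInterval) : ℝ) ≤ 7 / 8 := by
    intro j h1 h2
    constructor
    · rw [← ht5]
      exact Subtype.coe_le_coe.2 (tg_le hN (by omega))
    · rw [← ht7]
      exact Subtype.coe_le_coe.2 (tg_le hN (by omega))
  have hXj : ∀ j, q ≤ j → j ≤ 3 * q → 2 ≤ gv N (fstC w) (N + j) := by
    intro j h1 h2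
    obtain ⟨h3, h4⟩ := hrange j h1 h2
    have h5 := (abs_le.1 (hw (tg N (N + j)) (by linarith) h4).1).1
    have h6 := T1_three h4
    change _ ≤ (w (tg N (N + j))).1
    linarith
  have hYj : ∀ j, q ≤ j → j ≤ 3 * q → L + 19 / 2 ≤ gv N (sndC w) (N + j) := by
    intro j h1 h2
    obtain ⟨h3, h4⟩ := hrange j h1 h2
    have h5 := (abs_le.1 (hw (tg N (N + j)) (by linarith) h4).2).1
    have h6 := T2_ten h3
    change _ ≤ (w (tg N (N + j))).2
    linarith
  -- the functional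
  have hU : ∀ j, q ≤ j → j + 2 ≤ 3 * q → Ups N j w = min ((sd I j) ^ 2) 1 := by
    intro j h1 h2
    unfold Ups PU
    rw [← hI, ← hK]
    have a1 := hYj j h1 (by omega)
    have a2 : L + 19 / 2 ≤ gv N (sndC w) (N + j + 2) := hYj (j + 2) (by omega) h2
    have a3 := hXj j h1 (by omega)
    have a4 : 2 ≤ gv N (fstC w) (N + j + 2) := hXj (j + 2) (by omega) h2
    have a5 := hIX j
    have a6 : I (j + 2) ≤ gv N (fstC w) (N + j + 2) := hIX (j + 2)
    have a7 := hIle j h1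
    have a8 := hIle (j + 2) (by omega)
    have a9 := hKle j h1
    rw [ph_eq_one (x := gv N (sndC w) (N + j) - K j) (by linarith),
      ph_eq_one (x := gv N (sndC w) (N + j + 2) - K j) (by linarith),
      ph_eq_one (x := gv N (fstC w) N + gv N (fstC w) (N + j) - 2 * I j) (by linarith),
      ph_eq_one (x := gv N (fstC w) N + gv N (fstC w) (N + j + 2) - 2 * I (j + 2))
        (by linarith),
      ph_eq_one a3, ph_eq_one a4]
    ring
  have hIq : L + 11 / 2 ≤ I q := by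
    rw [hI]
    refine le_mn (tg_le hN (by omega)) fun u h1 h2 => ?_
    have h1' : (1 / 2 : ℝ) ≤ u := by rw [← htN]; exact Subtype.coe_le_coe.2 h1
    have h2' : (u : ℝ) ≤ 5 / 8 := by rw [← ht5]; exact Subtype.coe_le_coe.2 h2
    have h3 := (abs_le.1 (hw u h1' (by linarith)).1).1
    have h4 := T1_six h2'
    change _ ≤ (w u).1
    linarith
  have hIq1 : I (q + 1) = I q := by
    have h1 : I (q + 1) = min (I q) (mn (fstC w) (tg N (N + q)) (tg N (N + (q + 1)))) := by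
      rw [hI]
      exact mn_split (tg_le hN (by omega)) (tg_le hN (by omega))
    rw [h1]
    refine min_eq_left ((hIle q le_rfl).trans ?_)
    refine le_mn (tg_le hN (by omega)) fun u h2 h3 => ?_
    have h2' : (5 / 8 : ℝ) ≤ u := by rw [← ht5]; exact Subtype.coe_le_coe.2 h2
    have h3' : (u : ℝ) ≤ 3 / 4 := le_trans (Subtype.coe_le_coe.2 h3) ht51
    have h4 := (abs_le.1 (hw u (by linarith) (by linarith)).1).1
    have h5 := T1_eight h2' h3'
    change _ ≤ (w u).1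
    linarith
  have hI3 : I (3 * q) ≤ L + 7 / 2 := by
    refine (hIX (3 * q)).trans ?_
    have h1 := (abs_le.1 (hw (tg N (N + 3 * q)) (by rw [ht7]; norm_num)
      (by rw [ht7])).1).2
    have h2 := T1_end ht7
    change (w (tg N (N + 3 * q))).1 ≤ _
    linarith
  obtain ⟨j, hj1, hj2, hj3⟩ := seq_dev hq hIq1 (by linarith)
  have hj4 : 1 / (16 * (q : ℝ) ^ 4) ≤ Ups N j w := by
    rw [hU j hj1 hj2]
    have h1 : 1 / (16 * (q : ℝ) ^ 4) = (1 / (4 * (q : ℝ) ^ 2)) ^ 2 := by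
      rw [div_pow, mul_pow, ← pow_mul]
      norm_num
    refine le_min ?_ ?_
    · rw [h1, ← sq_abs (sd I j)]
      exact pow_le_pow_left₀ (by positivity) hj3 2
    · rw [div_le_one (by positivity)]
      nlinarith [one_le_pow₀ hq' (n := 4)]
  exact hj4.trans (Finset.single_le_sum (f := fun j => Ups N j w)
    (fun i _ => Ups_nonneg N i w) (Finset.mem_Ico.2 ⟨hj1, by omega⟩))

end MDW
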