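import Pool.Agent.MDW.LimInv
import Pool.Agent.MDW.Tube
import Pool.Agent.MDW.TubeLow
import Pool.Agent.MDW.RhoNum

/-!
# MDW/Fin: the final contradiction

PROOF of `main`. Let `C` be the constant of `excA_excB`, `μ` an excursion law of correlation `ρ`,
`0 < |ρ| < 1`, and suppose that the averages converge along `n k`, `a k`. Let `s` be the sign of
`ρ`.
For `q ≥ 1` put `N = 4q`, `p = C (1/N)^6`; for `q` large `p ≤ 1/2`. For `j + 2 ≤ N`:
`|ρ|/2 ∫ Ups N j dμ ≤ 3p - s ∫ PsiB dμ = 3p - s ∫ PsiA dμ ≤ 5p` (`integral_PsiA_eq_PsiB`, `|s| =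
1`), so
`∫ Ups N j dμ ≤ 10 p / |ρ|`. Let `m = μ.real (tube) > 0` (`tube_pos` with `T1, T2`; `μ` is a
probability
measure; the tube is closed, hence measurable; or use only monotonicity: the set
`{w | 1/(16 q⁴) ≤ ∑_j Ups}` is closed, measurable and contains the tube). By `tube_lower` and
Markov's
inequality (`mul_meas_ge_le_integral_of_nonneg`) for the nonnegative function
`∑_{j ∈ Ico q (3q-1)} Ups (4q) j`:
`m / (16 q⁴) ≤ ∑_j ∫ Ups dμ ≤ (2q) (10 C (1/(4q))^6 / |ρ|)`, i.e.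
`m |ρ| q ≤ 320 C / 4096`, for all large `q`: a contradiction (`exists_nat_gt`).
`main_conv`: apply `main` with `n k = k + 1`, `a k = c / √(k+1)` (`tendsto_add_atTop_iff_nat`;
the cast
`((k+1 : ℕ) : ℝ)`).
-/

open MeasureTheory ProbabilityTheory Filter Topology
open scoped BoundedContinuousFunction

namespace MDW

theorem main {ρ : ℝ} (h1 : -1 < ρ) (h2 : ρ < 1) (h0 : ρ ≠ 0)
    {μ : Measure C(unitInterval, ℝ × ℝ)} (hμ : IsExcursionLaw ρ μ) {n : ℕ → ℕ}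
    {a : ℕ → ℝ} (hn : ∀ k, 0 < n k) (ha : ∀ k, 0 ≤ a k) :
    ¬ ∀ F : C(unitInterval, ℝ × ℝ) →ᵇ ℝ,
      Tendsto (fun k : ℕ => meanderAvg (a k) (n k) F) atTop (𝓝 (∫ w, F w ∂μ)) := by
  intro hconv
  obtain ⟨C, hC, hexc⟩ := excA_excB
  have hρ : |ρ| < 1 := abs_lt.2 ⟨h1, h2⟩
  have hρ0 : 0 < |ρ| := abs_pos.2 h0
  haveI := hμ.isProbabilityMeasure
  obtain ⟨L, hL, hpos⟩ := tube_pos hρ hμ T1 T2
  set A : Set C(unitInterval, ℝ × ℝ) := {w | ∀ t : unitInterval, 1 / 2 ≤ (t : ℝ) →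
      (t : ℝ) ≤ 7 / 8 →
      |(w t).1 - (L + T1 t)| ≤ 1 / 2 ∧ |(w t).2 - (L + T2 t)| ≤ 1 / 2} with hA
  have hm : 0 < μ.real A := ENNReal.toReal_pos hpos.ne' (measure_ne_top _ _)
  have hU : ∀ q : ℕ, 1 ≤ q → C * (1 / ((4 * q : ℕ) : ℝ)) ^ 6 ≤ 1 / 2 → ∀ j, j + 2 ≤ 4 * q →
      ∫ w, Ups (4 * q) j w ∂μ ≤ 10 * (C * (1 / ((4 * q : ℕ) : ℝ)) ^ 6) / |ρ| := by
    intro q hq hp j hj
    obtain ⟨h3, h4⟩ := hexc ρ hρ.le μ hμ (4 * q) j (by omega) hj hp
    have h5 := integral_PsiA_eq_PsiB (ρ := ρ) hn ha hconv (N := 4 * q) (j := j) (by omega) hj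
    rw [le_div_iff₀ hρ0]
    have h6 := abs_le.1 h3
    rcases lt_or_gt_of_ne h0 with h | h
    · have h7 := h4 (-1) (Or.inr ⟨rfl, h⟩)
      rw [← h5] at h7
      linarith [h6.1, h6.2]
    · have h7 := h4 1 (Or.inl ⟨rfl, h⟩)
      rw [← h5] at h7
      linarith [h6.1, h6.2]
  have hint : ∀ N j, Integrable (Ups N j) μ := fun N j =>
    Integrable.of_bound (continuous_Ups N j).aestronglyMeasurable 1
      (Eventually.of_forall fun w => by
        rw [Real.norm_of_nonneg (Ups_nonneg N j w)]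
        exact Ups_le_one N j w)
  have hmain : ∀ q : ℕ, 1 ≤ q → C * (1 / ((4 * q : ℕ) : ℝ)) ^ 6 ≤ 1 / 2 →
      1 / (16 * (q : ℝ) ^ 4) * μ.real A ≤
        (2 * q) * (10 * (C * (1 / ((4 * q : ℕ) : ℝ)) ^ 6) / |ρ|) := by
    intro q hq hp
    have h3 := mul_meas_ge_le_integral_of_nonneg (μ := μ)
      (f := fun w => ∑ j ∈ Finset.Ico q (3 * q - 1), Ups (4 * q) j w)
      (Eventually.of_forall fun w => Finset.sum_nonneg fun j _ => Ups_nonneg _ j w)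
      (integrable_finsetSum _ fun j _ => hint _ j) (1 / (16 * (q : ℝ) ^ 4))
    have h4 : μ.real A ≤ μ.real {w | 1 / (16 * (q : ℝ) ^ 4) ≤
        ∑ j ∈ Finset.Ico q (3 * q - 1), Ups (4 * q) j w} :=
      measureReal_mono fun w hw => tube_lower hq hL hw
    rw [integral_finsetSum _ fun j _ => hint _ j] at h3
    have h5 : ∑ j ∈ Finset.Ico q (3 * q - 1), ∫ w, Ups (4 * q) j w ∂μ ≤
        ∑ j ∈ Finset.Ico q (3 * q - 1), 10 * (C * (1 / ((4 * q : ℕ) : ℝ)) ^ 6) / |ρ| :=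
      Finset.sum_le_sum fun j hj => hU q hq hp j (by
        have := Finset.mem_Ico.1 hj
        omega)
    rw [Finset.sum_const, Nat.card_Ico, nsmul_eq_mul] at h5
    have h6 : ((3 * q - 1 - q : ℕ) : ℝ) ≤ 2 * q := by
      have : 3 * q - 1 - q ≤ 2 * q := by omega
      exact_mod_cast this
    have h7 : 0 ≤ 10 * (C * (1 / ((4 * q : ℕ) : ℝ)) ^ 6) / |ρ| := by positivity
    calc 1 / (16 * (q : ℝ) ^ 4) * μ.real A
        ≤ 1 / (16 * (q : ℝ) ^ 4) * μ.real {w | 1 / (16 * (q : ℝ) ^ 4) ≤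
          ∑ j ∈ Finset.Ico q (3 * q - 1), Ups (4 * q) j w} :=
          mul_le_mul_of_nonneg_left h4 (by positivity)
      _ ≤ _ := h3
      _ ≤ _ := h5
      _ ≤ _ := mul_le_mul_of_nonneg_right h6 h7
  obtain ⟨q, hq⟩ := exists_nat_gt (max (max 1 C) (C / (|ρ| * μ.real A)))
  have hq1 : (1 : ℝ) < q := ((le_max_left _ _).trans (le_max_left _ _)).trans_lt hq
  have hq2 : C < q := ((le_max_right _ _).trans (le_max_left _ _)).trans_lt hq
  have hq3 : C / (|ρ| * μ.real A) < q := (le_max_right _ _).trans_lt hq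
  have hq0 : (0 : ℝ) < q := by linarith
  have hqn : 1 ≤ q := by exact_mod_cast hq1.le
  have hc4 : ((4 * q : ℕ) : ℝ) = 4 * q := by push_cast; ring
  have hp : C * (1 / ((4 * q : ℕ) : ℝ)) ^ 6 ≤ 1 / 2 := by
    rw [hc4]
    have h8 : (1 / (4 * (q : ℝ))) ^ 6 ≤ (1 / (4 * (q : ℝ))) ^ 1 := by
      refine pow_le_pow_of_le_one (by positivity) ?_ (by norm_num)
      rw [div_le_one (by positivity)]
      linarith
    calc C * (1 / (4 * (q : ℝ))) ^ 6 ≤ q * (1 / (4 * (q : ℝ))) ^ 1 :=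
          mul_le_mul hq2.le h8 (by positivity) hq0.le
      _ = 1 / 4 := by field_simp
      _ ≤ 1 / 2 := by norm_num
  have h9 := hmain q hqn hp
  rw [hc4] at h9
  rw [div_lt_iff₀ (by positivity)] at hq3
  have h10 : (2 * (q : ℝ)) * (10 * (C * (1 / (4 * (q : ℝ))) ^ 6) / |ρ|) =
      20 * C / (4096 * (q : ℝ) ^ 5 * |ρ|) := by
    field_simp
    ring
  rw [h10, div_mul_eq_mul_div, one_mul, div_le_div_iff₀ (by positivity) (by positivity)] at h9
  have h11 : (q : ℝ) ^ 4 * (4096 * (q * (|ρ| * μ.real A))) ≤ (q : ℝ) ^ 4 * (320 * C) := by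
    nlinarith [h9]
  have h12 := le_of_mul_le_mul_left h11 (by positivity)
  nlinarith

theorem main_conv {ρ : ℝ} (h1 : -1 < ρ) (h2 : ρ < 1) (h0 : ρ ≠ 0)
    {μ : Measure C(unitInterval, ℝ × ℝ)} (hμ : IsExcursionLaw ρ μ) {c : ℝ} (hc : 0 < c) :
    ¬ ConvInLaw c μ := by
  intro hcv
  refine main h1 h2 h0 hμ (n := fun k => k + 1) (a := fun k => c / √((k + 1 : ℕ) : ℝ))
    (fun k => Nat.succ_pos k) (fun k => by positivity) ?_
  intro F
  exact (hcv F).comp (tendsto_add_atTop_nat 1)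

end MDW
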