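import Mathlib

/-!
# MDW/GShift: shifting a centered Gaussian on a bounded set (one dimension)

THEOREM. Let `0 < v`, `m : ℝ`, `R ≥ 0`. There is `c > 0` with
`c * γ {x | x + m ∈ A} ≤ γ A` for all measurable `A ⊆ [-R, R]`, `γ = gaussianReal 0 v`.
PROOF. `γ` has the density `g(x) = (2πv)^(-1/2) exp(-x²/(2v))` (`gaussianReal`, `gaussianPDF`),
and the
image of `γ` under `x ↦ x + m` has the density `g(x - m)` (`gaussianReal_map_add_const`: it is
`gaussianReal m v`). For `|x| ≤ R`: `g(x) / g(x - m) = exp(-x²/(2v) + (x-m)²/(2v)) =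
exp((m² - 2 x m)/(2v)) ≥ exp(-|m| R / v)`. So `c = exp(-|m| R / v)` works: with
`{x | x + m ∈ A}` of `γ`-measure `∫⁻_A gaussianPDF m v` and
`ENNReal.ofReal c * gaussianPDF m v x ≤ gaussianPDF 0 v x` on `A` (`lintegral_mono`,
`setLIntegral_mono`).

THEOREM `shift_section` (the same with a parameter). Let `Q` be a probability measure on a
measurable space `T`, `Φ : T × ℝ → X` measurable, and let `A ⊆ X` be measurable, `m`, `R` real,
such
that `Φ (t, x) ∈ A` implies `|x| ≤ R`. Then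
`c * (Q.prod γ) {p | Φ (p.1, p.2 + m) ∈ A} ≤ (Q.prod γ) {p | Φ p ∈ A}` with the same `c`, by
Tonelli (`Measure.prod_apply`, `lintegral_mono`, `lintegral_const_mul`): apply the first theorem
to
the sections `{x | Φ (t, x) ∈ A} ⊆ [-R,R]`.
-/

open MeasureTheory ProbabilityTheory Filter Topology
open scoped ENNReal NNReal

namespace MDW

theorem gauss_shift {v : ℝ≥0} (hv : v ≠ 0) (m R : ℝ) :
    ∃ c : ℝ≥0∞, 0 < c ∧ ∀ A : Set ℝ, MeasurableSet A → (∀ x ∈ A, |x| ≤ R) →
      c * (gaussianReal 0 v) {x | x + m ∈ A} ≤ (gaussianReal 0 v) A := by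
  have hv0 : (0 : ℝ) < v := lt_of_le_of_ne v.2 fun h => hv (NNReal.coe_eq_zero.1 h.symm)
  refine ⟨ENNReal.ofReal (Real.exp (-(|m| * R / v))), ENNReal.ofReal_pos.2 (Real.exp_pos _), ?_⟩
  intro A hA hR
  have h1 : (gaussianReal 0 v) {x | x + m ∈ A} = (gaussianReal m v) A := by
    have h2 := gaussianReal_map_add_const (μ := 0) (v := v) m
    rw [zero_add] at h2
    have h3 : Measurable fun x : ℝ => x + m := measurable_id.add_const m
    rw [← h2, Measure.map_apply h3 hA]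
    rfl
  rw [h1, gaussianReal_apply _ hv, gaussianReal_apply _ hv,
    ← lintegral_const_mul _ (measurable_gaussianPDF m v)]
  refine setLIntegral_mono' hA fun x hx => ?_
  have h3 := hR x hx
  unfold gaussianPDF
  rw [← ENNReal.ofReal_mul (Real.exp_pos _).le]
  refine ENNReal.ofReal_le_ofReal ?_
  unfold gaussianPDFReal
  have h4 : Real.exp (-(|m| * R / v)) * ((√(2 * Real.pi * v))⁻¹ *
      Real.exp (-(x - m) ^ 2 / (2 * v))) = (√(2 * Real.pi * v))⁻¹ *
      Real.exp (-(|m| * R / v) + -(x - m) ^ 2 / (2 * v)) := by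
    rw [Real.exp_add]
    ring
  rw [h4]
  refine mul_le_mul_of_nonneg_left (Real.exp_le_exp.2 ?_) (by positivity)
  have h5 : x * m ≤ |m| * R := by
    calc x * m ≤ |x * m| := le_abs_self _
      _ = |m| * |x| := by rw [abs_mul, mul_comm]
      _ ≤ |m| * R := mul_le_mul_of_nonneg_left h3 (abs_nonneg m)
  have h6 : -(|m| * R / v) + -(x - m) ^ 2 / (2 * v) =
      (-(2 * (|m| * R)) - (x - m) ^ 2) / (2 * v) := by
    field_simp
    ring
  rw [h6]
  refine (div_le_div_iff_of_pos_right (by positivity)).2 ?_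
  nlinarith [sq_nonneg m]

theorem shift_section {v : ℝ≥0} (hv : v ≠ 0) (m R : ℝ) :
    ∃ c : ℝ≥0∞, 0 < c ∧ ∀ {T X : Type} [MeasurableSpace T] [MeasurableSpace X]
      (Q : Measure T) [IsProbabilityMeasure Q] (Φ : T × ℝ → X), Measurable Φ →
      ∀ A : Set X, MeasurableSet A → (∀ p, Φ p ∈ A → |p.2| ≤ R) →
      c * (Q.prod (gaussianReal 0 v)) {p | Φ (p.1, p.2 + m) ∈ A} ≤
        (Q.prod (gaussianReal 0 v)) {p | Φ p ∈ A} := by
  obtain ⟨c, hc, h⟩ := gauss_shift hv m R
  refine ⟨c, hc, ?_⟩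
  intro T X _ _ Q _ Φ hΦ A hA hR
  have hm1 : MeasurableSet {p : T × ℝ | Φ (p.1, p.2 + m) ∈ A} :=
    (hΦ.comp (measurable_fst.prodMk (measurable_snd.add_const m))) hA
  have hm2 : MeasurableSet {p : T × ℝ | Φ p ∈ A} := hΦ hA
  rw [Measure.prod_apply hm1, Measure.prod_apply hm2,
    ← lintegral_const_mul _ (measurable_measure_prodMk_left hm1)]
  refine lintegral_mono fun t => ?_
  have h1 := h (Prod.mk t ⁻¹' {p : T × ℝ | Φ p ∈ A}) (measurable_prodMk_left hm2)
    fun x hx => hR (t, x) hx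
  exact h1

end MDW
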