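import Pool.Agent.MDW.WUniq

/-!
# MDW/GTail: tail of one increment of a Wiener path

PROOF. Let `s ≤ t`, `D = f t - f s`. `D` is Gaussian (`IsGaussianProcess.hasGaussianLaw_sub`),
mean
zero, variance `t - 2 s + s = t - s` (bilinearity of the covariance), so its law is
`gaussianReal 0 ⟨t - s, _⟩` (`HasGaussianLaw.map_eq_gaussianReal` or
`HasGaussianLaw.isGaussian_map` with `IsGaussian.eq_gaussianReal`). Chernoff:
`P(D ≥ x) ≤ exp(-λ x) E exp(λ D) = exp(-λ x + λ² v / 2)`, `v = t - s`, with `λ = x / v`: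
`P(D ≥ x) ≤ exp(-x²/(2v))` (`mgf_gaussianReal`, `ProbabilityTheory.measure_ge_le_exp_mul_mgf`; or
`HasSubgaussianMGF.measure_ge_le`); the same for `-D`. For `y = x²/(2v) ≥ 0`:
`exp(-y) ≤ 720 / y^6` because `y^6/720 ≤ exp y` (`Real.pow_div_factorial_le_exp`,
`Nat.factorial`).
So `P(|D| ≥ x) ≤ 2 * 720 * 64 v^6 / x^12 = 92160 v^6 / x^12`. If `v = 0` then `D = 0` almost
surely and the probability is zero since `x > 0`.
-/

open MeasureTheory ProbabilityTheory Filter Topology

namespace MDW

private theorem exp_tail {v x : ℝ} (hv : 0 < v) (hx : 0 < x) :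
    Real.exp (-(x ^ 2 / (2 * v))) ≤ 46080 * v ^ 6 / x ^ 12 := by
  have hy : 0 < x ^ 2 / (2 * v) := by positivity
  have h1 := Real.pow_div_factorial_le_exp _ hy.le 6
  have h2 : (0 : ℝ) < (x ^ 2 / (2 * v)) ^ 6 / (Nat.factorial 6 : ℝ) := by positivity
  rw [Real.exp_neg]
  refine (inv_anti₀ h2 h1).trans (le_of_eq ?_)
  have h3 : (Nat.factorial 6 : ℝ) = 720 := by norm_num [Nat.factorial]
  rw [h3]
  field_simp
  ring

private theorem one_side {ν : Measure C(unitInterval, ℝ)} [IsProbabilityMeasure ν]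
    {D : C(unitInterval, ℝ) → ℝ} {v : ℝ} (hv : 0 < v) {x : ℝ} (hx : 0 < x)
    (hD : AEMeasurable D ν) (hlaw : ν.map D = gaussianReal 0 v.toNNReal) :
    ν.real {f | x ≤ D f} ≤ 46080 * v ^ 6 / x ^ 12 := by
  have hint : Integrable (fun f => Real.exp (x / v * D f)) ν := by
    have h1 : Integrable (fun y => Real.exp (x / v * y)) (ν.map D) := by
      rw [hlaw]
      exact integrable_exp_mul_gaussianReal _
    exact (integrable_map_measure h1.aestronglyMeasurable hD).1 h1
  have hc := measure_ge_le_exp_mul_mgf (μ := ν) (X := D) (t := x / v) x (by positivity) hint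
  refine hc.trans ?_
  rw [mgf_gaussianReal hlaw, ← Real.exp_add, Real.coe_toNNReal _ hv.le]
  refine le_trans (le_of_eq ?_) (exp_tail hv hx)
  congr 1
  field_simp
  ring

theorem IsWiener.tail_incr {ν : Measure C(unitInterval, ℝ)} (h : IsWiener ν)
    {s t : unitInterval} (hst : s ≤ t) {x : ℝ} (hx : 0 < x) :
    ν.real {f | x ≤ |f t - f s|} ≤ 92160 * ((t : ℝ) - s) ^ 6 / x ^ 12 := by
  have hprob := h.isProbabilityMeasure
  have hs2 : MemLp (fun f : C(unitInterval, ℝ) => f s) 2 ν :=
    (h.gauss.hasGaussianLaw_eval s).memLp_two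
  have ht2 : MemLp (fun f : C(unitInterval, ℝ) => f t) 2 ν :=
    (h.gauss.hasGaussianLaw_eval t).memLp_two
  have hG : HasGaussianLaw (fun f : C(unitInterval, ℝ) => f t - f s) ν :=
    h.gauss.hasGaussianLaw_fun_sub
  have hmean : ∫ f, (f t - f s) ∂ν = 0 := by
    rw [integral_sub (ht2.integrable (by norm_num)) (hs2.integrable (by norm_num)),
      h.mean, h.mean, sub_zero]
  have hvar : Var[fun f : C(unitInterval, ℝ) => f t - f s; ν] = (t : ℝ) - s := by
    rw [variance_fun_sub ht2 hs2, ← covariance_self ht2.aemeasurable,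
      ← covariance_self hs2.aemeasurable, covariance_comm (fun f : C(unitInterval, ℝ) => f t)
        (fun f : C(unitInterval, ℝ) => f s), h.cov s t hst, h.cov t t le_rfl,
      h.cov s s le_rfl]
    ring
  have hlaw := hG.map_eq_gaussianReal
  rw [hmean, hvar] at hlaw
  have hv0 : 0 ≤ (t : ℝ) - s := sub_nonneg.2 hst
  generalize hvv : (t : ℝ) - s = v at *
  rcases hv0.eq_or_lt with hv | hv
  · have hst' : s = t := by
      apply Subtype.ext
      linarith
    have he : {f : C(unitInterval, ℝ) | x ≤ |f t - f s|} = ∅ := by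
      ext f
      rw [hst']
      simp [hx]
    rw [he]
    simp only [measureReal_empty]
    positivity
  · have hneg : ν.map (fun f : C(unitInterval, ℝ) => -(f t - f s))
        = gaussianReal 0 v.toNNReal := by
      have h1 := gaussianReal_map_neg (μ := 0) (v := v.toNNReal)
      rw [← hlaw, AEMeasurable.map_map_of_aemeasurable (by fun_prop) hG.aemeasurable] at h1
      rw [neg_zero] at h1
      exact h1
    have a1 := one_side hv hx hG.aemeasurable hlaw
    have a2 := one_side hv hx hG.aemeasurable.neg hneg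
    have hsub : {f : C(unitInterval, ℝ) | x ≤ |f t - f s|}
        ⊆ {f | x ≤ f t - f s} ∪ {f | x ≤ -(f t - f s)} := by
      intro f hf
      have hf' : x ≤ |f t - f s| := hf
      exact le_abs.1 hf'
    calc ν.real {f : C(unitInterval, ℝ) | x ≤ |f t - f s|}
        ≤ ν.real ({f | x ≤ f t - f s} ∪ {f | x ≤ -(f t - f s)}) := measureReal_mono hsub
      _ ≤ ν.real {f | x ≤ f t - f s} + ν.real {f | x ≤ -(f t - f s)} :=
          measureReal_union_le _ _
      _ ≤ 46080 * v ^ 6 / x ^ 12 + 46080 * v ^ 6 / x ^ 12 := add_le_add a1 a2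
      _ = 92160 * v ^ 6 / x ^ 12 := by ring

end MDW
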