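import Pool.Agent.MDW.ResCov

/-!
# MDW/Resam: the bridge on a window can be resampled independently

PROOFS. (1) `resample`: `ν = ν.map (fun f => outW f + brW f)` (`outW_add_brW`)
`= ((ν.map outW).prod (ν.map brW)).map (+)` (independence, `indep_out_br`)
`= (ν.prod ν).map (outW p.1 + brW p.2)` (`Measure.map_prod_map`, `Measure.map_map`;
`continuous_outW`, `continuous_brW`).
(2) `resample2`: for two Wiener measures, the map
`p ↦ (outW p.1.1 + brW p.2.1, outW p.1.2 + brW p.2.2)` sends
`(ν₁.prod ν₂).prod (ν₁.prod ν₂)` to `ν₁.prod ν₂`: by `Measure.prod_eq` it suffices to compute the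
mass of the preimage of a rectangle `A ×ˢ B`; by Tonelli (`Measure.prod_apply`, `lintegral_prod`)
it is
the product of `(ν₁.prod ν₁) {out + br ∈ A}` and `(ν₂.prod ν₂) {out + br ∈ B}`. (Or: rearrange
the four
factors by a measure preserving equivalence built from `Measure.prod_swap`, `prodAssoc`
(`MeasureTheory.measurePreserving_prodAssoc`) and use (1) twice; or use
`∫⁻` of products of indicator functions with `lintegral_lintegral_swap`. Or by independence: under
`(ν₁.prod ν₂).prod (ν₁.prod ν₂)` the four coordinates are independent.)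
-/

open MeasureTheory ProbabilityTheory Filter Topology

namespace MDW

theorem IsWiener.resample {ν : Measure C(unitInterval, ℝ)} (h : IsWiener ν)
    {a b : unitInterval} (hab : a < b) :
    (ν.prod ν).map (fun p => outW a b p.1 + brW a b p.2) = ν := by
  haveI := h.isProbabilityMeasure
  have hi := h.indep_out_br hab
  have ho : Measurable (outW a b) := (continuous_outW a b).measurable
  have hb : Measurable (brW a b) := (continuous_brW a b).measurable
  have hadd : Measurable fun q : C(unitInterval, ℝ) × C(unitInterval, ℝ) => q.1 + q.2 :=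
    (continuous_fst.add continuous_snd).measurable
  rw [indepFun_iff_map_prod_eq_prod_map_map ho.aemeasurable hb.aemeasurable] at hi
  have h1 : (ν.prod ν).map (fun p => outW a b p.1 + brW a b p.2) =
      ((ν.map (outW a b)).prod (ν.map (brW a b))).map (fun q => q.1 + q.2) := by
    rw [Measure.map_prod_map _ _ ho hb, Measure.map_map hadd (ho.prodMap hb)]
    rfl
  rw [h1, ← hi, Measure.map_map hadd (ho.prodMk hb)]
  have h2 : (fun q : C(unitInterval, ℝ) × C(unitInterval, ℝ) => q.1 + q.2) ∘
      (fun f => (outW a b f, brW a b f)) = id := by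
    funext f
    exact outW_add_brW a b f
  rw [h2, Measure.map_id]

theorem IsWiener.resample2 {ν₁ ν₂ : Measure C(unitInterval, ℝ)} (h₁ : IsWiener ν₁)
    (h₂ : IsWiener ν₂) {a b : unitInterval} (hab : a < b) :
    ((ν₁.prod ν₂).prod (ν₁.prod ν₂)).map
      (fun p => (outW a b p.1.1 + brW a b p.2.1, outW a b p.1.2 + brW a b p.2.2)) =
      ν₁.prod ν₂ := by
  haveI := h₁.isProbabilityMeasure
  haveI := h₂.isProbabilityMeasure
  have ho : Measurable (outW a b) := (continuous_outW a b).measurable
  have hb : Measurable (brW a b) := (continuous_brW a b).measurable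
  have hadd : Measurable fun q : C(unitInterval, ℝ) × C(unitInterval, ℝ) => q.1 + q.2 :=
    (continuous_fst.add continuous_snd).measurable
  have hm : Measurable fun p : C(unitInterval, ℝ) × C(unitInterval, ℝ) =>
      outW a b p.1 + brW a b p.2 := hadd.comp (ho.prodMap hb)
  have hT : Measurable fun p : (C(unitInterval, ℝ) × C(unitInterval, ℝ)) ×
      (C(unitInterval, ℝ) × C(unitInterval, ℝ)) =>
      (outW a b p.1.1 + brW a b p.2.1, outW a b p.1.2 + brW a b p.2.2) := by
    refine Measurable.prodMk ?_ ?_
    · exact hm.comp ((measurable_fst.comp measurable_fst).prodMk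
        (measurable_fst.comp measurable_snd))
    · exact hm.comp ((measurable_snd.comp measurable_fst).prodMk
        (measurable_snd.comp measurable_snd))
  have key : ∀ {ν : Measure C(unitInterval, ℝ)}, IsWiener ν → ∀ A : Set C(unitInterval, ℝ),
      MeasurableSet A →
      (Measurable fun x => ν {y | outW a b x + brW a b y ∈ A}) ∧
      ∫⁻ x, ν {y | outW a b x + brW a b y ∈ A} ∂ν = ν A := by
    intro ν h A hA
    haveI := h.isProbabilityMeasure
    have h1 : MeasurableSet {p : C(unitInterval, ℝ) × C(unitInterval, ℝ) |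
        outW a b p.1 + brW a b p.2 ∈ A} := hm hA
    refine ⟨measurable_measure_prodMk_left h1, ?_⟩
    have h2 := Measure.prod_apply (μ := ν) (ν := ν) h1
    have h3 : (ν.prod ν) {p : C(unitInterval, ℝ) × C(unitInterval, ℝ) |
        outW a b p.1 + brW a b p.2 ∈ A} = ν A := by
      conv_rhs => rw [← h.resample hab]
      rw [Measure.map_apply hm hA]
      rfl
    rw [← h3, h2]
    rfl
  symm
  refine Measure.prod_eq fun A B hA hB => ?_
  rw [Measure.map_apply hT (hA.prod hB), Measure.prod_apply (hT (hA.prod hB))]
  have h4 : ∀ x : C(unitInterval, ℝ) × C(unitInterval, ℝ),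
      (ν₁.prod ν₂) (Prod.mk x ⁻¹' ((fun p : (C(unitInterval, ℝ) × C(unitInterval, ℝ)) ×
      (C(unitInterval, ℝ) × C(unitInterval, ℝ)) =>
      (outW a b p.1.1 + brW a b p.2.1, outW a b p.1.2 + brW a b p.2.2)) ⁻¹' (A ×ˢ B))) =
      ν₁ {y | outW a b x.1 + brW a b y ∈ A} * ν₂ {y | outW a b x.2 + brW a b y ∈ B} := by
    intro x
    rw [← Measure.prod_prod]
    rfl
  simp only [h4]
  rw [lintegral_prod_mul (key h₁ A hA).1.aemeasurable (key h₂ B hB).1.aemeasurable,
    (key h₁ A hA).2, (key h₂ B hB).2]

end MDW
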