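import Pool.Agent.MDW.DetA
import Pool.Agent.MDW.DetC
import Pool.Agent.MDW.AbsW
import Pool.Agent.MDW.Resam

/-!
# MDW/Key: the two inequalities for the conditioned Brownian motion

`L = (ν₁.prod ν₂).map (mix ρ)` is the law of the correlated planar Brownian motion.

PROOF of `law_window`. `L` is the image of `(ν₁.prod ν₂).prod (ν₁.prod ν₂)` under
`(f, g) ↦ mix ρ (outW f.1 + brW g.1, outW f.2 + brW g.2)`: `resample2` and `Measure.map_map`
(`continuous_mix'`; continuous maps on products of second countable spaces are measurable).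
Hence for a measurable `H` and a measurable set `A` of paths:
`∫_{w : z + w ∈ A} H (z + w) dL = ∫_{p : vp z p.1 p.2 ∈ A} H (vp z p.1 p.2)` (`setIntegral_map` or
`integral_map` for the indicator), and the same for the masses (`Measure.map_apply`,
`map_measureReal_apply`).

PROOF of `keyA`: apply `absA` with `O = T = C × C`, `lam = π = ν₁.prod ν₂`, `θ = flp`
(`measurePreserving_flip`), `Rs = RS a b` (`measurableSet_RS`, `RS_flp`; the complement is
`{g | 1/2 ≤ ‖brW g.1‖ + ‖brW g.2‖}`), `G = GS ρ z a b E` (`measurableSet_GS`),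
`S = {p | vp p.1 p.2 ∈ QuadEnd E}` (measurable: `continuous_vp`, `measurableSet_quadEnd`),
`F p = PsiA ρ N j (vp p.1 p.2)` (`continuous_PsiA`), `a = tg N j`, `b = tg N (j+2)` (`tg_lt`).
Hypotheses: `h1` is `vp_mem_of_GS`, `h2` is `PsiA_big` with `GS_of_vp_mem`, `h3` is `PsiA_flp`.
PROOF of `keyB`: apply `absB` with `F = PsiB`, `U = Ups`, `r = |ρ|`, window
`a = tg N (N+j)`, `b = tg N (N+j+2)`: `PsiB_big`, `Ups_big`, `UpsB`.
-/

open MeasureTheory ProbabilityTheory Filter Topology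

namespace MDW

private theorem meas_phi (a b : unitInterval) :
    Measurable (fun p : (C(unitInterval, ℝ) × C(unitInterval, ℝ)) ×
      (C(unitInterval, ℝ) × C(unitInterval, ℝ)) =>
        (outW a b p.1.1 + brW a b p.2.1, outW a b p.1.2 + brW a b p.2.2)) := by
  have h1 := continuous_outW a b
  have h2 := continuous_brW a b
  refine Continuous.measurable ?_
  refine Continuous.prodMk ?_ ?_
  · exact (h1.comp (continuous_fst.comp continuous_fst)).add
      (h2.comp (continuous_fst.comp continuous_snd))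
  · exact (h1.comp (continuous_snd.comp continuous_fst)).add
      (h2.comp (continuous_snd.comp continuous_snd))

private theorem meas_T (z : ℝ × ℝ) :
    Measurable (fun w : C(unitInterval, ℝ × ℝ) => ContinuousMap.const unitInterval z + w) :=
  (continuous_const.add continuous_id).measurable

private theorem meas_vp (ρ : ℝ) (z : ℝ × ℝ) (a b : unitInterval) :
    Measurable (fun p : (C(unitInterval, ℝ) × C(unitInterval, ℝ)) ×
      (C(unitInterval, ℝ) × C(unitInterval, ℝ)) => vp ρ z a b p.1 p.2) :=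
  (continuous_vp ρ z a b).measurable

private theorem law_eq {ν₁ ν₂ : Measure C(unitInterval, ℝ)} (h₁ : IsWiener ν₁)
    (h₂ : IsWiener ν₂) (ρ : ℝ) (z : ℝ × ℝ) {a b : unitInterval} (hab : a < b) :
    ((ν₁.prod ν₂).map (mix ρ)).map (fun w => ContinuousMap.const unitInterval z + w) =
      ((ν₁.prod ν₂).prod (ν₁.prod ν₂)).map (fun p => vp ρ z a b p.1 p.2) := by
  have e := h₁.resample2 h₂ hab
  rw [← e, Measure.map_map (continuous_mix' ρ).measurable (meas_phi a b),
    Measure.map_map (meas_T z) ((continuous_mix' ρ).measurable.comp (meas_phi a b)), e]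
  rfl

theorem law_window {ν₁ ν₂ : Measure C(unitInterval, ℝ)} (h₁ : IsWiener ν₁) (h₂ : IsWiener ν₂)
    (ρ : ℝ) (z : ℝ × ℝ) {a b : unitInterval} (hab : a < b) {A : Set C(unitInterval, ℝ × ℝ)}
    (hA : MeasurableSet A) {H : C(unitInterval, ℝ × ℝ) → ℝ} (hH : Measurable H) :
    (∫ w in {w | ContinuousMap.const unitInterval z + w ∈ A},
        H (ContinuousMap.const unitInterval z + w) ∂((ν₁.prod ν₂).map (mix ρ)) =
      ∫ p in {p | vp ρ z a b p.1 p.2 ∈ A}, H (vp ρ z a b p.1 p.2)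
        ∂((ν₁.prod ν₂).prod (ν₁.prod ν₂))) ∧
    ((ν₁.prod ν₂).map (mix ρ)).real {w | ContinuousMap.const unitInterval z + w ∈ A} =
      ((ν₁.prod ν₂).prod (ν₁.prod ν₂)).real {p | vp ρ z a b p.1 p.2 ∈ A} := by
  have e := law_eq h₁ h₂ ρ z hab
  constructor
  · have i1 := setIntegral_map (μ := (ν₁.prod ν₂).map (mix ρ)) hA hH.aestronglyMeasurable
      (meas_T z).aemeasurable
    have i2 := setIntegral_map (μ := (ν₁.prod ν₂).prod (ν₁.prod ν₂)) hA
      hH.aestronglyMeasurable (meas_vp ρ z a b).aemeasurable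
    rw [e] at i1
    exact i1.symm.trans i2
  · have i1 := map_measureReal_apply (μ := (ν₁.prod ν₂).map (mix ρ)) (meas_T z) hA
    have i2 := map_measureReal_apply (μ := (ν₁.prod ν₂).prod (ν₁.prod ν₂))
      (meas_vp ρ z a b) hA
    rw [e] at i1
    exact i1.symm.trans i2

private theorem RS_compl (a b : unitInterval) :
    (RS a b)ᶜ = {g | 1 / 2 ≤ ‖brW a b g.1‖ + ‖brW a b g.2‖} := by
  ext g
  unfold RS
  simp only [Set.mem_compl_iff, Set.mem_ofPred_eq, not_lt]

theorem keyA {ν₁ ν₂ : Measure C(unitInterval, ℝ)} (h₁ : IsWiener ν₁) (h₂ : IsWiener ν₂)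
    {ρ : ℝ} (hρ : |ρ| ≤ 1) (z : ℝ × ℝ) {E : Set (ℝ × ℝ)} (hE : MeasurableSet E) {N j : ℕ}
    (hN : 0 < N) (hj : j + 2 ≤ N) {p : ℝ} (hp2 : p ≤ 1 / 2)
    (hp : (ν₁.prod ν₂).real {g | 1 / 2 ≤ ‖brW (tg N j) (tg N (j + 2)) g.1‖ +
      ‖brW (tg N j) (tg N (j + 2)) g.2‖} ≤ p) :
    |∫ w in {w | ContinuousMap.const unitInterval z + w ∈ QuadEnd E},
        PsiA ρ N j (ContinuousMap.const unitInterval z + w) ∂((ν₁.prod ν₂).map (mix ρ))| ≤
      2 * p * ((ν₁.prod ν₂).map (mix ρ)).real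
        {w | ContinuousMap.const unitInterval z + w ∈ QuadEnd E} := by
  have := h₁.isProbabilityMeasure
  have := h₂.isProbabilityMeasure
  have hab : tg N j < tg N (j + 2) := tg_lt hN (by omega) (by omega)
  have hQ := measurableSet_quadEnd hE
  have hl := law_window h₁ h₂ ρ z hab hQ (continuous_PsiA ρ N j).measurable
  rw [hl.1, hl.2]
  refine absA (ν₁.prod ν₂) (ν₁.prod ν₂) (θ := flp) (h₁.measurePreserving_flip h₂)
    (measurableSet_RS (tg N j) (tg N (j + 2))) (RS_flp _ _) ?_ hp2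
    (measurableSet_GS ρ z (tg N j) (tg N (j + 2)) hE) (meas_vp ρ z _ _ hQ)
    (F := fun p => PsiA ρ N j (vp ρ z (tg N j) (tg N (j + 2)) p.1 p.2))
    ((continuous_PsiA ρ N j).measurable.comp (meas_vp ρ z _ _))
    (fun x => abs_PsiA_le ρ N j _) ?_ ?_ ?_
  · rw [RS_compl]
    exact hp
  · intro f hf g hg
    exact vp_mem_of_GS hρ hab hf hg
  · intro x hx h0
    have hb := PsiA_big hN hj hx h0
    exact GS_of_vp_mem hab hx hb.1 hb.2
  · intro f g
    exact PsiA_flp hN hj f g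

theorem keyB {ν₁ ν₂ : Measure C(unitInterval, ℝ)} (h₁ : IsWiener ν₁) (h₂ : IsWiener ν₂)
    {ρ s : ℝ} (hρ : |ρ| ≤ 1) (hs : (s = 1 ∧ 0 < ρ) ∨ (s = -1 ∧ ρ < 0)) (z : ℝ × ℝ)
    {E : Set (ℝ × ℝ)} (hE : MeasurableSet E) {N j : ℕ} (hN : 0 < N) (hj : j + 2 ≤ N) {p : ℝ}
    (hp2 : p ≤ 1 / 2)
    (hp : (ν₁.prod ν₂).real {g | 1 / 2 ≤ ‖brW (tg N (N + j)) (tg N (N + j + 2)) g.1‖ +
      ‖brW (tg N (N + j)) (tg N (N + j + 2)) g.2‖} ≤ p) :
    |ρ| / 2 * (∫ w in {w | ContinuousMap.const unitInterval z + w ∈ QuadEnd E},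
        Ups N j (ContinuousMap.const unitInterval z + w) ∂((ν₁.prod ν₂).map (mix ρ))) +
      s * (∫ w in {w | ContinuousMap.const unitInterval z + w ∈ QuadEnd E},
        PsiB ρ N j (ContinuousMap.const unitInterval z + w) ∂((ν₁.prod ν₂).map (mix ρ))) ≤
      3 * p * ((ν₁.prod ν₂).map (mix ρ)).real
        {w | ContinuousMap.const unitInterval z + w ∈ QuadEnd E} := by
  have := h₁.isProbabilityMeasure
  have := h₂.isProbabilityMeasure
  have hab : tg N (N + j) < tg N (N + j + 2) := tg_lt hN (by omega) (by omega)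
  have hQ := measurableSet_quadEnd hE
  have hl := law_window h₁ h₂ ρ z hab hQ (continuous_PsiB ρ N j).measurable
  have hl2 := law_window h₁ h₂ ρ z hab hQ (continuous_Ups N j).measurable
  rw [hl.1, hl2.1, hl.2]
  refine absB (ν₁.prod ν₂) (ν₁.prod ν₂) (θ := flp) (h₁.measurePreserving_flip h₂)
    (measurableSet_RS (tg N (N + j)) (tg N (N + j + 2))) (RS_flp _ _) ?_ hp2
    (measurableSet_GS ρ z (tg N (N + j)) (tg N (N + j + 2)) hE) (meas_vp ρ z _ _ hQ)
    (F := fun p => PsiB ρ N j (vp ρ z (tg N (N + j)) (tg N (N + j + 2)) p.1 p.2))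
    (U := fun p => Ups N j (vp ρ z (tg N (N + j)) (tg N (N + j + 2)) p.1 p.2))
    ((continuous_PsiB ρ N j).measurable.comp (meas_vp ρ z _ _))
    (fun x => abs_PsiB_le ρ N j _)
    ((continuous_Ups N j).measurable.comp (meas_vp ρ z _ _))
    (fun x => Ups_nonneg N j _) (fun x => Ups_le_one N j _) ?_ ?_ ?_ (abs_nonneg ρ) hρ ?_ ?_
  · rw [RS_compl]
    exact hp
  · intro f hf g hg
    exact vp_mem_of_GS hρ hab hf hg
  · intro x hx h0
    have hb := PsiB_big hN hj hx h0
    exact GS_of_vp_mem hab hx hb.1 hb.2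
  · intro x hx h0
    have hb := Ups_big hN hj hx h0
    exact GS_of_vp_mem hab hx hb.1 hb.2
  · rcases hs with h | h
    · exact Or.inl h.1
    · exact Or.inr h.1
  · intro f g hg
    exact UpsB hρ hs hN hj f g hg

end MDW
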