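import Pool.Agent.MDW.PMeas

/-!
# MDW/WLaw: the law of a Brownian motion on path space is a Wiener measure

PROOFS. `exists_path`: let `W` be a Brownian motion. Put `g ω = ⟨fun t => W (tn t) ω, _⟩` if
`Continuous (fun t => W t ω)` and `g ω = 0` otherwise (`tn` is continuous, so the restriction is
continuous). Almost surely `g ω t = W (tn t) ω` for all `t`. Each `fun ω => g ω t` is a.e. equal
to
`W (tn t)`, which is a.e. measurable; so `g` is a.e. measurable by `aemeasurable_path`.
`IsWiener (P.map g)`: (gauss) for a finite set `J` the map `f ↦ (f t)_{t ∈ J}` has under `P.map g`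
the law of `ω ↦ (g ω t)_{t ∈ J}` under `P` (`AEMeasurable.map_map_of_aemeasurable`, the evaluation
is continuous, hence measurable), which is a.e. equal to `(W (tn t) ω)_t`, Gaussian
(`IsPreBrownianReal.isGaussianProcess`, `IsGaussianProcess.comp_right` with `tn`,
`IsGaussianProcess.congr`); (mean) `integral_map`, `IsPreBrownianReal.integral_eval`; (cov)
`covariance_map` or unfold the covariance, `IsPreBrownianReal.covariance_eval`
and `min s t = s`.
`exists_wiener`: let `g₁, g₂` be the paths of `W₁, W₂`. `B ω = mix ρ (g₁ ω, g₂ ω)` almost surely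
(`ContinuousMap.ext`), and `mix ρ` is continuous (hypothesis-free: prove it by
`ContinuousMap.continuous_of_continuous_uncurry`, or directly), so `B` is a.e. measurable.
`g₁, g₂` are independent: `IndepFun (fun ω t => W₁ t ω) (fun ω t => W₂ t ω) P` gives by
composition
with the measurable restriction `x ↦ (fun t => x (tn t))` the independence of
`fun ω t => W₁ (tn t) ω` and `fun ω t => W₂ (tn t) ω`, hence (a.e. equality, `IndepFun.congr`) of
`fun ω t => g₁ ω t`, `fun ω t => g₂ ω t` and by `indepFun_path` of `g₁, g₂`. So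
`P.map (g₁, g₂) = (P.map g₁).prod (P.map g₂)` (`indepFun_iff_map_prod_eq_prod_map_map`) and
`P.map B = (P.map (g₁, g₂)).map (mix ρ)` (`Measure.map_congr`, `Measure.map_map` in its a.e.
measurable version).
(The product measurable space on `C × C` is the Borel one because the factors are second
countable: `Prod.opensMeasurableSpace`/`Prod.borelSpace` instances, so continuous maps on the
product are measurable.)
-/

open MeasureTheory ProbabilityTheory Filter Topology
open scoped NNReal

namespace MDW

theorem continuous_mix (ρ : ℝ) : Continuous (mix ρ) := by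
  refine ContinuousMap.continuous_of_continuous_uncurry _ ?_
  show Continuous fun q : (C(unitInterval, ℝ) × C(unitInterval, ℝ)) × unitInterval =>
    (q.1.1 q.2, ρ * q.1.1 q.2 + √(1 - ρ ^ 2) * q.1.2 q.2)
  fun_prop

private theorem cont_tn : Continuous tn := by
  unfold tn
  fun_prop

private theorem meas_ev (t : unitInterval) : Measurable fun f : C(unitInterval, ℝ) => f t :=
  (continuous_eval_const t).measurable

theorem exists_path {Ω : Type} [MeasurableSpace Ω] {P : Measure Ω} {W : ℝ≥0 → Ω → ℝ}
    (hW : IsBrownianReal W P) :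
    ∃ g : Ω → C(unitInterval, ℝ), AEMeasurable g P ∧
      (∀ᵐ ω ∂P, ∀ t, g ω t = W (tn t) ω) ∧ IsWiener (P.map g) := by
  classical
  let g : Ω → C(unitInterval, ℝ) := fun ω =>
    if h : Continuous (fun t => W t ω) then ⟨fun t => W (tn t) ω, h.comp cont_tn⟩ else 0
  have hae : ∀ᵐ ω ∂P, ∀ t, g ω t = W (tn t) ω := by
    filter_upwards [hW.cont] with ω hω t
    have h1 : g ω = ⟨fun t => W (tn t) ω, hω.comp cont_tn⟩ := dif_pos hω
    rw [h1]
    rfl
  have hae1 : ∀ t, W (tn t) =ᵐ[P] fun ω => g ω t := fun t => by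
    filter_upwards [hae] with ω hω
    exact (hω t).symm
  have hm : AEMeasurable g P := aemeasurable_path fun t =>
    (hW.toIsPreBrownianReal.aemeasurable (tn t)).congr (hae1 t)
  refine ⟨g, hm, hae, ?_, ?_, ?_⟩
  · have h1 : IsGaussianProcess (fun (t : unitInterval) ω => g ω t) P :=
      (hW.toIsPreBrownianReal.isGaussianProcess.comp_right tn).congr hae1
    refine ⟨fun I => ⟨?_⟩⟩
    have h2 := (h1.hasGaussianLaw I).isGaussian_map
    have h3 : Measurable fun f : C(unitInterval, ℝ) => I.restrict (fun t => f t) :=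
      measurable_pi_lambda _ fun t => meas_ev t
    rw [AEMeasurable.map_map_of_aemeasurable h3.aemeasurable hm]
    exact h2
  · intro t
    rw [integral_map hm (meas_ev t).aestronglyMeasurable]
    rw [← integral_congr_ae (hae1 t)]
    exact hW.toIsPreBrownianReal.integral_eval (tn t)
  · intro s t hst
    rw [covariance_map_fun (meas_ev s).aestronglyMeasurable (meas_ev t).aestronglyMeasurable hm]
    have h1 : cov[fun ω => g ω s, fun ω => g ω t; P] = cov[W (tn s), W (tn t); P] := by
      unfold covariance
      rw [← integral_congr_ae (hae1 s), ← integral_congr_ae (hae1 t)]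
      refine integral_congr_ae ?_
      filter_upwards [hae1 s, hae1 t] with ω h2 h3
      rw [h2, h3]
    rw [h1, hW.toIsPreBrownianReal.covariance_eval]
    have h2 : min (tn s) (tn t) = tn s := min_eq_left (show (s : ℝ) ≤ t from hst)
    rw [h2]
    rfl

theorem IsCorrBM.exists_wiener {ρ : ℝ} {Ω : Type} [MeasurableSpace Ω] {P : Measure Ω}
    {B : Ω → C(unitInterval, ℝ × ℝ)} (h : IsCorrBM ρ P B) :
    ∃ ν₁ ν₂ : Measure C(unitInterval, ℝ), IsWiener ν₁ ∧ IsWiener ν₂ ∧ AEMeasurable B P ∧
      P.map B = (ν₁.prod ν₂).map (mix ρ) := by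
  obtain ⟨W₁, W₂, hW₁, hW₂, hi, hB⟩ := h
  obtain ⟨g₁, hm₁, hg₁, hν₁⟩ := exists_path hW₁
  obtain ⟨g₂, hm₂, hg₂, hν₂⟩ := exists_path hW₂
  have hP : IsProbabilityMeasure P := hW₁.toIsPreBrownianReal.isGaussianProcess.isProbabilityMeasure
  have hae : (fun ω => mix ρ (g₁ ω, g₂ ω)) =ᵐ[P] B := by
    filter_upwards [hB, hg₁, hg₂] with ω h1 h2 h3
    refine ContinuousMap.ext fun t => ?_
    rw [h1 t, ← h2 t, ← h3 t]
    rfl
  have hpair : AEMeasurable (fun ω => (g₁ ω, g₂ ω)) P := hm₁.prodMk hm₂
  have hmix : Measurable (mix ρ) := (continuous_mix ρ).measurable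
  refine ⟨_, _, hν₁, hν₂, (hmix.comp_aemeasurable hpair).congr hae, ?_⟩
  have hind : IndepFun g₁ g₂ P := by
    refine indepFun_path ?_
    have hφ : Measurable fun (x : ℝ≥0 → ℝ) (t : unitInterval) => x (tn t) :=
      measurable_pi_lambda _ fun t => measurable_pi_apply _
    have h1 := hi.comp hφ hφ
    refine h1.congr ?_ ?_
    · filter_upwards [hg₁] with ω h2
      exact funext fun t => (h2 t).symm
    · filter_upwards [hg₂] with ω h2
      exact funext fun t => (h2 t).symm
  rw [← Measure.map_congr hae, ← (indepFun_iff_map_prod_eq_prod_map_map hm₁ hm₂).1 hind]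
  exact (AEMeasurable.map_map_of_aemeasurable hmix.aemeasurable hpair).symm

end MDW
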