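import Pool.Agent.MDW.Key
import Pool.Agent.MDW.WLaw
import Pool.Agent.MDW.BTail

/-!
# MDW/KeyLim: the two inequalities for an excursion law

PROOFS. Let `μ` be an excursion law with `Ω, P, B, z, E`, and `ν₁, ν₂` from
`IsCorrBM.exists_wiener`.
Write `L = P.map B = (ν₁.prod ν₂).map (mix ρ)` (probability measures), `S k = {ω | z k + B ω ∈
QuadEnd (E k)}`,
`A k = {w | z k + w ∈ QuadEnd (E k)}` (measurable by `measurableSet_quadEnd`).
(1) `cond_integral`: for a bounded measurable `H` and `B` a.e. measurable: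
`∫ H (z + B ω) d(P[|S]) = (L.real A)⁻¹ * ∫_{w ∈ A} H (z + w) dL`, `P.real S = L.real A`. Indeed
`P[|S] = (P S)⁻¹ • P.restrict S` (`ProbabilityTheory.cond`), `integral_smul_measure`, and
`∫ ω in B ⁻¹' A, H (z + B ω) ∂P = ∫ w in A, H (z + w) ∂(P.map B)` (`setIntegral_map` in its a.e.
measurable
form, or `Measure.restrict_map_of_aemeasurable` and `integral_map`).
(2) `IsExcursionLaw.isProbabilityMeasure`: take `F = 1`: the conditioned measures are probability
measures (`cond_isProbabilityMeasure`; `P (S k) ≠ 0`, and finite), so `∫ 1 dμ = 1`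
(`tendsto_nhds_unique`); `∫ 1 dμ = μ.real univ`, so `μ univ = 1` (the value `∞` would give `0`).
(3) `limit_le`: if `F` is bounded continuous and `∫_{A k} F (z k + w) dL ≤ c * L.real (A k)` for
all `k`, then `∫ F dμ ≤ c`: divide by `L.real (A k) > 0`, use (1) and pass to the limit
(`le_of_tendsto'`).
(4) `excA`, `excB`: let `C` be the constant of `tail_br2`; the windows have the length `1/N`
(`tg_len`), so `p = C (1/N)^6` is admissible in `keyA`, `keyB` if `p ≤ 1/2`. Apply (3) with
`F = PsiA`, `F = -PsiA`, `c = 2p`, and with `F = |ρ|/2 * Ups + s * PsiB`, `c = 3p` (linearity of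
the
integral; bounded continuous functions are integrable for finite measures; `continuous_PsiA`,
`abs_PsiA_le`, … to build the `BoundedContinuousFunction`s by `ofNormedAddCommGroup`).
-/

open MeasureTheory ProbabilityTheory Filter Topology
open scoped BoundedContinuousFunction

namespace MDW

private lemma measurable_add_const (z : ℝ × ℝ) :
    Measurable (fun w : C(unitInterval, ℝ × ℝ) => ContinuousMap.const unitInterval z + w) :=
  (continuous_const.add continuous_id).measurable

theorem cond_integral {Ω : Type} [MeasurableSpace Ω] {P : Measure Ω} [IsProbabilityMeasure P]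
    {B : Ω → C(unitInterval, ℝ × ℝ)} (hB : AEMeasurable B P) (z : ℝ × ℝ)
    {A : Set C(unitInterval, ℝ × ℝ)} (hA : MeasurableSet A) {H : C(unitInterval, ℝ × ℝ) → ℝ}
    (hH : Measurable H) :
    ∫ ω, H (ContinuousMap.const unitInterval z + B ω)
        ∂(P[|{ω | ContinuousMap.const unitInterval z + B ω ∈ A}]) =
      ((P.map B).real {w | ContinuousMap.const unitInterval z + w ∈ A})⁻¹ *
        ∫ w in {w | ContinuousMap.const unitInterval z + w ∈ A},
          H (ContinuousMap.const unitInterval z + w) ∂(P.map B) := by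
  have hA' : MeasurableSet {w : C(unitInterval, ℝ × ℝ) |
      ContinuousMap.const unitInterval z + w ∈ A} := measurable_add_const z hA
  have hH' : Measurable (fun w : C(unitInterval, ℝ × ℝ) =>
      H (ContinuousMap.const unitInterval z + w)) := hH.comp (measurable_add_const z)
  rw [setIntegral_map hA' hH'.aestronglyMeasurable hB]
  rw [measureReal_def, Measure.map_apply_of_aemeasurable hB hA']
  rw [ProbabilityTheory.cond, integral_smul_measure, ENNReal.toReal_inv, smul_eq_mul]
  rfl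

theorem IsExcursionLaw.isProbabilityMeasure {ρ : ℝ} {μ : Measure C(unitInterval, ℝ × ℝ)}
    (h : IsExcursionLaw ρ μ) : IsProbabilityMeasure μ := by
  obtain ⟨Ω, mΩ, P, B, z, E, hB, -, -, -, -, hP, hF⟩ := h
  obtain ⟨W₁, W₂, hW₁, -, -, -⟩ := hB
  have : IsProbabilityMeasure P := hW₁.isGaussianProcess.isProbabilityMeasure
  have h1 := hF (BoundedContinuousFunction.const _ 1)
  have h2 : ∀ k : ℕ, ∫ ω, (BoundedContinuousFunction.const C(unitInterval, ℝ × ℝ) (1 : ℝ))
      (ContinuousMap.const unitInterval (z k) + B ω)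
      ∂(P[|{ω | ContinuousMap.const unitInterval (z k) + B ω ∈ QuadEnd (E k)}]) = 1 := by
    intro k
    have := cond_isProbabilityMeasure (hP k)
    simp
  rw [tendsto_congr h2] at h1
  have h3 : (1 : ℝ) = ∫ w, (BoundedContinuousFunction.const C(unitInterval, ℝ × ℝ) (1 : ℝ)) w ∂μ :=
    tendsto_nhds_unique tendsto_const_nhds h1
  simp only [BoundedContinuousFunction.const_apply, integral_const, smul_eq_mul, mul_one] at h3
  refine ⟨?_⟩
  rw [measureReal_def] at h3
  exact (ENNReal.toReal_eq_one_iff _).1 h3.symm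

/-- Passage to the limit for one bounded continuous function. -/
private theorem limit_le {ρ : ℝ} {μ : Measure C(unitInterval, ℝ × ℝ)} (h : IsExcursionLaw ρ μ)
    (F : C(unitInterval, ℝ × ℝ) →ᵇ ℝ) (c : ℝ)
    (hc : ∀ ν₁ ν₂ : Measure C(unitInterval, ℝ), IsWiener ν₁ → IsWiener ν₂ → ∀ (z : ℝ × ℝ)
      (E : Set (ℝ × ℝ)), MeasurableSet E →
      ∫ w in {w | ContinuousMap.const unitInterval z + w ∈ QuadEnd E},
        F (ContinuousMap.const unitInterval z + w) ∂((ν₁.prod ν₂).map (mix ρ)) ≤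
      c * ((ν₁.prod ν₂).map (mix ρ)).real
        {w | ContinuousMap.const unitInterval z + w ∈ QuadEnd E}) :
    ∫ w, F w ∂μ ≤ c := by
  obtain ⟨Ω, mΩ, P, B, z, E, hB, -, -, hE, -, hP, hF⟩ := h
  obtain ⟨ν₁, ν₂, h₁, h₂, hBm, hmap⟩ := hB.exists_wiener
  obtain ⟨W₁, W₂, hW₁, -, -, -⟩ := hB
  have : IsProbabilityMeasure P := hW₁.isGaussianProcess.isProbabilityMeasure
  refine le_of_tendsto' (hF F) fun k => ?_
  have hQ : MeasurableSet (QuadEnd (E k)) := measurableSet_quadEnd (hE k)
  rw [cond_integral hBm (z k) hQ F.continuous.measurable]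
  have hpos : 0 < (P.map B).real
      {w | ContinuousMap.const unitInterval (z k) + w ∈ QuadEnd (E k)} := by
    have hA' : MeasurableSet {w : C(unitInterval, ℝ × ℝ) |
      ContinuousMap.const unitInterval (z k) + w ∈ QuadEnd (E k)} :=
      measurable_add_const (z k) hQ
    rw [measureReal_def, Measure.map_apply_of_aemeasurable hBm hA']
    exact ENNReal.toReal_pos (hP k) (measure_ne_top _ _)
  have := hc ν₁ ν₂ h₁ h₂ (z k) (E k) (hE k)
  rw [← hmap] at this
  rw [inv_mul_le_iff₀ hpos, mul_comm]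
  exact this

private def bcf (f : C(unitInterval, ℝ × ℝ) → ℝ) (hf : Continuous f) (hb : ∀ w, |f w| ≤ 1) :
    C(unitInterval, ℝ × ℝ) →ᵇ ℝ :=
  BoundedContinuousFunction.ofNormedAddCommGroup f hf 1 (fun w => by simpa using hb w)

private lemma integrable_of_le_one {X : Type*} [MeasurableSpace X] {μ : Measure X}
    [IsFiniteMeasure μ] {f : X → ℝ} (hf : Measurable f) (hb : ∀ w, |f w| ≤ 1) :
    Integrable f μ :=
  Integrable.of_bound hf.aestronglyMeasurable 1 (ae_of_all _ fun w => by simpa using hb w)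

theorem excA_excB : ∃ C : ℝ, 0 < C ∧ ∀ (ρ : ℝ), |ρ| ≤ 1 → ∀ μ : Measure C(unitInterval, ℝ × ℝ),
    IsExcursionLaw ρ μ → ∀ N j : ℕ, 0 < N → j + 2 ≤ N → C * (1 / (N : ℝ)) ^ 6 ≤ 1 / 2 →
      |∫ w, PsiA ρ N j w ∂μ| ≤ 2 * (C * (1 / (N : ℝ)) ^ 6) ∧
      ∀ s : ℝ, ((s = 1 ∧ 0 < ρ) ∨ (s = -1 ∧ ρ < 0)) →
        |ρ| / 2 * (∫ w, Ups N j w ∂μ) + s * (∫ w, PsiB ρ N j w ∂μ) ≤
          3 * (C * (1 / (N : ℝ)) ^ 6) := by
  obtain ⟨C, hC, hT⟩ := tail_br2
  refine ⟨C, hC, ?_⟩
  intro ρ hρ μ hμ N j hN hj hp2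
  have hμp : IsProbabilityMeasure μ := hμ.isProbabilityMeasure
  have hA : ∀ ν₁ ν₂ : Measure C(unitInterval, ℝ), IsWiener ν₁ → IsWiener ν₂ →
      (ν₁.prod ν₂).real {g | 1 / 2 ≤ ‖brW (tg N j) (tg N (j + 2)) g.1‖ +
        ‖brW (tg N j) (tg N (j + 2)) g.2‖} ≤ C * (1 / (N : ℝ)) ^ 6 := by
    intro ν₁ ν₂ h₁ h₂
    have := hT ν₁ ν₂ h₁ h₂ (tg N j) (tg N (j + 2)) (tg_lt hN (by omega) (by omega))
    rwa [tg_len hN (by omega)] at this
  have hB : ∀ ν₁ ν₂ : Measure C(unitInterval, ℝ), IsWiener ν₁ → IsWiener ν₂ →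
      (ν₁.prod ν₂).real {g | 1 / 2 ≤ ‖brW (tg N (N + j)) (tg N (N + j + 2)) g.1‖ +
        ‖brW (tg N (N + j)) (tg N (N + j + 2)) g.2‖} ≤ C * (1 / (N : ℝ)) ^ 6 := by
    intro ν₁ ν₂ h₁ h₂
    have := hT ν₁ ν₂ h₁ h₂ (tg N (N + j)) (tg N (N + j + 2)) (tg_lt hN (by omega) (by omega))
    rwa [tg_len hN (by omega)] at this
  refine ⟨?_, ?_⟩
  · rw [abs_le]
    constructor
    · have h1 := limit_le hμ (-(bcf (PsiA ρ N j) (continuous_PsiA ρ N j) (abs_PsiA_le ρ N j)))
        (2 * (C * (1 / (N : ℝ)) ^ 6)) (by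
          intro ν₁ ν₂ h₁ h₂ z E hE
          have h2 := keyA h₁ h₂ hρ z hE hN hj hp2 (hA ν₁ ν₂ h₁ h₂)
          have h3 := (abs_le.1 h2).1
          simp only [BoundedContinuousFunction.coe_neg, Pi.neg_apply]
          rw [integral_neg]
          have h4 : ∀ w, (bcf (PsiA ρ N j) (continuous_PsiA ρ N j) (abs_PsiA_le ρ N j)) w =
            PsiA ρ N j w := fun w => rfl
          simp only [h4]
          linarith)
      have h5 : ∫ w, (-(bcf (PsiA ρ N j) (continuous_PsiA ρ N j) (abs_PsiA_le ρ N j))) w ∂μ =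
          -∫ w, PsiA ρ N j w ∂μ := by
        rw [← integral_neg]
        rfl
      rw [h5] at h1
      linarith
    · have h1 := limit_le hμ (bcf (PsiA ρ N j) (continuous_PsiA ρ N j) (abs_PsiA_le ρ N j))
        (2 * (C * (1 / (N : ℝ)) ^ 6)) (by
          intro ν₁ ν₂ h₁ h₂ z E hE
          have h2 := keyA h₁ h₂ hρ z hE hN hj hp2 (hA ν₁ ν₂ h₁ h₂)
          exact (abs_le.1 h2).2)
      exact h1
  · intro s hs
    have hs1 : |s| ≤ 1 := by
      rcases hs with ⟨h, -⟩ | ⟨h, -⟩ <;> simp [h]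
    have hUb : ∀ w, |Ups N j w| ≤ 1 := fun w => by
      rw [abs_of_nonneg (Ups_nonneg N j w)]
      exact Ups_le_one N j w
    have hcont : Continuous (fun w => |ρ| / 2 * Ups N j w + s * PsiB ρ N j w) :=
      (continuous_const.mul (continuous_Ups N j)).add
        (continuous_const.mul (continuous_PsiB ρ N j))
    have hbd : ∀ w, ‖|ρ| / 2 * Ups N j w + s * PsiB ρ N j w‖ ≤ 2 := by
      intro w
      rw [Real.norm_eq_abs]
      have e1 : |(|ρ| / 2 * Ups N j w)| ≤ 1 := by
        rw [abs_mul, abs_of_nonneg (by positivity : (0 : ℝ) ≤ |ρ| / 2)]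
        have := hUb w
        have h0 := abs_nonneg (Ups N j w)
        have h00 := abs_nonneg ρ
        nlinarith
      have e2 : |(s * PsiB ρ N j w)| ≤ 1 := by
        rw [abs_mul]
        exact mul_le_one₀ hs1 (abs_nonneg _) (abs_PsiB_le ρ N j w)
      have := abs_add_le (|ρ| / 2 * Ups N j w) (s * PsiB ρ N j w)
      linarith
    have hUi : ∀ (m : Measure C(unitInterval, ℝ × ℝ)) [IsFiniteMeasure m],
        Integrable (Ups N j) m := fun m _ =>
      integrable_of_le_one (continuous_Ups N j).measurable hUb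
    have hPi : ∀ (m : Measure C(unitInterval, ℝ × ℝ)) [IsFiniteMeasure m],
        Integrable (PsiB ρ N j) m := fun m _ =>
      integrable_of_le_one (continuous_PsiB ρ N j).measurable (abs_PsiB_le ρ N j)
    have h1 := limit_le hμ (BoundedContinuousFunction.ofNormedAddCommGroup
      (fun w => |ρ| / 2 * Ups N j w + s * PsiB ρ N j w) hcont 2 hbd)
      (3 * (C * (1 / (N : ℝ)) ^ 6)) (by
        intro ν₁ ν₂ h₁ h₂ z E hE
        have h2 := keyB h₁ h₂ hρ hs z hE hN hj hp2 (hB ν₁ ν₂ h₁ h₂)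
        have hν₁ : IsProbabilityMeasure ν₁ := h₁.gauss.isProbabilityMeasure
        have hν₂ : IsProbabilityMeasure ν₂ := h₂.gauss.isProbabilityMeasure
        refine le_trans (le_of_eq ?_) h2
        simp only [BoundedContinuousFunction.coe_ofNormedAddCommGroup]
        rw [integral_add, integral_const_mul, integral_const_mul]
        · exact (integrable_of_le_one ((continuous_Ups N j).measurable.comp
            (measurable_add_const z)) (fun w => hUb _)).const_mul _
        · exact (integrable_of_le_one ((continuous_PsiB ρ N j).measurable.comp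
            (measurable_add_const z)) (fun w => abs_PsiB_le ρ N j _)).const_mul _)
    refine le_trans (le_of_eq ?_) h1
    simp only [BoundedContinuousFunction.coe_ofNormedAddCommGroup]
    rw [integral_add, integral_const_mul, integral_const_mul]
    · exact (hUi μ).const_mul _
    · exact (hPi μ).const_mul _

end MDW
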