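import Pool.Agent.MDW.Defs

/-!
# MDW/Rot: the half turn preserves meanders

`rot n` is the involution `i ↦ i + n` (for `i < n`), `i ↦ i - n` (for `n ≤ i`) of `Fin (2n)`;
`rotP n σ = (rot n).trans (σ.trans (rot n))`, so `rotP n σ x = rot n (σ (rot n x))`.

PROOF of `isArch_rotP`. Write `r = rot n`, `r (r x) = x`. Involution and absence of fixed points
are immediate. Noncrossing: let `i < j < σ' i < σ' j` with `σ' = rotP n σ`. Put `a = r i`,
`b = r j`, so `σ a = r (σ' i)`, `σ b = r (σ' j)`. The map `r` preserves the cyclic order; by cases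
on which of the four values `i.val, j.val, (σ' i).val, (σ' j).val` are `< n` (they are increasing,
so there are five cases) one of the following chains holds (`omega`):
 (1) `a < b < σ a < σ b`: contradicts noncrossing for `(a, b)`;
 (2) `b < σ a < σ b < a`: noncrossing for the pair `(b, σ a)`, because `σ (σ a) = a`;
 (3) `σ a < σ b < a < b`: noncrossing for `(σ a, σ b)`;
 (4) `σ b < a < b < σ a`: noncrossing for `(σ b, a)`, because `σ (σ b) = b`.
(All four below `n` or all four at least `n`: case (1). Exactly `i` below `n`: `r i = i + n` is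
the largest: case (2). Exactly `i, j` below `n`: case (3). Exactly the first three below `n`:
case (4).)
`rotM_mem`: for the connectedness let `S` be nonempty and closed under both rotated matchings;
then `r '' S` (or `r ⁻¹' S`) is nonempty and closed under `M.1`, `M.2`, hence everything, hence
`S = univ`.
`rotM_rotM`: `r` is an involution. `sum_rotM`: `Finset.sum_bij'` or `Finset.sum_nbij'` with
`rotM n` on both sides, or `Finset.sum_involution`-free reindexing by the involution.
-/

open MeasureTheory ProbabilityTheory Filter Topology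

namespace MDW

theorem rot_rot (n : ℕ) (x : Fin (2 * n)) : rot n (rot n x) = x := by
  exact (rot n).left_inv x

private theorem rot_val (n : ℕ) (x : Fin (2 * n)) :
    (rot n x).val = if x.val < n then x.val + n else x.val - n := by
  by_cases h : x.val < n
  · rw [if_pos h]
    change ((if h : x.val < n then ⟨x.val + n, by omega⟩ else ⟨x.val - n, by omega⟩ :
      Fin (2 * n))).val = _
    rw [dif_pos h]
  · rw [if_neg h]
    change ((if h : x.val < n then ⟨x.val + n, by omega⟩ else ⟨x.val - n, by omega⟩ :
      Fin (2 * n))).val = _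
    rw [dif_neg h]

theorem isArch_rotP {n : ℕ} {σ : Equiv.Perm (Fin (2 * n))} (h : IsArch σ) :
    IsArch (rotP n σ) := by
  obtain ⟨h1, h2, h3⟩ := h
  refine ⟨fun i => ?_, fun i hi => ?_, fun i j hij hj hs => ?_⟩
  · change rot n (σ (rot n (rot n (σ (rot n i))))) = i
    rw [rot_rot, h1, rot_rot]
  · change rot n (σ (rot n i)) = i at hi
    apply h2 (rot n i)
    rw [← rot_rot n (σ (rot n i)), hi]
  · change j < rot n (σ (rot n i)) at hj
    change rot n (σ (rot n i)) < rot n (σ (rot n j)) at hs
    have e1 := rot_val n i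
    have e2 := rot_val n j
    have e3 := rot_val n (σ (rot n i))
    have e4 := rot_val n (σ (rot n j))
    have g1 := h1 (rot n i)
    have g2 := h1 (rot n j)
    have f1 := h3 (rot n i) (rot n j)
    have f2 := h3 (rot n j) (σ (rot n i))
    have f3 := h3 (σ (rot n i)) (σ (rot n j))
    have f4 := h3 (σ (rot n j)) (rot n i)
    rw [g1] at f2
    rw [g1, g2] at f3
    rw [g2] at f4
    generalize rot n i = a at *
    generalize rot n j = b at *
    generalize σ a = A at *
    generalize σ b = B at *
    generalize rot n A = A' at *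
    generalize rot n B = B' at *
    rw [Fin.lt_def] at hij hj hs
    simp only [Fin.lt_def] at f1 f2 f3 f4
    have ha := a.2
    have hb := b.2
    have hA := A.2
    have hB := B.2
    split_ifs at e1 e2 e3 e4 <;> omega

private theorem mem_m {n : ℕ} {M : Equiv.Perm (Fin (2 * n)) × Equiv.Perm (Fin (2 * n))} :
    M ∈ meanders n ↔ IsMeander M := by
  classical
  unfold meanders
  rw [Finset.mem_filter]
  exact ⟨fun h => h.2, fun h => ⟨Finset.mem_univ _, h⟩⟩

theorem rotM_mem {n : ℕ} {M : Equiv.Perm (Fin (2 * n)) × Equiv.Perm (Fin (2 * n))}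
    (h : M ∈ meanders n) : rotM n M ∈ meanders n := by
  have h' : IsMeander M := mem_m.1 h
  refine mem_m.2 ⟨isArch_rotP h'.1, isArch_rotP h'.2.1, fun S hS hc => ?_⟩
  have key : (fun x => rot n x) ⁻¹' S = Set.univ := by
    refine h'.2.2 _ ?_ fun x hx => ?_
    · obtain ⟨x, hx⟩ := hS
      refine ⟨rot n x, ?_⟩
      change rot n (rot n x) ∈ S
      rwa [rot_rot]
    · obtain ⟨h1, h2⟩ := hc (rot n x) hx
      change rot n (M.1 (rot n (rot n x))) ∈ S at h1
      change rot n (M.2 (rot n (rot n x))) ∈ S at h2
      rw [rot_rot] at h1 h2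
      exact ⟨h1, h2⟩
  refine Set.eq_univ_of_forall fun x => ?_
  have h1 : rot n x ∈ (fun x => rot n x) ⁻¹' S := by
    rw [key]
    exact Set.mem_univ _
  change rot n (rot n x) ∈ S at h1
  rwa [rot_rot] at h1

theorem rotM_rotM (n : ℕ) (M : Equiv.Perm (Fin (2 * n)) × Equiv.Perm (Fin (2 * n))) :
    rotM n (rotM n M) = M := by
  have key : ∀ σ : Equiv.Perm (Fin (2 * n)), rotP n (rotP n σ) = σ := by
    intro σ
    refine Equiv.ext fun x => ?_
    change rot n (rot n (σ (rot n (rot n x)))) = σ x
    rw [rot_rot, rot_rot]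
  exact Prod.ext (key M.1) (key M.2)

theorem sum_rotM (n : ℕ) (F : Equiv.Perm (Fin (2 * n)) × Equiv.Perm (Fin (2 * n)) → ℝ) :
    ∑ M ∈ meanders n, F (rotM n M) = ∑ M ∈ meanders n, F M := by
  exact Finset.sum_nbij' (rotM n) (rotM n) (fun M h => rotM_mem h) (fun M h => rotM_mem h)
    (fun M _ => rotM_rotM n M) (fun M _ => rotM_rotM n M) (fun M _ => rfl)

end MDW
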