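import Pool.Agent.MDW.RotPath
import Pool.Agent.MDW.Minm

/-!
# MDW/WalkRot: the half turn on the level of the paths on `[0,1]`

`pathOf a n σ t = a * H (2 n t)`, `H = linInt (2n) (height σ)`. Let `σ` be an arch system, `a ≥
0`,
`n ≥ 1`, and let `t ≤ 1/2`, `hf = 1/2`, `t' = 1/2 + t` be points of the unit interval. PROOFS. Put
`u = 2 n t ∈ [0, n]`. The substitution `x = 2 n s` maps `[hf, t']` onto `[n, n+u]` and `[t, hf]`
onto
`[u, n]`. If `a = 0` all paths are zero and everything is trivial. For `a > 0` let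
`m = mn (pathOf a n σ) hf t' / a`; by `mn_le` and `exists_mn` the number `m` is the minimum of
`H` on
`[n, n+u]`, so `rot_value` gives the first claim (multiply by `a`), and `rot_min` with `le_mn`,
`mn_le` gives the second one. `pathOf_one`: `H (2n) = height σ (2n) = 0` (`linInt_nat`,
`height_end`). `mn_half_one`: `H ≥ 0` (`linInt_ge`, `height_nonneg`) and the value `0` is attained
at `1`.
-/

open MeasureTheory ProbabilityTheory Filter Topology

namespace MDW

private theorem wr_apply (a : ℝ) (n : ℕ) (σ : Equiv.Perm (Fin (2 * n))) (t : unitInterval) :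
    pathOf a n σ t = a * linInt (2 * n) (height σ) (2 * n * t) := rfl

private theorem wr_pt {n : ℕ} (hn : 0 < n) {x : ℝ} (h0 : 0 ≤ x) (h1 : x ≤ 2 * n) :
    ∃ s : unitInterval, 2 * (n : ℝ) * s = x := by
  have hn' : (0 : ℝ) < 2 * n := by positivity
  refine ⟨⟨x / (2 * n), by positivity, by rw [div_le_one hn']; exact h1⟩, ?_⟩
  change 2 * (n : ℝ) * (x / (2 * n)) = x
  field_simp

private theorem wr_le {n : ℕ} (hn : 0 < n) {s t : unitInterval}
    (h : 2 * (n : ℝ) * s ≤ 2 * (n : ℝ) * t) : s ≤ t := by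
  have hn' : (0 : ℝ) < 2 * n := by positivity
  rw [← Subtype.coe_le_coe]
  exact le_of_mul_le_mul_left h hn'

private theorem wr_le' {n : ℕ} {s t : unitInterval} (h : s ≤ t) :
    2 * (n : ℝ) * s ≤ 2 * (n : ℝ) * t := by
  rw [← Subtype.coe_le_coe] at h
  exact mul_le_mul_of_nonneg_left h (by positivity)

private theorem wr_zero {n : ℕ} (σ : Equiv.Perm (Fin (2 * n))) (t : unitInterval) :
    pathOf 0 n σ t = 0 := by
  rw [wr_apply, zero_mul]

private theorem wr_mn_zero {n : ℕ} (σ : Equiv.Perm (Fin (2 * n))) {s t : unitInterval}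
    (h : s ≤ t) : mn (pathOf 0 n σ) s t = 0 := by
  obtain ⟨u, -, -, hu⟩ := exists_mn (f := pathOf 0 n σ) h
  rw [hu, wr_zero]

private theorem wr_key {n : ℕ} (hn : 0 < n) {a : ℝ} (ha : 0 < a) (σ : Equiv.Perm (Fin (2 * n)))
    {t t' hf : unitInterval} (hhf : (hf : ℝ) = 1 / 2) (ht : (t : ℝ) ≤ 1 / 2)
    (ht' : (t' : ℝ) = 1 / 2 + t) :
    (∀ x : ℝ, (n : ℝ) ≤ x → x ≤ n + 2 * n * t →
      mn (pathOf a n σ) hf t' / a ≤ linInt (2 * n) (height σ) x) ∧
    ∃ x : ℝ, (n : ℝ) ≤ x ∧ x ≤ n + 2 * n * t ∧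
      linInt (2 * n) (height σ) x = mn (pathOf a n σ) hf t' / a := by
  have hn' : (0 : ℝ) < n := by positivity
  have e1 : 2 * (n : ℝ) * hf = n := by rw [hhf]; ring
  have e2 : 2 * (n : ℝ) * t' = n + 2 * n * t := by rw [ht']; ring
  have e3 : 2 * (n : ℝ) * t ≤ n := by nlinarith
  have t0 : (0 : ℝ) ≤ t := t.2.1
  constructor
  · intro x h1 h2
    obtain ⟨s, hs⟩ := wr_pt hn (x := x) (by linarith) (by linarith)
    have h3 : hf ≤ s := wr_le hn (by rw [e1, hs]; exact h1)
    have h4 : s ≤ t' := wr_le hn (by rw [e2, hs]; exact h2)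
    have h5 := mn_le (f := pathOf a n σ) h3 h4
    rw [wr_apply, hs] at h5
    rw [div_le_iff₀ ha]
    linarith
  · have h1 : hf ≤ t' := by
      rw [← Subtype.coe_le_coe, hhf, ht']
      linarith
    obtain ⟨u, hu1, hu2, hu3⟩ := exists_mn (f := pathOf a n σ) h1
    refine ⟨2 * n * u, ?_, ?_, ?_⟩
    · exact e1.ge.trans (wr_le' hu1)
    · rw [← e2]
      exact wr_le' hu2
    · rw [hu3, wr_apply, mul_div_cancel_left₀ _ ha.ne']

theorem pathOf_rot {n : ℕ} (hn : 0 < n) {a : ℝ} (ha : 0 ≤ a) {σ : Equiv.Perm (Fin (2 * n))}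
    (h : IsArch σ) {t t' hf : unitInterval} (hhf : (hf : ℝ) = 1 / 2) (ht : (t : ℝ) ≤ 1 / 2)
    (ht' : (t' : ℝ) = 1 / 2 + t) :
    pathOf a n (rotP n σ) t =
      pathOf a n σ hf + pathOf a n σ t' - 2 * mn (pathOf a n σ) hf t' := by
  have t0 : (0 : ℝ) ≤ t := t.2.1
  have hle : hf ≤ t' := by
    rw [← Subtype.coe_le_coe, hhf, ht']
    linarith
  rcases ha.eq_or_lt with rfl | ha
  · rw [wr_zero, wr_zero, wr_zero, wr_mn_zero σ hle]
    ring
  · obtain ⟨k1, k2⟩ := wr_key hn ha σ hhf ht ht'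
    have hn' : (0 : ℝ) < n := by positivity
    have h1 := rot_value hn h (u := 2 * n * t) (by positivity) (by nlinarith) k1 k2
    have e1 : 2 * (n : ℝ) * hf = n := by rw [hhf]; ring
    have e2 : 2 * (n : ℝ) * t' = n + 2 * n * t := by rw [ht']; ring
    rw [wr_apply, wr_apply, wr_apply, e1, e2, h1]
    field_simp

theorem mn_pathOf_rot {n : ℕ} (hn : 0 < n) {a : ℝ} (ha : 0 ≤ a)
    {σ : Equiv.Perm (Fin (2 * n))} (h : IsArch σ) {t t' hf : unitInterval}
    (hhf : (hf : ℝ) = 1 / 2) (ht : (t : ℝ) ≤ 1 / 2) (ht' : (t' : ℝ) = 1 / 2 + t) :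
    mn (pathOf a n (rotP n σ)) t hf = pathOf a n σ hf - mn (pathOf a n σ) hf t' := by
  have t0 : (0 : ℝ) ≤ t := t.2.1
  have hle : hf ≤ t' := by
    rw [← Subtype.coe_le_coe, hhf, ht']
    linarith
  have hle2 : t ≤ hf := by
    rw [← Subtype.coe_le_coe, hhf]
    exact ht
  rcases ha.eq_or_lt with rfl | ha
  · rw [wr_zero, wr_mn_zero σ hle, wr_mn_zero _ hle2]
    ring
  · obtain ⟨k1, k2⟩ := wr_key hn ha σ hhf ht ht'
    have hn' : (0 : ℝ) < n := by positivity
    obtain ⟨r1, x, r2, r3, r4⟩ :=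
      rot_min hn h (u := 2 * n * t) (by positivity) (by nlinarith) k1 k2
    have e1 : 2 * (n : ℝ) * hf = n := by rw [hhf]; ring
    have e3 : a * (linInt (2 * n) (height σ) n - mn (pathOf a n σ) hf t' / a) =
        pathOf a n σ hf - mn (pathOf a n σ) hf t' := by
      rw [wr_apply, e1]
      field_simp
    rw [← e3]
    apply le_antisymm
    · have x0 : 0 ≤ x := le_trans (by positivity) r2
      obtain ⟨s, hs⟩ := wr_pt hn (x := x) x0 (by linarith)
      have h3 : t ≤ s := wr_le hn (by rw [hs]; exact r2)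
      have h4 : s ≤ hf := wr_le hn (by rw [e1, hs]; exact r3)
      have h5 := mn_le (f := pathOf a n (rotP n σ)) h3 h4
      rw [wr_apply, hs, r4] at h5
      exact h5
    · apply le_mn hle2
      intro s h1 h2
      rw [wr_apply]
      apply mul_le_mul_of_nonneg_left _ ha.le
      apply r1
      · exact wr_le' h1
      · exact (wr_le' h2).trans e1.le

theorem pathOf_one (a : ℝ) (n : ℕ) (σ : Equiv.Perm (Fin (2 * n))) : pathOf a n σ 1 = 0 := by
  have e : 2 * (n : ℝ) * ((1 : unitInterval) : ℝ) = ((2 * n : ℕ) : ℝ) := by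
    push_cast
    simp
  rw [wr_apply, e, linInt_nat _ le_rfl, height_end, mul_zero]

theorem mn_half_one {a : ℝ} (ha : 0 ≤ a) (n : ℕ) (σ : Equiv.Perm (Fin (2 * n)))
    (hf : unitInterval) : mn (pathOf a n σ) hf 1 = 0 := by
  apply le_antisymm
  · have h1 := mn_le (f := pathOf a n σ) (s := hf) (t := 1) (u := 1) unitInterval.le_one' le_rfl
    rw [pathOf_one] at h1
    exact h1
  · apply le_mn unitInterval.le_one'
    intro u _ _
    rw [wr_apply]
    apply mul_nonneg ha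
    have u0 : (0 : ℝ) ≤ u := u.2.1
    have u1 : (u : ℝ) ≤ 1 := u.2.2
    apply linInt_ge (i := 0) (j := 2 * n) _ (Nat.zero_le _) le_rfl
    · intro l _ _
      exact height_nonneg σ l
    · rw [Nat.cast_zero]
      positivity
    · push_cast
      nlinarith [Nat.cast_nonneg (α := ℝ) n]

end MDW
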