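import Pool.Agent.MDW.Func
import Pool.Agent.MDW.Rot
import Pool.Agent.MDW.WalkRot
import Pool.Agent.MDW.Grid

/-!
# MDW/LimInv: the limit laws are invariant under the half turn (tested on `PsiA`, `PsiB`)

PROOFS.
(1) `PA_eq_PB` (pure algebra): for `k ≤ N` let `X' k = X N + X (N+k) - 2 I k`,
`Y' k = Y N + Y (N+k) - 2 K k`, `J' k = X N - I k`, `M' k = Y N - K k`, and `X' N = X N`. Then
`sd (Y' - ρ X') j = sd (fun k => Y (N+k) - ρ X (N+k)) j - 2 sd K j + 2 ρ sd I j`,
`sd J' j = - sd I j`, `Y' j - M' (j+2) = Y (N+j) - 2 K j + K (j+2)`,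
`Y' (j+2) - M' (j+2) = Y (N+j+2) - K (j+2)`, `X' j`, `X' (j+2)` as they are,
`X' N + X' j - 2 J' j = X (N+j)`, `X' N + X' (j+2) - 2 J' (j+2) = X (N+j+2)`. Unfold `PA`, `PB`,
`sd`, rewrite the values, and compare the eight factors (the order of the factors is different, so
prove equality of the arguments first and finish with `ring`).
(2) `PsiB_walkPath`: `M ∈ meanders n`, `n ≥ 1`, `M' = rotM n M`. `fstC (walkPath a n M) = pathOf
a n M.1`
and `sndC (walkPath a n M) = pathOf a n M.2` (`rfl` or `ext; rfl`), also for `M'`, whose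
components are
`rotP n M.1`, `rotP n M.2`; `M.1`, `M.2` are arch systems. For `k ≤ N` the points `t = tg N k`,
`hf = tg N N`, `t' = tg N (N+k)` satisfy the hypotheses of `pathOf_rot` (`tg_val`: `k/(2N)`,
`1/2`,
`1/2 + k/(2N)`). So with `X = gv N (fstC w)`, `I k = gm N (fstC w) N (N+k)` etc. the relations of
(1)
hold by `pathOf_rot`, `mn_pathOf_rot`; `X' N = X N` follows from `pathOf_rot` with `k = N`,
`tg N (N+N) = 1` (`tg_last`, `two_mul`), `pathOf_one`, `mn_half_one`. Apply (1).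
(3) `avg_PsiA_eq`: by (2) and `sum_rotM` the averages of `PsiB` and of `PsiA` over the meanders of
order `n` are equal.
(4) `integral_PsiA_eq_PsiB`: `PsiA ρ N j` and `PsiB ρ N j` are bounded continuous functions
(`BoundedContinuousFunction.ofNormedAddCommGroup` with `continuous_PsiA`, `abs_PsiA_le`), so the
two
equal averages converge to `∫ PsiA` and `∫ PsiB`; the limits agree (`tendsto_nhds_unique`).
-/

open MeasureTheory ProbabilityTheory Filter Topology
open scoped BoundedContinuousFunction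

namespace MDW

theorem PA_eq_PB (ρ : ℝ) (X Y I K X' Y' J' M' : ℕ → ℝ) {N j : ℕ} (hj : j + 2 ≤ N)
    (hX : ∀ k ≤ N, X' k = X N + X (N + k) - 2 * I k)
    (hY : ∀ k ≤ N, Y' k = Y N + Y (N + k) - 2 * K k)
    (hJ : ∀ k ≤ N, J' k = X N - I k) (hM : ∀ k ≤ N, M' k = Y N - K k) (hN : X' N = X N) :
    PA ρ X' Y' J' M' N j = PB ρ X Y I K N j := by
  have x0 : X' j = X N + X (N + j) - 2 * I j := hX j (by omega)
  have x1 : X' (j + 1) = X N + X (N + (j + 1)) - 2 * I (j + 1) := hX (j + 1) (by omega)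
  have x2 : X' (j + 2) = X N + X (N + j + 2) - 2 * I (j + 2) := hX (j + 2) hj
  have y0 : Y' j = Y N + Y (N + j) - 2 * K j := hY j (by omega)
  have y1 : Y' (j + 1) = Y N + Y (N + (j + 1)) - 2 * K (j + 1) := hY (j + 1) (by omega)
  have y2 : Y' (j + 2) = Y N + Y (N + j + 2) - 2 * K (j + 2) := hY (j + 2) hj
  have j0 := hJ j (by omega)
  have j1 := hJ (j + 1) (by omega)
  have j2 := hJ (j + 2) hj
  have m2 := hM (j + 2) hj
  have ex : X (N + (j + 2)) = X (N + j + 2) := rfl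
  have ey : Y (N + (j + 2)) = Y (N + j + 2) := rfl
  unfold PA PB sd
  simp only [x0, x1, x2, y0, y1, y2, j0, j1, j2, m2, hN, ex, ey]
  refine congrArg₂ (· * ·) (congrArg₂ (· * ·) (congrArg cl ?_) (congrArg cl ?_))
    (congrArg₂ (· * ·) (congrArg₂ (· * ·) (congrArg₂ (· * ·) (congrArg₂ (· * ·)
      (congrArg₂ (· * ·) (congrArg ph ?_) (congrArg ph ?_)) rfl) rfl)
      (congrArg ph ?_)) (congrArg ph ?_)) <;> ring

theorem PsiB_walkPath {ρ a : ℝ} (ha : 0 ≤ a) {n N j : ℕ} (hn : 0 < n) (hN : 0 < N)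
    (hj : j + 2 ≤ N) {M : Equiv.Perm (Fin (2 * n)) × Equiv.Perm (Fin (2 * n))}
    (hM : M ∈ meanders n) :
    PsiB ρ N j (walkPath a n M) = PsiA ρ N j (walkPath a n (rotM n M)) := by
  have hM' : IsMeander M := by
    simp only [meanders, Finset.mem_filter] at hM
    exact hM.2
  have f1 : ∀ M : Equiv.Perm (Fin (2 * n)) × Equiv.Perm (Fin (2 * n)),
      fstC (walkPath a n M) = pathOf a n M.1 := fun M => ContinuousMap.ext fun t => rfl
  have f2 : ∀ M : Equiv.Perm (Fin (2 * n)) × Equiv.Perm (Fin (2 * n)),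
      sndC (walkPath a n M) = pathOf a n M.2 := fun M => ContinuousMap.ext fun t => rfl
  have hNr : (0 : ℝ) < N := by exact_mod_cast hN
  have hhf : ((tg N N : unitInterval) : ℝ) = 1 / 2 := tg_half hN
  have ht : ∀ k ≤ N, ((tg N k : unitInterval) : ℝ) ≤ 1 / 2 := by
    intro k hk
    rw [tg_val hN (by omega), div_le_div_iff₀ (by positivity) (by norm_num)]
    have : (k : ℝ) ≤ N := by exact_mod_cast hk
    linarith
  have ht' : ∀ k ≤ N, ((tg N (N + k) : unitInterval) : ℝ) = 1 / 2 + (tg N k : unitInterval) := by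
    intro k hk
    rw [tg_val hN (by omega), tg_val hN (by omega)]
    push_cast
    field_simp
  have key : ∀ σ : Equiv.Perm (Fin (2 * n)), IsArch σ →
      (∀ k ≤ N, gv N (pathOf a n (rotP n σ)) k = gv N (pathOf a n σ) N +
        gv N (pathOf a n σ) (N + k) - 2 * gm N (pathOf a n σ) N (N + k)) ∧
      (∀ k ≤ N, gm N (pathOf a n (rotP n σ)) k N =
        gv N (pathOf a n σ) N - gm N (pathOf a n σ) N (N + k)) ∧
      gv N (pathOf a n (rotP n σ)) N = gv N (pathOf a n σ) N := by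
    intro σ hσ
    have k1 : ∀ k ≤ N, gv N (pathOf a n (rotP n σ)) k = gv N (pathOf a n σ) N +
        gv N (pathOf a n σ) (N + k) - 2 * gm N (pathOf a n σ) N (N + k) :=
      fun k hk => pathOf_rot hn ha hσ hhf (ht k hk) (ht' k hk)
    refine ⟨k1, fun k hk => mn_pathOf_rot hn ha hσ hhf (ht k hk) (ht' k hk), ?_⟩
    rw [k1 N le_rfl]
    have e1 : gv N (pathOf a n σ) (N + N) = 0 := by
      unfold gv
      rw [← two_mul, tg_last hN]
      exact pathOf_one a n σ
    have e2 : gm N (pathOf a n σ) N (N + N) = 0 := by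
      unfold gm
      rw [← two_mul, tg_last hN]
      exact mn_half_one ha n σ _
    rw [e1, e2]
    ring
  obtain ⟨a1, a2, a3⟩ := key M.1 hM'.1
  obtain ⟨b1, b2, -⟩ := key M.2 hM'.2.1
  unfold PsiA PsiB
  rw [f1, f2, f1, f2]
  exact (PA_eq_PB ρ (gv N (pathOf a n M.1)) (gv N (pathOf a n M.2))
    (fun k => gm N (pathOf a n M.1) N (N + k)) (fun k => gm N (pathOf a n M.2) N (N + k))
    (gv N (pathOf a n (rotM n M).1)) (gv N (pathOf a n (rotM n M).2))
    (fun k => gm N (pathOf a n (rotM n M).1) k N) (fun k => gm N (pathOf a n (rotM n M).2) k N)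
    hj a1 b1 a2 b2 a3).symm

theorem avg_PsiA_eq {ρ a : ℝ} (ha : 0 ≤ a) {n N j : ℕ} (hn : 0 < n) (hN : 0 < N)
    (hj : j + 2 ≤ N) : meanderAvg a n (PsiA ρ N j) = meanderAvg a n (PsiB ρ N j) := by
  unfold meanderAvg
  congr 1
  rw [← sum_rotM n (fun M => PsiA ρ N j (walkPath a n M))]
  exact Finset.sum_congr rfl fun M hM => (PsiB_walkPath ha hn hN hj hM).symm

theorem integral_PsiA_eq_PsiB {ρ : ℝ} {μ : Measure C(unitInterval, ℝ × ℝ)} {n : ℕ → ℕ}
    {a : ℕ → ℝ} (hn : ∀ k, 0 < n k) (ha : ∀ k, 0 ≤ a k)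
    (h : ∀ F : C(unitInterval, ℝ × ℝ) →ᵇ ℝ,
      Tendsto (fun k : ℕ => meanderAvg (a k) (n k) F) atTop (𝓝 (∫ w, F w ∂μ)))
    {N j : ℕ} (hN : 0 < N) (hj : j + 2 ≤ N) :
    ∫ w, PsiA ρ N j w ∂μ = ∫ w, PsiB ρ N j w ∂μ := by
  have hA := h (BoundedContinuousFunction.ofNormedAddCommGroup (PsiA ρ N j)
    (continuous_PsiA ρ N j) 1 fun w => by
      rw [Real.norm_eq_abs]
      exact abs_PsiA_le ρ N j w)
  have hB := h (BoundedContinuousFunction.ofNormedAddCommGroup (PsiB ρ N j)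
    (continuous_PsiB ρ N j) 1 fun w => by
      rw [Real.norm_eq_abs]
      exact abs_PsiB_le ρ N j w)
  refine tendsto_nhds_unique hA (hB.congr fun k => ?_)
  exact (avg_PsiA_eq (ha k) (hn k) hN hj).symm

end MDW
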