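import Pool.Agent.MDW.Cnt

/-!
# MDW/LinI: linear interpolation, steps of the heights

`linInt m f x = f 0 + ∑ k < m, (f (k+1) - f k) * max 0 (min 1 (x - k))`.

PROOFS. `linInt_seg`: for `k ≤ x ≤ k+1`, `k < m`: the terms with index `< k` have clamp one
(`x - i ≥ 1`), the terms with index `> k` have clamp zero (`x - i ≤ 0`), the term `k` has clamp
`x - k`; split `Finset.range m` at `k` and `k+1` (`Finset.sum_range_succ`,
`Finset.sum_range_add_sum_Ico`-type lemmas), or induction on `m`: for `m` with `x ≤ m` adding the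
term `m` changes nothing; for the base case `m = k+1` use the telescoping sum
`Finset.sum_range_sub`. `linInt_nat`: from `linInt_seg` (or directly, also for `k = m`: all clamps
are one). `linInt_ge`: `x ∈ [i,j]`; if `i = j` then `x = i`, use `linInt_nat`; else pick the
natural number `k` with `i ≤ k < j`, `k ≤ x ≤ k+1` (`k = min ⌊x⌋₊ (j-1)`); the value is a convex
combination of `f k` and `f (k+1)`, both `≥ c`.
`height_step`: the set `{x | x < k+1 ≤ σ x}` minus `{x | x < k ≤ σ x}` is contained in `{x | x =
k}`,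
and the reverse difference in `{x | σ x = k}`; both have at most one element. `height_int`,
`cnt_int`: they are casts of natural numbers. `height_end`: `height σ m = 0` for `m` points
(no `σ x ≥ m`).
-/

open MeasureTheory ProbabilityTheory Filter Topology

namespace MDW

theorem linInt_seg {m k : ℕ} (f : ℕ → ℝ) (hk : k < m) {x : ℝ} (h0 : (k : ℝ) ≤ x)
    (h1 : x ≤ k + 1) : linInt m f x = (1 - (x - k)) * f k + (x - k) * f (k + 1) := by
  obtain ⟨d, rfl⟩ : ∃ d, m = k + 1 + d := ⟨m - (k + 1), by omega⟩
  clear hk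
  induction d with
  | zero =>
    unfold linInt
    rw [add_zero, Finset.sum_range_succ]
    have h2 : ∑ i ∈ Finset.range k, (f (i + 1) - f i) * max 0 (min 1 (x - (i : ℝ))) =
        f k - f 0 := by
      rw [← Finset.sum_range_sub]
      refine Finset.sum_congr rfl fun i hi => ?_
      have h3 : (i : ℝ) + 1 ≤ k := by exact_mod_cast Finset.mem_range.1 hi
      rw [min_eq_left (by linarith), max_eq_right zero_le_one, mul_one]
    rw [h2, min_eq_right (by linarith), max_eq_right (by linarith)]
    ring
  | succ d ih =>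
    have h2 : linInt (k + 1 + (d + 1)) f x = linInt (k + 1 + d) f x := by
      unfold linInt
      rw [← add_assoc, Finset.sum_range_succ]
      have h3 : (0 : ℝ) ≤ d := Nat.cast_nonneg d
      have h4 : ((k + 1 + d : ℕ) : ℝ) = k + 1 + d := by push_cast; ring
      have h5 : min 1 (x - ((k + 1 + d : ℕ) : ℝ)) ≤ 0 := by
        rw [h4]
        exact (min_le_right _ _).trans (by linarith)
      rw [max_eq_left h5, mul_zero, add_zero]
    rw [h2, ih]

theorem linInt_nat {m k : ℕ} (f : ℕ → ℝ) (hk : k ≤ m) : linInt m f k = f k := by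
  rcases hk.lt_or_eq with hk | rfl
  · rw [linInt_seg f hk le_rfl (by linarith)]
    ring
  · unfold linInt
    have h2 : ∑ i ∈ Finset.range k, (f (i + 1) - f i) * max 0 (min 1 ((k : ℝ) - (i : ℝ))) =
        f k - f 0 := by
      rw [← Finset.sum_range_sub]
      refine Finset.sum_congr rfl fun i hi => ?_
      have h3 : (i : ℝ) + 1 ≤ k := by exact_mod_cast Finset.mem_range.1 hi
      rw [min_eq_left (by linarith), max_eq_right zero_le_one, mul_one]
    rw [h2]
    ring

theorem linInt_ge {m i j : ℕ} (f : ℕ → ℝ) (hij : i ≤ j) (hj : j ≤ m) {c : ℝ}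
    (hc : ∀ l, i ≤ l → l ≤ j → c ≤ f l) {x : ℝ} (h0 : (i : ℝ) ≤ x) (h1 : x ≤ j) :
    c ≤ linInt m f x := by
  rcases hij.lt_or_eq with hij | rfl
  · obtain ⟨k, hik, hkj, hk0, hk1⟩ : ∃ k : ℕ, i ≤ k ∧ k < j ∧ (k : ℝ) ≤ x ∧ x ≤ k + 1 := by
      have hx : (0 : ℝ) ≤ x := (Nat.cast_nonneg i).trans h0
      by_cases h2 : ⌊x⌋₊ < j
      · exact ⟨⌊x⌋₊, Nat.le_floor h0, h2, Nat.floor_le hx, (Nat.lt_floor_add_one x).le⟩
      · have h3 : (j : ℝ) ≤ x := (Nat.cast_le.2 (not_lt.1 h2)).trans (Nat.floor_le hx)
        have h4 : ((j - 1 : ℕ) : ℝ) = j - 1 := by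
          rw [Nat.cast_sub (by omega)]
          simp
        refine ⟨j - 1, by omega, by omega, ?_, ?_⟩
        · rw [h4]
          linarith
        · rw [h4]
          linarith
    rw [linInt_seg f (hkj.trans_le hj) hk0 hk1]
    have h5 := hc k hik hkj.le
    have h6 := hc (k + 1) (by omega) (by omega)
    nlinarith
  · have h2 : x = i := le_antisymm h1 h0
    rw [h2, linInt_nat f hj]
    exact hc i le_rfl le_rfl

theorem continuous_linInt (m : ℕ) (f : ℕ → ℝ) : Continuous (linInt m f) := by
  unfold linInt
  fun_prop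

theorem height_step {m : ℕ} (σ : Equiv.Perm (Fin m)) (k : ℕ) :
    |height σ (k + 1) - height σ k| ≤ 1 := by
  have e1 : ((Finset.univ.filter fun x : Fin m => x.val = k).card : ℝ) ≤ 1 := by
    have : (Finset.univ.filter fun x : Fin m => x.val = k).card ≤ 1 := by
      refine Finset.card_le_one.2 fun a ha b hb => ?_
      simp only [Finset.mem_filter, Finset.mem_univ, true_and] at ha hb
      exact Fin.ext (ha.trans hb.symm)
    exact_mod_cast this
  have e2 : ((Finset.univ.filter fun x : Fin m => (σ x).val = k).card : ℝ) ≤ 1 := by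
    have : (Finset.univ.filter fun x : Fin m => (σ x).val = k).card ≤ 1 := by
      refine Finset.card_le_one.2 fun a ha b hb => ?_
      simp only [Finset.mem_filter, Finset.mem_univ, true_and] at ha hb
      exact σ.injective (Fin.ext (ha.trans hb.symm))
    exact_mod_cast this
  have e3 : (Finset.univ.filter fun i : Fin m => i.val < k + 1 ∧ k + 1 ≤ (σ i).val).card ≤
      (Finset.univ.filter fun i : Fin m => i.val < k ∧ k ≤ (σ i).val).card +
        (Finset.univ.filter fun x : Fin m => x.val = k).card := by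
    refine le_trans (Finset.card_le_card ?_) (Finset.card_union_le _ _)
    intro x hx
    simp only [Finset.mem_filter, Finset.mem_univ, true_and, Finset.mem_union] at hx ⊢
    omega
  have e4 : (Finset.univ.filter fun i : Fin m => i.val < k ∧ k ≤ (σ i).val).card ≤
      (Finset.univ.filter fun i : Fin m => i.val < k + 1 ∧ k + 1 ≤ (σ i).val).card +
        (Finset.univ.filter fun x : Fin m => (σ x).val = k).card := by
    refine le_trans (Finset.card_le_card ?_) (Finset.card_union_le _ _)
    intro x hx
    simp only [Finset.mem_filter, Finset.mem_univ, true_and, Finset.mem_union] at hx ⊢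
    omega
  have e5 : height σ (k + 1) ≤ height σ k +
      ((Finset.univ.filter fun x : Fin m => x.val = k).card : ℝ) := by
    unfold height
    exact_mod_cast e3
  have e6 : height σ k ≤ height σ (k + 1) +
      ((Finset.univ.filter fun x : Fin m => (σ x).val = k).card : ℝ) := by
    unfold height
    exact_mod_cast e4
  rw [abs_le]
  constructor <;> linarith

theorem height_int {m : ℕ} (σ : Equiv.Perm (Fin m)) (k : ℕ) : ∃ z : ℕ, height σ k = z := by
  exact ⟨_, rfl⟩

theorem cnt_int {m : ℕ} (σ : Equiv.Perm (Fin m)) (i j : ℕ) : ∃ z : ℕ, cnt σ i j = z := by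
  exact ⟨_, rfl⟩

theorem height_end {m : ℕ} (σ : Equiv.Perm (Fin m)) : height σ m = 0 := by
  unfold height
  rw [Nat.cast_eq_zero, Finset.card_eq_zero, Finset.filter_eq_empty_iff]
  intro x _ h
  have := (σ x).isLt
  omega

end MDW
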