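import Pool.Agent.MDW.Defs

/-!
# MDW/PMeas: the Borel sigma algebra of the path space is generated by the evaluations

`C(unitInterval, ℝ)` has the sup metric (complete, separable: instances exist in Mathlib, see
`Mathlib/Topology/ContinuousMap/SecondCountableSpace.lean`), hence is a Polish space; its
measurable space is `borel` (Defs.lean), `BorelSpace` is an instance.

PROOFS. Let `D` be a countable dense subset of `unitInterval`
(`TopologicalSpace.exists_countable_dense`
or `denseSeq`), `r : C(unitInterval, ℝ) → (D → ℝ)` the restriction. It is continuous
(`continuous_pi`, evaluations are continuous) and injective (two continuous functions equal on a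
dense set are equal, `Continuous.ext_on`). By the Lusin-Souslin theorem
(`Continuous.measurableEmbedding`)
`r` is a measurable embedding; so `Measurable g ↔ Measurable (r ∘ g)`
(`MeasurableEmbedding.measurable_comp_iff`) and `AEMeasurable g P ↔ AEMeasurable (r ∘ g) P`
(`MeasurableEmbedding.aemeasurable_comp_iff` or with `aemeasurable_map_iff`), and
`measurable_pi_iff`,
`aemeasurable_pi_iff` (countable index) reduce to the coordinates.
`comap_coe_eq`: `≤` because each evaluation is continuous, hence measurable; `≥` by the measurable
embedding: a Borel set `A` is `r ⁻¹' (B)` with `B` measurable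
(`MeasurableEmbedding.measurableSet_image`,
`A = r ⁻¹' (r '' A)`), and `r` factors through the coercion. `indepFun_path`: `IndepFun` is
independence of the comap sigma algebras; by `comap_coe_eq` and `MeasurableSpace.comap_comp` those
of `g` and of `fun ω t => g ω t` agree. `ext_of_fdd`: two finite measures on the path space with
the same
finite dimensional marginals are equal: map them to `(unitInterval → ℝ)` by the coercion; there
they agree by `MeasureTheory.IsProjectiveLimit.unique` (both are projective limits of the family
of the marginals) or by the pi system of measurable cylinders; then return by `comap_coe_eq`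
(every
measurable set of the path space is a preimage of a measurable set of `unitInterval → ℝ`).
-/

open MeasureTheory ProbabilityTheory Filter Topology

namespace MDW

private noncomputable def rr (f : C(unitInterval, ℝ)) (n : ℕ) : ℝ :=
  f (TopologicalSpace.denseSeq unitInterval n)

private theorem rr_emb : MeasurableEmbedding rr := by
  refine Continuous.measurableEmbedding ?_ ?_
  · exact continuous_pi fun n => ContinuousEvalConst.continuous_eval_const _
  · intro f g h
    refine ContinuousMap.ext fun t => ?_
    refine congrFun (Continuous.ext_on (TopologicalSpace.denseRange_denseSeq unitInterval)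
      f.continuous g.continuous ?_) t
    rintro _ ⟨n, rfl⟩
    exact congrFun h n

private theorem measurable_ev (t : unitInterval) :
    Measurable fun f : C(unitInterval, ℝ) => f t :=
  (ContinuousEvalConst.continuous_eval_const t).measurable

private theorem measurable_coe :
    Measurable fun (f : C(unitInterval, ℝ)) (t : unitInterval) => f t :=
  measurable_pi_iff.2 measurable_ev

theorem measurable_path_iff {Ω : Type*} [MeasurableSpace Ω] {g : Ω → C(unitInterval, ℝ)} :
    Measurable g ↔ ∀ t, Measurable (fun ω => g ω t) := by
  constructor
  · intro h t
    exact (measurable_ev t).comp h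
  · intro h
    exact rr_emb.measurable_comp_iff.1 (measurable_pi_iff.2 fun n => h _)

theorem aemeasurable_path {Ω : Type*} [MeasurableSpace Ω] {P : Measure Ω}
    {g : Ω → C(unitInterval, ℝ)} (h : ∀ t, AEMeasurable (fun ω => g ω t) P) :
    AEMeasurable g P :=
  rr_emb.aemeasurable_comp_iff.1 (aemeasurable_pi_iff.2 fun _ => h _)

private theorem exists_preimage {A : Set C(unitInterval, ℝ)} (hA : MeasurableSet A) :
    ∃ B : Set (unitInterval → ℝ), MeasurableSet B ∧
      (fun (f : C(unitInterval, ℝ)) (t : unitInterval) => f t) ⁻¹' B = A := by
  have h1 : Measurable fun (F : unitInterval → ℝ) (n : ℕ) =>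
      F (TopologicalSpace.denseSeq unitInterval n) :=
    measurable_pi_iff.2 fun n => measurable_pi_apply _
  refine ⟨_, h1 (rr_emb.measurableSet_image.2 hA), ?_⟩
  exact Set.preimage_image_eq A rr_emb.injective

theorem comap_coe_eq :
    MeasurableSpace.comap (fun (f : C(unitInterval, ℝ)) (t : unitInterval) => f t)
      MeasurableSpace.pi = (inferInstance : MeasurableSpace C(unitInterval, ℝ)) := by
  refine le_antisymm measurable_coe.comap_le fun A hA => ?_
  obtain ⟨B, hB, h⟩ := exists_preimage hA
  exact ⟨B, hB, h⟩

theorem indepFun_path {Ω : Type*} [MeasurableSpace Ω] {P : Measure Ω}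
    {g h : Ω → C(unitInterval, ℝ)}
    (H : IndepFun (fun ω t => g ω t) (fun ω t => h ω t) P) : IndepFun g h P := by
  rw [IndepFun_iff] at H ⊢
  have key : ∀ (g : Ω → C(unitInterval, ℝ)) (A : Set Ω),
      MeasurableSet[MeasurableSpace.comap g inferInstance] A →
      MeasurableSet[MeasurableSpace.comap (fun ω t => g ω t) MeasurableSpace.pi] A := by
    rintro g _ ⟨A, hA, rfl⟩
    obtain ⟨B, hB, rfl⟩ := exists_preimage hA
    exact ⟨B, hB, rfl⟩
  exact fun A B hA hB => H A B (key g A hA) (key h B hB)

theorem ext_of_fdd {ν ν' : Measure C(unitInterval, ℝ)} [IsFiniteMeasure ν] [IsFiniteMeasure ν']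
    (h : ∀ J : Finset unitInterval,
      ν.map (fun f (t : J) => f t) = ν'.map (fun f (t : J) => f t)) : ν = ν' := by
  have key : ∀ (ν : Measure C(unitInterval, ℝ)) (J : Finset unitInterval),
      (ν.map (fun f (t : unitInterval) => f t)).map J.restrict =
        ν.map (fun f (t : J) => f t) := fun ν J => by
    rw [Measure.map_map (Finset.measurable_restrict J) measurable_coe]
    rfl
  have h1 : ν.map (fun f (t : unitInterval) => f t) =
      ν'.map (fun f (t : unitInterval) => f t) := by
    refine IsProjectiveLimit.unique (P := fun J => ν.map (fun f (t : J) => f t))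
      (fun J => key ν J) fun J => ?_
    exact (key ν' J).trans (h J).symm
  refine Measure.ext fun A hA => ?_
  obtain ⟨B, hB, rfl⟩ := exists_preimage hA
  rw [← Measure.map_apply measurable_coe hB, ← Measure.map_apply measurable_coe hB, h1]

end MDW
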