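import Pool.Agent.MDW.WUniq
import Pool.Agent.MDW.Win

/-!
# MDW/ResCov: the outer part and the bridge part of a Wiener path are independent

PROOFS. (1) `cov_out_br`: under a Wiener measure the variables `outW a b f s` and `brW a b f t`
are
uncorrelated, for `a < b` and all `s, t`. All evaluations are in `L²` (Gaussian) with covariance
`min s t`. If `t ≤ a` or `b ≤ t` then `brW a b f t = 0`. Let `a ≤ t ≤ b`, `λ = (t-a)/(b-a)`, so
`brW f t = f t - (1-λ) f a - λ f b`. For `s ≤ a` (then `outW f s = f s`):
`cov = s - (1-λ) s - λ s = 0`. For `s ≥ b`: `cov = t - (1-λ) a - λ b = 0` by the choice of `λ`.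
For `a ≤ s ≤ b` the variable `outW f s` is a linear combination of `f a` and `f b`, the two
previous cases with `s = a` and `s = b`. Use bilinearity (`covariance_add_left`,
`covariance_sub_left`,
`covariance_const_mul_left`, … or `covariance_fun_sub_right` etc.).
(2) `indep_out_br`: the process indexed by `unitInterval ⊕ unitInterval`,
`Sum.elim (fun s f => outW a b f s) (fun t f => brW a b f t)`, is Gaussian by
`IsGaussianProcess.of_isGaussianProcess` (every value is a fixed linear combination of at most
five
evaluations: `f (min s a), f (max s b), f b, f a` and `f t`), so by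
`IsGaussianProcess.indepFun_of_covariance_eq_zero` and (1) the two processes are independent, and
by `indepFun_path` the path valued variables `outW a b` and `brW a b` are independent under `ν`.
-/

open MeasureTheory ProbabilityTheory Filter Topology

namespace MDW

private theorem l2_ev {ν : Measure C(unitInterval, ℝ)} (h : IsWiener ν) (t : unitInterval) :
    MemLp (fun f : C(unitInterval, ℝ) => f t) 2 ν := (h.gauss.hasGaussianLaw_eval t).memLp_two

private theorem cov_min {ν : Measure C(unitInterval, ℝ)} (h : IsWiener ν) (s t : unitInterval) :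
    cov[fun f : C(unitInterval, ℝ) => f s, fun f => f t; ν] = min (s : ℝ) (t : ℝ) := by
  rcases le_total s t with hst | hst
  · have hst' : (s : ℝ) ≤ t := hst
    rw [h.cov s t hst, min_eq_left hst']
  · have hst' : (t : ℝ) ≤ s := hst
    rw [covariance_comm, h.cov t s hst, min_eq_right hst']

private theorem outW_eq (a b : unitInterval) (f : C(unitInterval, ℝ)) (t : unitInterval) :
    outW a b f t = f (min t a) + (f (max t b) - f b) + (f b - f a) * rp a b t := rfl

private theorem l2_br {ν : Measure C(unitInterval, ℝ)} (h : IsWiener ν) (a b t : unitInterval) :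
    MemLp (fun f : C(unitInterval, ℝ) => brW a b f t) 2 ν := by
  have h1 : (fun f : C(unitInterval, ℝ) => brW a b f t) = fun f : C(unitInterval, ℝ) =>
      f t - (f (min t a) + (f (max t b) - f b) + (f b - f a) * rp a b t) := by
    funext f
    rw [brW_apply, outW_eq]
  rw [h1]
  exact (l2_ev h t).sub (((l2_ev h _).add ((l2_ev h _).sub (l2_ev h _))).add
    (((l2_ev h _).sub (l2_ev h _)).mul_const _))

private theorem cov_ev_br {ν : Measure C(unitInterval, ℝ)} (h : IsWiener ν)
    {a b : unitInterval} (hab : a < b) (u t : unitInterval) (hu : u ≤ a ∨ b ≤ u) :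
    cov[fun f : C(unitInterval, ℝ) => f u, fun f => brW a b f t; ν] = 0 := by
  have hp : IsProbabilityMeasure ν := h.isProbabilityMeasure
  rcases le_total t a with hta | hta
  · have h1 : (fun f : C(unitInterval, ℝ) => brW a b f t) = fun _ => 0 := by
      funext f; exact brW_of_le hab hta f
    rw [h1]
    exact covariance_const_right 0
  rcases le_total b t with htb | htb
  · have h1 : (fun f : C(unitInterval, ℝ) => brW a b f t) = fun _ => 0 := by
      funext f; exact brW_of_ge hab htb f
    rw [h1]
    exact covariance_const_right 0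
  have hba : (0 : ℝ) < (b : ℝ) - a := sub_pos.2 hab
  obtain ⟨l, hl⟩ : ∃ l : ℝ, l = ((t : ℝ) - a) / ((b : ℝ) - a) := ⟨_, rfl⟩
  have h1 : (fun f : C(unitInterval, ℝ) => brW a b f t) = fun f : C(unitInterval, ℝ) =>
      (f t - (1 - l) * f a) - l * f b := by
    funext f
    rw [brW_apply, outW_mid hab hta htb, ← hl]
    ring
  have hl2 : l * ((b : ℝ) - a) = (t : ℝ) - a := by
    rw [hl, div_mul_cancel₀ _ hba.ne']
  have hm : MemLp (fun f : C(unitInterval, ℝ) => f t - (1 - l) * f a) 2 ν :=
    (l2_ev h t).sub ((l2_ev h a).const_mul _)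
  rw [h1, covariance_fun_sub_right (l2_ev h u) hm
    ((l2_ev h b).const_mul _), covariance_fun_sub_right (l2_ev h u) (l2_ev h t)
    ((l2_ev h a).const_mul _), covariance_const_mul_right, covariance_const_mul_right,
    cov_min h, cov_min h, cov_min h]
  have hta' : (a : ℝ) ≤ t := hta
  have htb' : (t : ℝ) ≤ b := htb
  rcases hu with hu | hu
  · have hu' : (u : ℝ) ≤ a := hu
    rw [min_eq_left (hu'.trans hta'), min_eq_left hu', min_eq_left (hu'.trans (hta'.trans htb'))]
    ring
  · have hu' : (b : ℝ) ≤ u := hu
    rw [min_eq_right (htb'.trans hu'), min_eq_right (hta'.trans (htb'.trans hu')),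
      min_eq_right hu']
    linear_combination -hl2

theorem IsWiener.cov_out_br {ν : Measure C(unitInterval, ℝ)} (h : IsWiener ν)
    {a b : unitInterval} (hab : a < b) (s t : unitInterval) :
    cov[fun f => outW a b f s, fun f => brW a b f t; ν] = 0 := by
  have hp : IsProbabilityMeasure ν := h.isProbabilityMeasure
  rcases le_total s a with hsa | hsa
  · have h1 : (fun f : C(unitInterval, ℝ) => outW a b f s) = fun f => f s := by
      funext f; exact outW_of_le hab hsa f
    rw [h1]
    exact cov_ev_br h hab s t (Or.inl hsa)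
  rcases le_total b s with hsb | hsb
  · have h1 : (fun f : C(unitInterval, ℝ) => outW a b f s) = fun f => f s := by
      funext f; exact outW_of_ge hab hsb f
    rw [h1]
    exact cov_ev_br h hab s t (Or.inr hsb)
  obtain ⟨l, hl⟩ : ∃ l : ℝ, l = ((s : ℝ) - a) / ((b : ℝ) - a) := ⟨_, rfl⟩
  have h1 : (fun f : C(unitInterval, ℝ) => outW a b f s) = fun f : C(unitInterval, ℝ) =>
      (1 - l) * f a - (-l) * f b := by
    funext f
    rw [outW_mid hab hsa hsb, ← hl]
    ring
  rw [h1, covariance_fun_sub_left ((l2_ev h a).const_mul _) ((l2_ev h b).const_mul _)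
    (l2_br h a b t), covariance_const_mul_left, covariance_const_mul_left,
    cov_ev_br h hab a t (Or.inl le_rfl), cov_ev_br h hab b t (Or.inr le_rfl)]
  ring

theorem IsWiener.indep_out_br {ν : Measure C(unitInterval, ℝ)} (h : IsWiener ν)
    {a b : unitInterval} (hab : a < b) : IndepFun (outW a b) (brW a b) ν := by
  classical
  have hG : IsGaussianProcess (Sum.elim (fun (s : unitInterval) (f : C(unitInterval, ℝ)) =>
      outW a b f s) (fun (t : unitInterval) (f : C(unitInterval, ℝ)) => brW a b f t)) ν := by
    refine h.gauss.of_isGaussianProcess fun s => ?_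
    rcases s with s | t
    · let I : Finset unitInterval := {min s a, max s b, b, a}
      let L : (I → ℝ) →L[ℝ] ℝ :=
        ContinuousLinearMap.proj (R := ℝ) (φ := fun _ : I => ℝ) ⟨min s a, by simp [I]⟩ +
          (ContinuousLinearMap.proj (R := ℝ) (φ := fun _ : I => ℝ) ⟨max s b, by simp [I]⟩ -
            ContinuousLinearMap.proj (R := ℝ) (φ := fun _ : I => ℝ) ⟨b, by simp [I]⟩) +
          (rp a b s) • (ContinuousLinearMap.proj (R := ℝ) (φ := fun _ : I => ℝ)
            ⟨b, by simp [I]⟩ - ContinuousLinearMap.proj (R := ℝ) (φ := fun _ : I => ℝ)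
            ⟨a, by simp [I]⟩)
      refine ⟨I, L, fun f => ?_⟩
      change outW a b f s = f (min s a) + (f (max s b) - f b) + rp a b s * (f b - f a)
      rw [outW_eq]
      ring
    · let I : Finset unitInterval := {min t a, max t b, b, a, t}
      let L : (I → ℝ) →L[ℝ] ℝ :=
        ContinuousLinearMap.proj (R := ℝ) (φ := fun _ : I => ℝ) ⟨t, by simp [I]⟩ -
        (ContinuousLinearMap.proj (R := ℝ) (φ := fun _ : I => ℝ) ⟨min t a, by simp [I]⟩ +
          (ContinuousLinearMap.proj (R := ℝ) (φ := fun _ : I => ℝ) ⟨max t b, by simp [I]⟩ -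
            ContinuousLinearMap.proj (R := ℝ) (φ := fun _ : I => ℝ) ⟨b, by simp [I]⟩) +
          (rp a b t) • (ContinuousLinearMap.proj (R := ℝ) (φ := fun _ : I => ℝ)
            ⟨b, by simp [I]⟩ - ContinuousLinearMap.proj (R := ℝ) (φ := fun _ : I => ℝ)
            ⟨a, by simp [I]⟩))
      refine ⟨I, L, fun f => ?_⟩
      change brW a b f t = f t - (f (min t a) + (f (max t b) - f b) + rp a b t * (f b - f a))
      rw [brW_apply, outW_eq]
      ring
  have hind := hG.indepFun_of_covariance_eq_zero (fun s => hG.aemeasurable (Sum.inl s))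
    (fun t => hG.aemeasurable (Sum.inr t)) (fun s t => h.cov_out_br hab s t)
  exact indepFun_path hind

end MDW
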