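import Pool.Agent.MDW.LinI

/-!
# MDW/RotPath: the interpolated path after the half turn

Let `σ` be an arch system on `2n` points, `n ≥ 1`, `h = height σ`, `h' = height (rotP n σ)`,
`H = linInt (2n) h`, `H' = linInt (2n) h'`. Let `0 ≤ u ≤ n` be real and let `m` be the minimum of
`H` on
`[n, n+u]`.

`rot_value`: `H' u = H n + H (n+u) - 2 m`. PROOF. Let `m_k = cnt σ n (n+k)` for `k ≤ n`; by
Cnt.lean
`m_k` is the minimum of `h l`, `n ≤ l ≤ n+k`, and `h' k = h n + h (n+k) - 2 m_k`. Write `u = k +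
s`
with a natural number `k < n`, `0 ≤ s ≤ 1` (`k = min ⌊u⌋₊ (n-1)`). By `linInt_seg`,
`H' u = (1-s) h' k + s h' (k+1) = h n + ((1-s) h (n+k) + s h (n+k+1)) - 2 μ = H n + H (n+u) - 2
μ` with
`μ = (1-s) m_k + s m_{k+1}`; it remains to show `μ = m`, i.e. that `μ` is the minimum of `H` over
`[n, n+u]` (the minimum is unique). Case `m_{k+1} = m_k`: `μ = m_k`; `H ≥ m_{k+1}` on `[n,
n+k+1]` by
`linInt_ge`, and the value `m_k` is attained at an integer in `[n, n+k]`. Case `m_{k+1} ≠ m_k`, so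
`m_{k+1} < m_k`: `m_{k+1}` is attained at some integer of `[n, n+k+1]`, not in `[n, n+k]`, hence
`h (n+k+1) = m_{k+1}`; by integrality `m_{k+1} ≤ m_k - 1`, and `h (n+k) ≥ m_k`,
`h (n+k) ≤ h (n+k+1) + 1` (`height_step`), so `h (n+k) = m_k`, `m_{k+1} = m_k - 1` and `μ = m_k -
s`. On
`[n, n+k]`: `H ≥ m_k ≥ μ`; on `[n+k, n+u]`: `H (n+k+r) = m_k - r ≥ μ` with equality for `r = s`.

`rot_min`: `H n - m` is the minimum of `H'` on `[u, n]`. PROOF. Lower bound: let `x ∈ [u,n]` and
let
`μ_x` be the minimum of `H` on `[n, n+x]` (exists by compactness, `continuous_linInt`); `μ_x ≤ m`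
and
`μ_x ≤ H (n+x)`, so `H' x = H n + H (n+x) - 2 μ_x ≥ H n - μ_x ≥ H n - m`. Attained: `H (2n) = 0 ≤
m`
(`height_end`, `H ≥ 0` by `linInt_ge`, `height_nonneg`) and `H (n+u) ≥ m`; let `x ∈ [u, n]` be the
infimum of the closed nonempty set `{y ∈ [u,n] | H (n+y) ≤ m}`; then `H (n+x) = m`
(`≤` by closedness; if `x = u` then `≥` by hypothesis, if `x > u` then `H (n+y) > m` for
`u ≤ y < x` gives `≥` by continuity). The minimum of `H` on `[n, n+x]` is `m`, so
`H' x = H n + m - 2 m = H n - m`.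
-/

open MeasureTheory ProbabilityTheory Filter Topology

namespace MDW

private theorem cnt_anti {m : ℕ} {σ : Equiv.Perm (Fin m)} (h : IsArch σ) {i j : ℕ}
    (hij : i ≤ j) : cnt σ i (j + 1) ≤ cnt σ i j := by
  obtain ⟨l, h1, h2, h3⟩ := exists_height_eq_cnt h hij
  rw [← h3]
  exact cnt_le_height σ h1 (by omega)

/-- the interpolated minimum: bounds and attainment -/
private theorem mu_min {n : ℕ} {σ : Equiv.Perm (Fin (2 * n))} (h : IsArch σ) {k : ℕ}
    (hk : k < n) {s : ℝ} (s0 : 0 ≤ s) (s1 : s ≤ 1) :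
    (∀ x : ℝ, (n : ℝ) ≤ x → x ≤ n + (k + s) →
      (1 - s) * cnt σ n (n + k) + s * cnt σ n (n + (k + 1)) ≤ linInt (2 * n) (height σ) x) ∧
    ∃ x : ℝ, (n : ℝ) ≤ x ∧ x ≤ n + (k + s) ∧
      linInt (2 * n) (height σ) x =
        (1 - s) * cnt σ n (n + k) + s * cnt σ n (n + (k + 1)) := by
  have hanti : cnt σ n (n + (k + 1)) ≤ cnt σ n (n + k) := cnt_anti h (Nat.le_add_right n k)
  have hmono : ∀ j : ℕ, ∀ l, n ≤ l → l ≤ n + j → cnt σ n (n + j) ≤ height σ l :=
    fun j l h1 h2 => cnt_le_height σ h1 h2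
  rcases eq_or_lt_of_le hanti with he | hlt
  · have hmu : (1 - s) * cnt σ n (n + k) + s * cnt σ n (n + (k + 1)) = cnt σ n (n + k) := by
      rw [he]; ring
    rw [hmu]
    constructor
    · intro x hx1 hx2
      rw [← he]
      refine linInt_ge (height σ) (i := n) (j := n + (k + 1)) (by omega) (by omega)
        (hmono (k + 1)) hx1 ?_
      push_cast
      linarith
    · obtain ⟨l, h1, h2, h3⟩ := exists_height_eq_cnt h (Nat.le_add_right n k)
      refine ⟨l, by exact_mod_cast h1, ?_, ?_⟩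
      · have : (l : ℝ) ≤ ((n + k : ℕ) : ℝ) := by exact_mod_cast h2
        push_cast at this
        linarith
      · rw [linInt_nat (height σ) (by omega : l ≤ 2 * n), h3]
  · obtain ⟨l, h1, h2, h3⟩ := exists_height_eq_cnt h (Nat.le_add_right n (k + 1))
    have hl : l = n + (k + 1) := by
      by_contra hne
      have : cnt σ n (n + k) ≤ height σ l := hmono k l h1 (by omega)
      rw [h3] at this
      exact absurd this (not_le.mpr hlt)
    rw [hl] at h3
    have hge : cnt σ n (n + k) ≤ height σ (n + k) := hmono k (n + k) (by omega) le_rfl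
    have hst := abs_le.mp (height_step σ (n + k))
    obtain ⟨z, hz⟩ := cnt_int σ n (n + k)
    obtain ⟨z', hz'⟩ := cnt_int σ n (n + (k + 1))
    have hzz : z' + 1 ≤ z := by
      have : (z' : ℝ) < z := by rw [← hz, ← hz']; exact hlt
      have h5 : z' < z := by exact_mod_cast this
      omega
    have hzr : (z' : ℝ) + 1 ≤ z := by exact_mod_cast hzz
    have h3' : height σ (n + k + 1) = cnt σ n (n + (k + 1)) := h3
    rw [h3'] at hst
    have e1 : height σ (n + k) = cnt σ n (n + k) := by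
      apply le_antisymm _ hge
      have h6 := hst.1
      rw [hz'] at h6
      rw [hz]
      linarith
    have e2 : cnt σ n (n + (k + 1)) = cnt σ n (n + k) - 1 := by
      rw [e1] at hst
      have h6 := hst.1
      rw [hz, hz'] at h6
      rw [hz, hz']
      linarith
    have hmu : (1 - s) * cnt σ n (n + k) + s * cnt σ n (n + (k + 1)) =
        cnt σ n (n + k) - s := by
      rw [e2]; ring
    rw [hmu]
    have hseg : ∀ x : ℝ, ((n : ℝ) + k) ≤ x → x ≤ n + k + 1 →
        linInt (2 * n) (height σ) x = cnt σ n (n + k) - (x - (n + k)) := by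
      intro x hx1 hx2
      have := linInt_seg (m := 2 * n) (k := n + k) (height σ) (by omega) (x := x)
        (by push_cast; linarith) (by push_cast; linarith)
      rw [this, h3', e2, e1]
      push_cast
      ring
    constructor
    · intro x hx1 hx2
      rcases le_total x ((n : ℝ) + k) with hc | hc
      · have : cnt σ n (n + k) ≤ linInt (2 * n) (height σ) x := by
          refine linInt_ge (height σ) (i := n) (j := n + k) (by omega) (by omega)
            (hmono k) hx1 ?_
          push_cast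
          exact hc
        linarith
      · rw [hseg x hc (by linarith)]
        linarith
    · refine ⟨n + (k + s), ?_, le_rfl, ?_⟩
      · have : (0 : ℝ) ≤ k := Nat.cast_nonneg k
        linarith
      · rw [hseg _ (by linarith) (by linarith)]
        ring

theorem rot_value {n : ℕ} (hn : 0 < n) {σ : Equiv.Perm (Fin (2 * n))} (h : IsArch σ) {u m : ℝ}
    (h0 : 0 ≤ u) (h1 : u ≤ n)
    (hm : ∀ x : ℝ, (n : ℝ) ≤ x → x ≤ n + u → m ≤ linInt (2 * n) (height σ) x)
    (hm2 : ∃ x : ℝ, (n : ℝ) ≤ x ∧ x ≤ n + u ∧ linInt (2 * n) (height σ) x = m) :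
    linInt (2 * n) (height (rotP n σ)) u =
      linInt (2 * n) (height σ) n + linInt (2 * n) (height σ) (n + u) - 2 * m := by
  obtain ⟨k, hk, s, s0, s1, rfl⟩ : ∃ k : ℕ, k < n ∧ ∃ s : ℝ, 0 ≤ s ∧ s ≤ 1 ∧ u = k + s := by
    rcases eq_or_lt_of_le h1 with he | hlt
    · refine ⟨n - 1, by omega, 1, by norm_num, le_rfl, ?_⟩
      rw [he]
      have : ((n - 1 : ℕ) : ℝ) = n - 1 := by
        rw [Nat.cast_sub (by omega)]; norm_num
      rw [this]; ring
    · refine ⟨⌊u⌋₊, ?_, u - ⌊u⌋₊, ?_, ?_, by ring⟩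
      · exact (Nat.floor_lt h0).mpr hlt
      · exact sub_nonneg.mpr (Nat.floor_le h0)
      · have := Nat.lt_floor_add_one u
        linarith
  obtain ⟨b1, x0, b2, b3, b4⟩ := mu_min h hk s0 s1
  obtain ⟨x1, c1, c2, c3⟩ := hm2
  have hmu : m = (1 - s) * cnt σ n (n + k) + s * cnt σ n (n + (k + 1)) := by
    apply le_antisymm
    · rw [← b4]
      exact hm x0 b2 b3
    · rw [← c3]
      exact b1 x1 c1 c2
  have e1 := linInt_seg (m := 2 * n) (k := k) (height (rotP n σ)) (by omega)
    (x := (k : ℝ) + s) (by linarith) (by linarith)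
  have e2 := linInt_seg (m := 2 * n) (k := n + k) (height σ) (by omega)
    (x := (n : ℝ) + (k + s)) (by push_cast; linarith) (by push_cast; linarith)
  have e3 := linInt_nat (m := 2 * n) (k := n) (height σ) (by omega)
  have e4 := height_rotP h (k := k) (by omega)
  have e5 := height_rotP h (k := k + 1) (by omega)
  rw [e1, e2, e3, e4, e5, hmu]
  have e6 : n + (k + 1) = n + k + 1 := by ring
  rw [e6]
  push_cast
  ring

theorem rot_min {n : ℕ} (hn : 0 < n) {σ : Equiv.Perm (Fin (2 * n))} (h : IsArch σ) {u m : ℝ}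
    (h0 : 0 ≤ u) (h1 : u ≤ n)
    (hm : ∀ x : ℝ, (n : ℝ) ≤ x → x ≤ n + u → m ≤ linInt (2 * n) (height σ) x)
    (hm2 : ∃ x : ℝ, (n : ℝ) ≤ x ∧ x ≤ n + u ∧ linInt (2 * n) (height σ) x = m) :
    (∀ x : ℝ, u ≤ x → x ≤ n →
      linInt (2 * n) (height σ) n - m ≤ linInt (2 * n) (height (rotP n σ)) x) ∧
    ∃ x : ℝ, u ≤ x ∧ x ≤ n ∧
      linInt (2 * n) (height (rotP n σ)) x = linInt (2 * n) (height σ) n - m := by
  have hcont := continuous_linInt (2 * n) (height σ)
  obtain ⟨x1, c1, c2, c3⟩ := hm2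
  constructor
  · intro x hx1 hx2
    obtain ⟨y, hy, hy2⟩ := (isCompact_Icc (a := (n : ℝ)) (b := n + x)).exists_isMinOn
      (Set.nonempty_Icc.mpr (by linarith)) hcont.continuousOn
    have hv := rot_value hn h (u := x) (m := linInt (2 * n) (height σ) y) (by linarith) hx2
      (fun z z1 z2 => hy2 (Set.mem_Icc.mpr ⟨z1, z2⟩)) ⟨y, hy.1, hy.2, rfl⟩
    have g1 : linInt (2 * n) (height σ) y ≤ linInt (2 * n) (height σ) x1 :=
      hy2 (Set.mem_Icc.mpr ⟨c1, by linarith⟩)
    have g2 : linInt (2 * n) (height σ) y ≤ linInt (2 * n) (height σ) (n + x) :=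
      hy2 (Set.mem_Icc.mpr ⟨by linarith, le_rfl⟩)
    rw [hv]
    linarith
  · set g : ℝ → ℝ := fun y => linInt (2 * n) (height σ) (n + y) with hg
    have hgc : Continuous g := hcont.comp (continuous_const.add continuous_id)
    have hgu : m ≤ g u := hm _ (by linarith) le_rfl
    have hm0 : 0 ≤ m := by
      rw [← c3]
      refine linInt_ge (height σ) (i := 0) (j := 2 * n) (by omega) le_rfl
        (fun l _ _ => height_nonneg σ l) ?_ ?_
      · push_cast
        have : (0 : ℝ) ≤ n := Nat.cast_nonneg n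
        linarith
      · push_cast
        linarith
    have hgn : g n = 0 := by
      have e := linInt_nat (m := 2 * n) (k := 2 * n) (height σ) le_rfl
      rw [height_end] at e
      have e2 : ((n : ℝ) + n) = ((2 * n : ℕ) : ℝ) := by push_cast; ring
      simp only [hg]
      rw [e2, e]
    obtain ⟨y0, hy0, hy0'⟩ : ∃ y ∈ Set.Icc u (n : ℝ), g y = m :=
      intermediate_value_Icc' h1 hgc.continuousOn ⟨by rw [hgn]; exact hm0, hgu⟩
    have hScomp : IsCompact (Set.Icc u (n : ℝ) ∩ g ⁻¹' {m}) :=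
      isCompact_Icc.inter_right (isClosed_singleton.preimage hgc)
    obtain ⟨x, hxS, hxl⟩ := hScomp.exists_isLeast ⟨y0, hy0, hy0'⟩
    have hgx : g x = m := hxS.2
    have hbelow : ∀ y, u ≤ y → y ≤ x → m ≤ g y := by
      intro y y1 y2
      by_contra hlt
      rw [not_le] at hlt
      obtain ⟨z, hz, hz'⟩ : ∃ z ∈ Set.Icc u y, g z = m :=
        intermediate_value_Icc' y1 hgc.continuousOn ⟨hlt.le, hgu⟩
      have hzx : x ≤ z := hxl ⟨⟨hz.1, hz.2.trans (y2.trans hxS.1.2)⟩, hz'⟩
      have : y = x := le_antisymm y2 (hzx.trans hz.2)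
      rw [this, hgx] at hlt
      exact absurd hlt (lt_irrefl _)
    refine ⟨x, hxS.1.1, hxS.1.2, ?_⟩
    have hv := rot_value hn h (u := x) (m := m) (h0.trans hxS.1.1) hxS.1.2 ?_
      ⟨x1, c1, c2.trans (by linarith [hxS.1.1]), c3⟩
    · have hgx' : linInt (2 * n) (height σ) (n + x) = m := hgx
      rw [hv, hgx']
      ring
    · intro t t1 t2
      rcases le_total t (n + u) with hc | hc
      · exact hm t t1 hc
      · have := hbelow (t - n) (by linarith) (by linarith)
        simp only [hg] at this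
        rwa [add_sub_cancel] at this

end MDW
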