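import Mathlib

/-!
# MDW: the walk of a uniform meander (definitions of the statement)

Definitions for the problem MP_9b0268_pr: arch systems, meanders, the encoding walk, its linear
interpolation, planar Brownian motion with correlated coordinates, and the excursion in the
quadrant (as a weak limit of conditioned Brownian motions).
-/

open MeasureTheory ProbabilityTheory Filter Topology
open scoped NNReal BoundedContinuousFunction

noncomputable section

namespace MDW

/-- The Borel sigma algebra of the space of continuous paths `[0,1] → E` (uniform topology). -/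
instance instMeasurableSpacePath {E : Type*} [TopologicalSpace E] :
    MeasurableSpace C(unitInterval, E) := borel _

instance instBorelSpacePath {E : Type*} [TopologicalSpace E] :
    BorelSpace C(unitInterval, E) := ⟨rfl⟩

/-! ## Meanders -/

/-- `σ` is a noncrossing perfect matching of the points `0, …, m-1` (an arch system):
an involution without fixed points and without two crossing arcs `i < j < σ i < σ j`. -/
def IsArch {m : ℕ} (σ : Equiv.Perm (Fin m)) : Prop :=
  (∀ i, σ (σ i) = i) ∧ (∀ i, σ i ≠ i) ∧ ∀ i j, i < j → j < σ i → ¬ σ i < σ j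

/-- `(σ, τ)` is a meander: the arcs of `σ` above the line and the arcs of `τ` below the line
form a single closed curve (every nonempty set of points closed under both matchings is
everything). -/
def IsMeander {m : ℕ} (p : Equiv.Perm (Fin m) × Equiv.Perm (Fin m)) : Prop :=
  IsArch p.1 ∧ IsArch p.2 ∧
    ∀ S : Set (Fin m), S.Nonempty → (∀ i ∈ S, p.1 i ∈ S ∧ p.2 i ∈ S) → S = Set.univ

open Classical in
/-- The meanders of order `n` (on `2 n` points). -/
def meanders (n : ℕ) : Finset (Equiv.Perm (Fin (2 * n)) × Equiv.Perm (Fin (2 * n))) :=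
  Finset.univ.filter IsMeander

/-- The number of arcs of `σ` with one endpoint among the first `k` points and the other one
among the remaining points. -/
def height {m : ℕ} (σ : Equiv.Perm (Fin m)) (k : ℕ) : ℝ :=
  ((Finset.univ.filter fun i : Fin m => i.val < k ∧ k ≤ (σ i).val).card : ℝ)

/-- The linear interpolation on `[0, m]` of the values `f 0, …, f m`, evaluated at `x`. -/
def linInt (m : ℕ) (f : ℕ → ℝ) (x : ℝ) : ℝ :=
  f 0 + ∑ k ∈ Finset.range m, (f (k + 1) - f k) * max 0 (min 1 (x - k))

/-- The path `t ↦ a Z_{2 n t}`, `t ∈ [0,1]`, of the walk `Z` of the meander `M` of order `n`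
(linearly interpolated, multiplied by the factor `a`). -/
def walkPath (a : ℝ) (n : ℕ) (M : Equiv.Perm (Fin (2 * n)) × Equiv.Perm (Fin (2 * n))) :
    C(unitInterval, ℝ × ℝ) where
  toFun t := (a * linInt (2 * n) (height M.1) (2 * n * t),
    a * linInt (2 * n) (height M.2) (2 * n * t))
  continuous_toFun := by unfold linInt; fun_prop

/-- The expectation of `F (a Z_{2 n t})` for the walk `Z` of a uniform meander of order `n`. -/
def meanderAvg (a : ℝ) (n : ℕ) (F : C(unitInterval, ℝ × ℝ) → ℝ) : ℝ :=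
  (∑ M ∈ meanders n, F (walkPath a n M)) / ((meanders n).card : ℝ)

/-- The rescaled walk `t ↦ c n^{-1/2} Z_{2 n t}` of a uniform meander of order `n` converges in
law
(uniform topology) to `μ` as `n → ∞`. -/
def ConvInLaw (c : ℝ) (μ : Measure C(unitInterval, ℝ × ℝ)) : Prop :=
  ∀ F : C(unitInterval, ℝ × ℝ) →ᵇ ℝ,
    Tendsto (fun n : ℕ => meanderAvg (c / √n) n F) atTop (𝓝 (∫ w, F w ∂μ))

/-! ## Correlated Brownian motion and the excursion in the quadrant -/

/-- A point of `[0,1]` as a nonnegative real number. -/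
def tn (t : unitInterval) : ℝ≥0 := ⟨t.1, t.2.1⟩

/-- `B` is a planar Brownian motion on `[0,1]` started at the origin whose coordinates have
variance `t` at time `t` and correlation `ρ`. -/
def IsCorrBM (ρ : ℝ) {Ω : Type} [MeasurableSpace Ω] (P : Measure Ω)
    (B : Ω → C(unitInterval, ℝ × ℝ)) : Prop :=
  ∃ W₁ W₂ : ℝ≥0 → Ω → ℝ, IsBrownianReal W₁ P ∧ IsBrownianReal W₂ P ∧
    IndepFun (fun ω t => W₁ t ω) (fun ω t => W₂ t ω) P ∧
    ∀ᵐ ω ∂P, ∀ t, B ω t = (W₁ (tn t) ω, ρ * W₁ (tn t) ω + √(1 - ρ ^ 2) * W₂ (tn t) ω)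

/-- The paths that stay in the closed quadrant `[0,∞)²` and end in `E`. -/
def QuadEnd (E : Set (ℝ × ℝ)) : Set C(unitInterval, ℝ × ℝ) :=
  {w | (∀ t, 0 ≤ (w t).1 ∧ 0 ≤ (w t).2) ∧ w 1 ∈ E}

/-- `μ` is the law of a correlated Brownian excursion in the quadrant with correlation `ρ`: it is
the weak limit, as `k → ∞`, of the laws of the planar Brownian motion `z k + B` with correlation
`ρ` started at a point `z k` of the open quadrant and conditioned to stay in `[0,∞)²` and to end
in the Borel set `E k`, where `z k → (0,0)` and `E k` shrinks to `(0,0)`. -/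
def IsExcursionLaw (ρ : ℝ) (μ : Measure C(unitInterval, ℝ × ℝ)) : Prop :=
  ∃ (Ω : Type) (_ : MeasurableSpace Ω) (P : Measure Ω) (B : Ω → C(unitInterval, ℝ × ℝ))
    (z : ℕ → ℝ × ℝ) (E : ℕ → Set (ℝ × ℝ)),
    IsCorrBM ρ P B ∧ (∀ k, 0 < (z k).1 ∧ 0 < (z k).2) ∧ Tendsto z atTop (𝓝 0) ∧
    (∀ k, MeasurableSet (E k)) ∧ (∀ ε > 0, ∀ᶠ k in atTop, E k ⊆ Metric.ball 0 ε) ∧
    (∀ k, P {ω | ContinuousMap.const unitInterval (z k) + B ω ∈ QuadEnd (E k)} ≠ 0) ∧
    ∀ F : C(unitInterval, ℝ × ℝ) →ᵇ ℝ,
      Tendsto (fun k : ℕ => ∫ ω, F (ContinuousMap.const unitInterval (z k) + B ω)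
        ∂(P[|{ω | ContinuousMap.const unitInterval (z k) + B ω ∈ QuadEnd (E k)}]))
        atTop (𝓝 (∫ w, F w ∂μ))

/-! ## The parameters of the problem -/

/-- The value `γ = √(17/3 - √145/3)` of the problem. -/
def gam : ℝ := √(17 / 3 - √145 / 3)

/-- The correlation `ρ = -cos(π γ²/4)` of the problem. -/
def rho0 : ℝ := -Real.cos (Real.pi * gam ^ 2 / 4)

end MDW
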