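import Pool.Agent.MDW.CMSpan
import Pool.Agent.MDW.KeyLim

/-!
# MDW/TubeS: shifting balls charged by an excursion law

PROOFS.
(1) `ball_pos`: a probability measure `μ` on the separable space `C(unitInterval, ℝ × ℝ)` charges
some
open ball of radius `1/8`: countably many such balls (around a dense sequence) cover the space
(`TopologicalSpace.denseSeq`, `measure_iUnion_null`).
(2) `shift_pos`: let `μ` be an excursion law (`|ρ| < 1`), `ζ` with `0 < μ (ball ζ (1/8))`, `ψ` a
planar path
with `fstC ψ, sndC ψ ∈ RampSpan`, `ψ ≥ 0` (both coordinates), `ψ 1 = 0`. Then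
`0 < μ (ball (ζ + ψ) (1/4))`. PROOF. Notation of KeyLim: `L = P.map B = (ν₁.prod ν₂).map (mix ρ)`,
`A k = {w | z k + w ∈ QuadEnd (E k)}`, `μ_k` the conditioned laws. Let
`F₁ w = max 0 (1 - 8 dist w ζ)`, bounded continuous, positive exactly on the ball, so `∫ F₁ dμ >
0`
(`integral_pos_iff_support_of_nonneg` or via `setIntegral`). For large `k`: `∫ F₁ dμ_k ≥ δ := ∫
F₁ dμ / 2`, and
`F₁ ≤ 1_{closedBall ζ (1/8)}`, so
`L (A k ∩ {w | z k + w ∈ closedBall ζ (1/8)}) ≥ δ L (A k)`.
Let `D k = A k ∩ {w | z k + w ∈ closedBall (ζ + ψ) (1/8)}`, measurable, and for `‖z k‖ ≤ 1`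
(large `k`)
contained in `closedBall 0 R`, `R = ‖ζ + ψ‖ + 1/8 + 1`. If `w ∈ A k` and
`z k + w ∈ closedBall ζ (1/8)` then `w + ψ ∈ D k` (adding `ψ ≥ 0` keeps the quadrant, `ψ 1 = 0`
keeps
the end point). By `cm_plane`: `L (D k) ≥ c L {w | w + ψ ∈ D k} ≥ c δ L (A k)`.
Let `F₂ w = max 0 (min 1 (2 - 8 dist w (ζ + ψ)))`: equal to `1` on `closedBall (ζ+ψ) (1/8)`, zero
outside
the open ball of radius `1/4`. So `∫ F₂ dμ_k ≥ c' δ` (`c' = (min c 1).toReal > 0`) for large `k`,
and in the
limit `∫ F₂ dμ ≥ c' δ > 0`; as `F₂ ≤ 1_{ball (ζ+ψ) (1/4)}`, `μ (ball (ζ+ψ) (1/4)) > 0`.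
Use `cond_integral` and `IsCorrBM.exists_wiener` from KeyLim, WLaw to write the conditioned
integrals with `L`.
-/

open MeasureTheory ProbabilityTheory Filter Topology
open scoped ENNReal NNReal BoundedContinuousFunction

namespace MDW

theorem ball_pos (μ : Measure C(unitInterval, ℝ × ℝ)) [IsProbabilityMeasure μ] :
    ∃ ζ, 0 < μ (Metric.ball ζ (1 / 8)) := by
  by_contra h
  push Not at h
  have h1 : μ (⋃ n, Metric.ball (TopologicalSpace.denseSeq C(unitInterval, ℝ × ℝ) n) (1 / 8)) =
      0 := measure_iUnion_null fun n => le_antisymm (h _) zero_le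
  have h2 : (⋃ n, Metric.ball (TopologicalSpace.denseSeq C(unitInterval, ℝ × ℝ) n) (1 / 8)) =
      Set.univ := by
    rw [Set.eq_univ_iff_forall]
    intro x
    obtain ⟨n, hn⟩ := (TopologicalSpace.denseRange_denseSeq C(unitInterval, ℝ × ℝ)).exists_dist_lt
      x (by norm_num : (0 : ℝ) < 1 / 8)
    exact Set.mem_iUnion.2 ⟨n, hn⟩
  rw [h2, measure_univ] at h1
  exact one_ne_zero h1

private theorem ts_le {L : Measure C(unitInterval, ℝ × ℝ)} [IsFiniteMeasure L]
    {S T : Set C(unitInterval, ℝ × ℝ)} (hT : MeasurableSet T) {f : C(unitInterval, ℝ × ℝ) → ℝ}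
    (hf : Integrable f L) (h : ∀ w, T.indicator 1 w ≤ f w) :
    L.real (T ∩ S) ≤ ∫ w in S, f w ∂L := by
  have h1 : L.real (T ∩ S) = ∫ w in S, T.indicator (1 : C(unitInterval, ℝ × ℝ) → ℝ) w ∂L := by
    rw [integral_indicator_one hT, measureReal_restrict_apply hT]
  rw [h1]
  refine integral_mono ?_ hf.restrict h
  exact (integrable_const (1 : ℝ)).indicator hT

private theorem ts_ge {L : Measure C(unitInterval, ℝ × ℝ)} [IsFiniteMeasure L]
    {S T : Set C(unitInterval, ℝ × ℝ)} (hT : MeasurableSet T) {f : C(unitInterval, ℝ × ℝ) → ℝ}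
    (hf : Integrable f L) (h : ∀ w, f w ≤ T.indicator 1 w) :
    ∫ w in S, f w ∂L ≤ L.real (T ∩ S) := by
  have h1 : L.real (T ∩ S) = ∫ w in S, T.indicator (1 : C(unitInterval, ℝ × ℝ) → ℝ) w ∂L := by
    rw [integral_indicator_one hT, measureReal_restrict_apply hT]
  rw [h1]
  refine integral_mono hf.restrict ?_ h
  exact (integrable_const (1 : ℝ)).indicator hT

/-- the first test function -/
private noncomputable def ts1 (ζ : C(unitInterval, ℝ × ℝ)) : C(unitInterval, ℝ × ℝ) →ᵇ ℝ :=
  BoundedContinuousFunction.ofNormedAddCommGroup (fun w => max 0 (1 - 8 * dist w ζ))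
    (by fun_prop) 1 (fun w => by
      rw [Real.norm_eq_abs, abs_of_nonneg (le_max_left _ _)]
      refine max_le zero_le_one ?_
      have := dist_nonneg (x := w) (y := ζ)
      linarith)

/-- the second test function -/
private noncomputable def ts2 (ζ : C(unitInterval, ℝ × ℝ)) : C(unitInterval, ℝ × ℝ) →ᵇ ℝ :=
  BoundedContinuousFunction.ofNormedAddCommGroup (fun w => max 0 (min 1 (2 - 8 * dist w ζ)))
    (by fun_prop) 1 (fun w => by
      rw [Real.norm_eq_abs, abs_of_nonneg (le_max_left _ _)]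
      exact max_le zero_le_one (min_le_left _ _))

private theorem ts1_apply (ζ w : C(unitInterval, ℝ × ℝ)) :
    ts1 ζ w = max 0 (1 - 8 * dist w ζ) := rfl

private theorem ts2_apply (ζ w : C(unitInterval, ℝ × ℝ)) :
    ts2 ζ w = max 0 (min 1 (2 - 8 * dist w ζ)) := rfl

theorem shift_pos {ρ : ℝ} (hρ : |ρ| < 1) {μ : Measure C(unitInterval, ℝ × ℝ)}
    (hμ : IsExcursionLaw ρ μ) {ζ ψ : C(unitInterval, ℝ × ℝ)}
    (hζ : 0 < μ (Metric.ball ζ (1 / 8))) (h₁ : fstC ψ ∈ RampSpan) (h₂ : sndC ψ ∈ RampSpan)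
    (h0 : ∀ t, 0 ≤ (ψ t).1 ∧ 0 ≤ (ψ t).2) (hend : ψ 1 = 0) :
    0 < μ (Metric.ball (ζ + ψ) (1 / 4)) := by
  have hμp : IsProbabilityMeasure μ := hμ.isProbabilityMeasure
  obtain ⟨Ω, mΩ, P, B, z, E, hB, hz, hz0, hE, hEs, hP, hlim⟩ := hμ
  obtain ⟨ν₁, ν₂, hν₁, hν₂, hBm, hL⟩ := hB.exists_wiener
  have p1 : IsProbabilityMeasure ν₁ := hν₁.isProbabilityMeasure
  have p2 : IsProbabilityMeasure ν₂ := hν₂.isProbabilityMeasure
  have pL : IsProbabilityMeasure (P.map B) := by
    rw [hL]
    exact Measure.isProbabilityMeasure_map (continuous_mix ρ).measurable.aemeasurable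
  have pP : IsProbabilityMeasure P := by
    refine ⟨?_⟩
    have h3 : (P.map B) Set.univ = P Set.univ := by
      rw [Measure.map_apply_of_aemeasurable hBm MeasurableSet.univ, Set.preimage_univ]
    rw [← h3, measure_univ]
  obtain ⟨c, hc0, hc⟩ := cm_plane hν₁ hν₂ hρ h₁ h₂ (‖ζ + ψ‖ + 1 / 8 + 1)
  rw [← hL] at hc
  obtain ⟨L, hLdef⟩ : ∃ L : Measure C(unitInterval, ℝ × ℝ), L = P.map B := ⟨_, rfl⟩
  rw [← hLdef] at hc pL
  set δ : ℝ := ∫ w, ts1 ζ w ∂μ with hδdef
  have hδ : 0 < δ := by
    refine (integral_pos_iff_support_of_nonneg (fun w => le_max_left _ _)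
      ((ts1 ζ).integrable μ)).2 (hζ.trans_le (measure_mono fun w hw => ?_))
    have h3 : dist w ζ < 1 / 8 := hw
    have h4 : 0 < ts1 ζ w := by
      rw [ts1_apply]
      exact lt_max_of_lt_right (by linarith)
    exact h4.ne'
  set c' : ℝ := (min c 1).toReal with hc'def
  have hc' : 0 < c' := ENNReal.toReal_pos (lt_min hc0 one_pos).ne'
    ((min_le_right c 1).trans_lt ENNReal.one_lt_top).ne
  have ev1 : ∀ᶠ k in atTop, δ / 2 < ∫ ω, ts1 ζ (ContinuousMap.const unitInterval (z k) + B ω)
      ∂(P[|{ω | ContinuousMap.const unitInterval (z k) + B ω ∈ QuadEnd (E k)}]) :=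
    (hlim (ts1 ζ)).eventually (lt_mem_nhds (by linarith))
  have ev2 : ∀ᶠ k in atTop, ‖z k‖ < 1 := by
    have h3 := hz0.eventually (Metric.ball_mem_nhds (0 : ℝ × ℝ) one_pos)
    refine h3.mono fun k hk => ?_
    rwa [dist_zero_right] at hk
  have key : ∀ᶠ k in atTop, c' * (δ / 2) ≤
      ∫ ω, ts2 (ζ + ψ) (ContinuousMap.const unitInterval (z k) + B ω)
        ∂(P[|{ω | ContinuousMap.const unitInterval (z k) + B ω ∈ QuadEnd (E k)}]) := by
    filter_upwards [ev1, ev2] with k hk1 hk2
    have hcon : Continuous fun w : C(unitInterval, ℝ × ℝ) =>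
        ContinuousMap.const unitInterval (z k) + w := by fun_prop
    set S : Set C(unitInterval, ℝ × ℝ) :=
      {w | ContinuousMap.const unitInterval (z k) + w ∈ QuadEnd (E k)} with hSdef
    have hS : MeasurableSet S := hcon.measurable (measurableSet_quadEnd (hE k))
    set T₁ : Set C(unitInterval, ℝ × ℝ) :=
      {w | ContinuousMap.const unitInterval (z k) + w ∈ Metric.closedBall ζ (1 / 8)} with hT₁def
    have hT₁ : MeasurableSet T₁ := hcon.measurable Metric.isClosed_closedBall.measurableSet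
    set T₂ : Set C(unitInterval, ℝ × ℝ) :=
      {w | ContinuousMap.const unitInterval (z k) + w ∈ Metric.closedBall (ζ + ψ) (1 / 8)}
      with hT₂def
    have hT₂ : MeasurableSet T₂ := hcon.measurable Metric.isClosed_closedBall.measurableSet
    have e1 := cond_integral hBm (z k) (measurableSet_quadEnd (hE k))
      (ts1 ζ).continuous.measurable
    have e2 := cond_integral hBm (z k) (measurableSet_quadEnd (hE k))
      (ts2 (ζ + ψ)).continuous.measurable
    rw [← hLdef, ← hSdef] at e1 e2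
    have hSpos : 0 < L.real S := by
      have h3 : L S ≠ 0 := by
        rw [hLdef, Measure.map_apply_of_aemeasurable hBm hS]
        exact hP k
      exact ENNReal.toReal_pos h3 (measure_ne_top L S)
    have int1 : Integrable (fun w => ts1 ζ (ContinuousMap.const unitInterval (z k) + w)) L := by
      refine Integrable.of_bound (C := 1) ?_ ?_
      · exact ((ts1 ζ).continuous.comp hcon).measurable.aestronglyMeasurable
      · refine Filter.Eventually.of_forall fun w => ?_
        rw [ts1_apply, Real.norm_eq_abs, abs_of_nonneg (le_max_left _ _)]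
        refine max_le zero_le_one ?_
        have := dist_nonneg (x := ContinuousMap.const unitInterval (z k) + w) (y := ζ)
        linarith
    have int2 : Integrable
        (fun w => ts2 (ζ + ψ) (ContinuousMap.const unitInterval (z k) + w)) L := by
      refine Integrable.of_bound (C := 1) ?_ ?_
      · exact ((ts2 (ζ + ψ)).continuous.comp hcon).measurable.aestronglyMeasurable
      · refine Filter.Eventually.of_forall fun w => ?_
        rw [ts2_apply, Real.norm_eq_abs, abs_of_nonneg (le_max_left _ _)]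
        exact max_le zero_le_one (min_le_left _ _)
    have i1 : ∫ w in S, ts1 ζ (ContinuousMap.const unitInterval (z k) + w) ∂L ≤
        L.real (T₁ ∩ S) := by
      refine ts_ge hT₁ int1 fun w => ?_
      by_cases hw : w ∈ T₁
      · rw [Set.indicator_of_mem hw, ts1_apply, Pi.one_apply]
        refine max_le zero_le_one ?_
        have := dist_nonneg (x := ContinuousMap.const unitInterval (z k) + w) (y := ζ)
        linarith
      · rw [Set.indicator_of_notMem hw, ts1_apply]
        refine max_le le_rfl ?_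
        have h3 : ¬ dist (ContinuousMap.const unitInterval (z k) + w) ζ ≤ 1 / 8 := hw
        have h4 := not_le.1 h3
        linarith
    have i2 : L.real (T₂ ∩ S) ≤
        ∫ w in S, ts2 (ζ + ψ) (ContinuousMap.const unitInterval (z k) + w) ∂L := by
      refine ts_le hT₂ int2 fun w => ?_
      by_cases hw : w ∈ T₂
      · rw [Set.indicator_of_mem hw, ts2_apply, Pi.one_apply]
        have h3 : dist (ContinuousMap.const unitInterval (z k) + w) (ζ + ψ) ≤ 1 / 8 := hw
        exact le_max_of_le_right (le_min le_rfl (by linarith))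
      · rw [Set.indicator_of_notMem hw, ts2_apply]
        exact le_max_left _ _
    have hsub : T₁ ∩ S ⊆ {w | w + ψ ∈ T₂ ∩ S} := by
      rintro w ⟨hw1, hw2⟩
      have heq : ContinuousMap.const unitInterval (z k) + (w + ψ) =
          (ContinuousMap.const unitInterval (z k) + w) + ψ := (add_assoc _ _ _).symm
      refine ⟨?_, ?_, ?_⟩
      · change dist (ContinuousMap.const unitInterval (z k) + (w + ψ)) (ζ + ψ) ≤ 1 / 8
        rw [heq, dist_add_right]
        exact hw1
      · intro t
        rw [heq]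
        have h3 := hw2.1 t
        have h4 := h0 t
        rw [ContinuousMap.add_apply, Prod.fst_add, Prod.snd_add]
        exact ⟨add_nonneg h3.1 h4.1, add_nonneg h3.2 h4.2⟩
      · rw [heq, ContinuousMap.add_apply, hend, add_zero]
        exact hw2.2
    have hball : T₂ ∩ S ⊆ Metric.closedBall 0 (‖ζ + ψ‖ + 1 / 8 + 1) := by
      rintro w ⟨hw1, -⟩
      rw [mem_closedBall_zero_iff]
      have h3 : ‖ContinuousMap.const unitInterval (z k) + w - (ζ + ψ)‖ ≤ 1 / 8 := by
        rw [← dist_eq_norm]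
        exact hw1
      have h4 : ‖ContinuousMap.const unitInterval (z k)‖ ≤ 1 :=
        (ContinuousMap.norm_le _ zero_le_one).2 fun t => hk2.le
      have h5 : w = (ContinuousMap.const unitInterval (z k) + w - (ζ + ψ)) + (ζ + ψ) -
          ContinuousMap.const unitInterval (z k) := by abel
      have h6 : ‖w‖ ≤ ‖ContinuousMap.const unitInterval (z k) + w - (ζ + ψ)‖ + ‖ζ + ψ‖ +
          ‖ContinuousMap.const unitInterval (z k)‖ := by
        calc ‖w‖ = ‖(ContinuousMap.const unitInterval (z k) + w - (ζ + ψ)) + (ζ + ψ) -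
            ContinuousMap.const unitInterval (z k)‖ := by rw [← h5]
          _ ≤ ‖(ContinuousMap.const unitInterval (z k) + w - (ζ + ψ)) + (ζ + ψ)‖ +
            ‖ContinuousMap.const unitInterval (z k)‖ := norm_sub_le _ _
          _ ≤ _ := by gcongr; exact norm_add_le _ _
      linarith
    have hcm : c' * L.real (T₁ ∩ S) ≤ L.real (T₂ ∩ S) := by
      have h3 : min c 1 * L (T₁ ∩ S) ≤ L (T₂ ∩ S) :=
        (mul_le_mul' (min_le_left _ _) (measure_mono hsub)).trans
          (hc _ (hT₂.inter hS) hball)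
      have h4 := ENNReal.toReal_mono (measure_ne_top L _) h3
      rw [ENNReal.toReal_mul] at h4
      exact h4
    rw [e1] at hk1
    rw [e2]
    have h5 : δ / 2 * L.real S <
        ∫ w in S, ts1 ζ (ContinuousMap.const unitInterval (z k) + w) ∂L := by
      rw [inv_mul_eq_div, lt_div_iff₀ hSpos] at hk1
      exact hk1
    rw [inv_mul_eq_div, le_div_iff₀ hSpos]
    calc c' * (δ / 2) * L.real S = c' * (δ / 2 * L.real S) := by ring
      _ ≤ c' * L.real (T₁ ∩ S) := by gcongr; exact h5.le.trans i1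
      _ ≤ L.real (T₂ ∩ S) := hcm
      _ ≤ _ := i2
  have hfin : c' * (δ / 2) ≤ ∫ w, ts2 (ζ + ψ) w ∂μ := ge_of_tendsto (hlim (ts2 (ζ + ψ))) key
  have hpos : 0 < ∫ w, ts2 (ζ + ψ) w ∂μ := lt_of_lt_of_le (by positivity) hfin
  have hsupp := (integral_pos_iff_support_of_nonneg (f := fun w => ts2 (ζ + ψ) w)
    (fun w => le_max_left _ _) ((ts2 (ζ + ψ)).integrable μ)).1 hpos
  refine hsupp.trans_le (measure_mono fun w hw => ?_)
  by_contra hcon
  apply hw
  have h3 : ¬ dist w (ζ + ψ) < 1 / 4 := hcon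
  have h4 := not_lt.1 h3
  change ts2 (ζ + ψ) w = 0
  rw [ts2_apply]
  exact max_eq_left ((min_le_right _ _).trans (by linarith))

end MDW
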