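import Pool.Agent.MDW.Defs

/-!
# MDW/VDefs: the planar path built from an outer part and a bridge part (definitions)
-/

open MeasureTheory ProbabilityTheory Filter Topology

noncomputable section

namespace MDW

/-- The planar path `z + mix ρ (out f₁ + br g₁, out f₂ + br g₂)` for the window `[a,b]`. -/
def vp (ρ : ℝ) (z : ℝ × ℝ) (a b : unitInterval) (f g : C(unitInterval, ℝ) × C(unitInterval, ℝ)) :
    C(unitInterval, ℝ × ℝ) :=
  ContinuousMap.const unitInterval z +
    mix ρ (outW a b f.1 + brW a b g.1, outW a b f.2 + brW a b g.2)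

/-- The planar path with the bridge part removed. -/
def up (ρ : ℝ) (z : ℝ × ℝ) (a b : unitInterval) (f : C(unitInterval, ℝ) × C(unitInterval, ℝ)) :
    C(unitInterval, ℝ × ℝ) :=
  ContinuousMap.const unitInterval z + mix ρ (outW a b f.1, outW a b f.2)

/-- Change the sign of the second bridge. -/
def flp (g : C(unitInterval, ℝ) × C(unitInterval, ℝ)) : C(unitInterval, ℝ) × C(unitInterval, ℝ) :=
  (g.1, -g.2)

/-- Both coordinates of `x` are at least one. -/
def Big (x : ℝ × ℝ) : Prop := 1 ≤ x.1 ∧ 1 ≤ x.2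

/-- The good outer parts. -/
def GS (ρ : ℝ) (z : ℝ × ℝ) (a b : unitInterval) (E : Set (ℝ × ℝ)) :
    Set (C(unitInterval, ℝ) × C(unitInterval, ℝ)) :=
  {f | up ρ z a b f ∈ QuadEnd E ∧ Big (up ρ z a b f a) ∧ Big (up ρ z a b f b)}

/-- The bridge parts that are small on the window. -/
def RS (a b : unitInterval) : Set (C(unitInterval, ℝ) × C(unitInterval, ℝ)) :=
  {g | ‖brW a b g.1‖ + ‖brW a b g.2‖ < 1 / 2}

end MDW
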