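import Pool.Agent.MDW.VDefs
import Pool.Agent.MDW.Win

/-!
# MDW/VDet: deterministic facts on the path `vp`

PROOFS. By definition `(vp f g t).1 = z.1 + outW f.1 t + brW g.1 t`,
`(vp f g t).2 = z.2 + ρ (outW f.1 t + brW g.1 t) + κ (outW f.2 t + brW g.2 t)`, `κ = √(1-ρ²) ≤ 1`,
and `up` is the same without the `brW` terms (`rfl`/`simp [vp, mix]`).
`vp_eq_up`: outside the open window the bridge parts vanish (`brW_of_le`, `brW_of_ge`).
`vp_flp_fst`: the first coordinate does not contain `g.2`. `vp_flp_out`: by `vp_eq_up` both are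
`up`. `vp_mid`: `V = (·).2 - ρ (·).1` is `z.2 - ρ z.1 + κ (outW f.2 + brW g.2)`; at the midpoint
`m` of
the window `outW f.2 m` is the mean of the values at `a` and `b` (`outW_half`; note that
`outW f.2 a = f.2 a` by `outW_of_le`), and `brW` vanishes at `a`, `b`.
`vp_fst_close`, `vp_snd_close`: `|brW g t| ≤ ‖brW g‖` (`ContinuousMap.norm_coe_le_norm`), `|ρ| ≤
1`,
`κ ≤ 1`. `up_min_fst`, `up_min_snd`: on `[a,b]` both coordinates of `up` are affine: they are
`z.1 + outW f.1 t` and `z.2 + ρ outW f.1 t + κ outW f.2 t`, and `outW_mid` gives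
`x t = x a + (x b - x a) λ`, `λ = (t-a)/(b-a) ∈ [0,1]`, hence at least the minimum of the end
values.
`vp_mem_of_GS`: `f ∈ GS`, `g ∈ RS`: for `t` outside the open window `vp t = up t` is in the
quadrant; inside, the coordinates of `up` are `≥ 1` by `up_min` and `Big`, and those of `vp`
differ by
less than `1/2`. The end point: `b ≤ 1`, so `vp 1 = up 1 ∈ E`.
`GS_of_vp_mem`: `vp ∈ QuadEnd E`, `Big (vp a)`, `Big (vp b)`: `up a = vp a`, `up b = vp b`; `up t
= vp t`
outside the open window, and inside the coordinates of `up` are at least `1 ≥ 0` by `up_min`.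
`RS_flp`: `brW (-g) = - brW g`, `norm_neg`. Measurability: `GS` is the preimage under the
continuous map `f ↦ up ρ z a b f` of `QuadEnd E ∩ {w | Big (w a)} ∩ {w | Big (w b)}`; `QuadEnd E`
is the
intersection of a closed set and the preimage of `E` under the continuous evaluation at `1`.
`continuous_vp`: `vp` is jointly continuous in `(f, g)` (`continuous_outW`, `continuous_brW`; the
map
`mix ρ` is continuous by the helper `continuous_mix'`,
`ContinuousMap.continuous_of_continuous_uncurry`).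
-/

open MeasureTheory ProbabilityTheory Filter Topology

namespace MDW

theorem continuous_mix' (ρ : ℝ) : Continuous (mix ρ) := by
  refine ContinuousMap.continuous_of_continuous_uncurry _ ?_
  change Continuous (fun q : (C(unitInterval, ℝ) × C(unitInterval, ℝ)) × unitInterval =>
    (q.1.1 q.2, ρ * q.1.1 q.2 + √(1 - ρ ^ 2) * q.1.2 q.2))
  fun_prop

theorem continuous_vp (ρ : ℝ) (z : ℝ × ℝ) (a b : unitInterval) :
    Continuous (fun p : (C(unitInterval, ℝ) × C(unitInterval, ℝ)) ×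
      (C(unitInterval, ℝ) × C(unitInterval, ℝ)) => vp ρ z a b p.1 p.2) := by
  unfold vp
  refine continuous_const.add ((continuous_mix' ρ).comp ?_)
  have h1 := continuous_outW a b
  have h2 := continuous_brW a b
  exact ((h1.comp (continuous_fst.comp continuous_fst)).add
    (h2.comp (continuous_fst.comp continuous_snd))).prodMk
    ((h1.comp (continuous_snd.comp continuous_fst)).add
    (h2.comp (continuous_snd.comp continuous_snd)))

theorem continuous_up (ρ : ℝ) (z : ℝ × ℝ) (a b : unitInterval) :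
    Continuous (up ρ z a b) := by
  unfold up
  refine continuous_const.add ((continuous_mix' ρ).comp ?_)
  have h1 := continuous_outW a b
  exact (h1.comp continuous_fst).prodMk (h1.comp continuous_snd)

theorem measurableSet_quadEnd {E : Set (ℝ × ℝ)} (hE : MeasurableSet E) :
    MeasurableSet (QuadEnd E) := by
  have h1 : QuadEnd E = (⋂ t : unitInterval, {w : C(unitInterval, ℝ × ℝ) | 0 ≤ (w t).1 ∧
      0 ≤ (w t).2}) ∩ ((fun w : C(unitInterval, ℝ × ℝ) => w 1) ⁻¹' E) := by
    ext w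
    simp only [QuadEnd, Set.mem_ofPred_eq, Set.mem_inter_iff, Set.mem_iInter, Set.mem_preimage]
  rw [h1]
  refine MeasurableSet.inter ?_ ?_
  · refine (isClosed_iInter fun t => ?_).measurableSet
    have hc : Continuous (fun w : C(unitInterval, ℝ × ℝ) => w t) := by fun_prop
    exact (isClosed_le continuous_const (continuous_fst.comp hc)).inter
      (isClosed_le continuous_const (continuous_snd.comp hc))
  · have hc : Continuous (fun w : C(unitInterval, ℝ × ℝ) => w 1) := by fun_prop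
    exact hc.measurable hE

theorem measurableSet_GS (ρ : ℝ) (z : ℝ × ℝ) (a b : unitInterval) {E : Set (ℝ × ℝ)}
    (hE : MeasurableSet E) : MeasurableSet (GS ρ z a b E) := by
  have hu := continuous_up ρ z a b
  have hB : IsClosed {x : ℝ × ℝ | Big x} :=
    (isClosed_le continuous_const continuous_fst).inter
      (isClosed_le continuous_const continuous_snd)
  have he : ∀ s : unitInterval, Continuous (fun w : C(unitInterval, ℝ × ℝ) => w s) := by
    intro s
    fun_prop
  have h1 : MeasurableSet ((up ρ z a b) ⁻¹' QuadEnd E) :=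
    hu.measurable (measurableSet_quadEnd hE)
  have h2 : MeasurableSet ((fun f => up ρ z a b f a) ⁻¹' {x : ℝ × ℝ | Big x}) :=
    ((he a).comp hu).measurable hB.measurableSet
  have h3 : MeasurableSet ((fun f => up ρ z a b f b) ⁻¹' {x : ℝ × ℝ | Big x}) :=
    ((he b).comp hu).measurable hB.measurableSet
  exact h1.inter (h2.inter h3)

theorem measurableSet_RS (a b : unitInterval) : MeasurableSet (RS a b) := by
  have h2 := continuous_brW a b
  have hc : Continuous (fun g : C(unitInterval, ℝ) × C(unitInterval, ℝ) =>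
      ‖brW a b g.1‖ + ‖brW a b g.2‖) :=
    ((h2.comp continuous_fst).norm).add ((h2.comp continuous_snd).norm)
  exact (isOpen_lt hc continuous_const).measurableSet

theorem RS_flp (a b : unitInterval) (g : C(unitInterval, ℝ) × C(unitInterval, ℝ)) :
    flp g ∈ RS a b ↔ g ∈ RS a b := by
  simp only [RS, flp, Set.mem_ofPred_eq, brW_neg, norm_neg]

section

variable {ρ : ℝ} {z : ℝ × ℝ} {a b t : unitInterval}
  {f g : C(unitInterval, ℝ) × C(unitInterval, ℝ)}

private theorem vDet_vp1 (t : unitInterval) :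
    (vp ρ z a b f g t).1 = z.1 + (outW a b f.1 t + brW a b g.1 t) := rfl

private theorem vDet_vp2 (t : unitInterval) :
    (vp ρ z a b f g t).2 = z.2 + (ρ * (outW a b f.1 t + brW a b g.1 t) +
      √(1 - ρ ^ 2) * (outW a b f.2 t + brW a b g.2 t)) := rfl

private theorem vDet_up1 (t : unitInterval) :
    (up ρ z a b f t).1 = z.1 + outW a b f.1 t := rfl

private theorem vDet_up2 (t : unitInterval) :
    (up ρ z a b f t).2 = z.2 + (ρ * outW a b f.1 t + √(1 - ρ ^ 2) * outW a b f.2 t) := rfl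

private theorem vDet_norm (h : C(unitInterval, ℝ)) (t : unitInterval) : |h t| ≤ ‖h‖ := by
  rw [← Real.norm_eq_abs]
  exact h.norm_coe_le_norm t

private theorem vDet_conv (A B : ℝ) {l : ℝ} (h0 : 0 ≤ l) (h1 : l ≤ 1) :
    min A B ≤ A + (B - A) * l := by
  rcases le_total A B with h | h
  · rw [min_eq_left h]
    nlinarith [mul_nonneg (sub_nonneg.2 h) h0]
  · rw [min_eq_right h]
    nlinarith [mul_nonneg (sub_nonneg.2 h) (sub_nonneg.2 h1)]

private theorem vDet_lam (hab : a < b) (h1 : a ≤ t) (h2 : t ≤ b) :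
    0 ≤ ((t : ℝ) - a) / ((b : ℝ) - a) ∧ ((t : ℝ) - a) / ((b : ℝ) - a) ≤ 1 := by
  have hab' : (a : ℝ) < b := hab
  have h1' : (a : ℝ) ≤ t := h1
  have h2' : (t : ℝ) ≤ b := h2
  refine ⟨div_nonneg (sub_nonneg.2 h1') (sub_nonneg.2 hab'.le), ?_⟩
  rw [div_le_one (sub_pos.2 hab')]
  linarith

theorem vp_eq_up (hab : a < b) (ht : t ≤ a ∨ b ≤ t) : vp ρ z a b f g t = up ρ z a b f t := by
  have h1 : brW a b g.1 t = 0 := by
    rcases ht with ht | ht
    · exact brW_of_le hab ht _
    · exact brW_of_ge hab ht _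
  have h2 : brW a b g.2 t = 0 := by
    rcases ht with ht | ht
    · exact brW_of_le hab ht _
    · exact brW_of_ge hab ht _
  refine Prod.ext ?_ ?_
  · rw [vDet_vp1, vDet_up1, h1, add_zero]
  · rw [vDet_vp2, vDet_up2, h1, h2, add_zero, add_zero]

theorem vp_flp_fst (t : unitInterval) : (vp ρ z a b f (flp g) t).1 = (vp ρ z a b f g t).1 := by
  rfl

theorem vp_flp_out (hab : a < b) (ht : t ≤ a ∨ b ≤ t) :
    vp ρ z a b f (flp g) t = vp ρ z a b f g t := by
  rw [vp_eq_up hab ht, vp_eq_up hab ht]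

theorem vp_mid (hab : a < b) {m : unitInterval} (hm : (m : ℝ) = ((a : ℝ) + b) / 2) :
    (vp ρ z a b f g m).2 - ρ * (vp ρ z a b f g m).1 -
      (((vp ρ z a b f g a).2 - ρ * (vp ρ z a b f g a).1) +
        ((vp ρ z a b f g b).2 - ρ * (vp ρ z a b f g b).1)) / 2 =
      √(1 - ρ ^ 2) * brW a b g.2 m := by
  rw [vDet_vp2, vDet_vp1, vDet_vp2, vDet_vp1, vDet_vp2, vDet_vp1,
    outW_half hab hm f.2, outW_of_le hab le_rfl f.2, outW_of_ge hab le_rfl f.2,
    brW_of_le hab le_rfl g.2, brW_of_ge hab le_rfl g.2]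
  ring

theorem vp_fst_close (t : unitInterval) :
    |(vp ρ z a b f g t).1 - (up ρ z a b f t).1| ≤ ‖brW a b g.1‖ := by
  rw [vDet_vp1, vDet_up1]
  have h1 : z.1 + (outW a b f.1 t + brW a b g.1 t) - (z.1 + outW a b f.1 t) =
      brW a b g.1 t := by ring
  rw [h1]
  exact vDet_norm _ _

theorem vp_snd_close (hρ : |ρ| ≤ 1) (t : unitInterval) :
    |(vp ρ z a b f g t).2 - (up ρ z a b f t).2| ≤ ‖brW a b g.1‖ + ‖brW a b g.2‖ := by
  rw [vDet_vp2, vDet_up2]
  have h1 : z.2 + (ρ * (outW a b f.1 t + brW a b g.1 t) +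
      √(1 - ρ ^ 2) * (outW a b f.2 t + brW a b g.2 t)) -
      (z.2 + (ρ * outW a b f.1 t + √(1 - ρ ^ 2) * outW a b f.2 t)) =
      ρ * brW a b g.1 t + √(1 - ρ ^ 2) * brW a b g.2 t := by ring
  rw [h1]
  refine (abs_add_le _ _).trans (add_le_add ?_ ?_)
  · rw [abs_mul]
    calc |ρ| * |brW a b g.1 t| ≤ 1 * ‖brW a b g.1‖ :=
          mul_le_mul hρ (vDet_norm _ _) (abs_nonneg _) zero_le_one
      _ = ‖brW a b g.1‖ := one_mul _
  · rw [abs_mul, abs_of_nonneg (Real.sqrt_nonneg _)]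
    have hk : √(1 - ρ ^ 2) ≤ 1 := by
      rw [Real.sqrt_le_one]
      nlinarith [sq_nonneg ρ]
    calc √(1 - ρ ^ 2) * |brW a b g.2 t| ≤ 1 * ‖brW a b g.2‖ :=
          mul_le_mul hk (vDet_norm _ _) (abs_nonneg _) zero_le_one
      _ = ‖brW a b g.2‖ := one_mul _

theorem up_min_fst (hab : a < b) (h1 : a ≤ t) (h2 : t ≤ b) :
    min (up ρ z a b f a).1 (up ρ z a b f b).1 ≤ (up ρ z a b f t).1 := by
  obtain ⟨hl0, hl1⟩ := vDet_lam hab h1 h2
  rw [vDet_up1, vDet_up1, vDet_up1, outW_mid hab h1 h2 f.1, outW_of_le hab le_rfl f.1,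
    outW_of_ge hab le_rfl f.1]
  refine (vDet_conv (z.1 + f.1 a) (z.1 + f.1 b) hl0 hl1).trans (le_of_eq ?_)
  ring

theorem up_min_snd (hab : a < b) (h1 : a ≤ t) (h2 : t ≤ b) :
    min (up ρ z a b f a).2 (up ρ z a b f b).2 ≤ (up ρ z a b f t).2 := by
  obtain ⟨hl0, hl1⟩ := vDet_lam hab h1 h2
  rw [vDet_up2, vDet_up2, vDet_up2, outW_mid hab h1 h2 f.1, outW_mid hab h1 h2 f.2,
    outW_of_le hab le_rfl f.1, outW_of_ge hab le_rfl f.1,
    outW_of_le hab le_rfl f.2, outW_of_ge hab le_rfl f.2]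
  refine (vDet_conv (z.2 + (ρ * f.1 a + √(1 - ρ ^ 2) * f.2 a))
    (z.2 + (ρ * f.1 b + √(1 - ρ ^ 2) * f.2 b)) hl0 hl1).trans (le_of_eq ?_)
  ring

theorem vp_mem_of_GS (hρ : |ρ| ≤ 1) (hab : a < b) {E : Set (ℝ × ℝ)} (hf : f ∈ GS ρ z a b E)
    (hg : g ∈ RS a b) : vp ρ z a b f g ∈ QuadEnd E := by
  obtain ⟨⟨hq, hE⟩, hA, hB⟩ := hf
  have hg' : ‖brW a b g.1‖ + ‖brW a b g.2‖ < 1 / 2 := hg
  have hn1 := norm_nonneg (brW a b g.1)
  have hn2 := norm_nonneg (brW a b g.2)
  refine ⟨fun t => ?_, ?_⟩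
  · by_cases ht : t ≤ a ∨ b ≤ t
    · rw [vp_eq_up hab ht]
      exact hq t
    · have ht1 : a ≤ t := (not_le.1 fun h => ht (Or.inl h)).le
      have ht2 : t ≤ b := (not_le.1 fun h => ht (Or.inr h)).le
      have k1 : 1 ≤ (up ρ z a b f t).1 := (le_min hA.1 hB.1).trans (up_min_fst hab ht1 ht2)
      have k2 : 1 ≤ (up ρ z a b f t).2 := (le_min hA.2 hB.2).trans (up_min_snd hab ht1 ht2)
      have c1 := (abs_le.1 (vp_fst_close (ρ := ρ) (z := z) (a := a) (b := b) (f := f)
        (g := g) t)).1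
      have c2 := (abs_le.1 (vp_snd_close (z := z) (a := a) (b := b) (f := f)
        (g := g) hρ t)).1
      constructor
      · linarith
      · linarith
  · rw [vp_eq_up hab (Or.inr unitInterval.le_one')]
    exact hE

theorem GS_of_vp_mem (hab : a < b) {E : Set (ℝ × ℝ)} (h : vp ρ z a b f g ∈ QuadEnd E)
    (ha : Big (vp ρ z a b f g a)) (hb : Big (vp ρ z a b f g b)) : f ∈ GS ρ z a b E := by
  obtain ⟨hq, hE⟩ := h
  rw [vp_eq_up hab (Or.inl le_rfl)] at ha
  rw [vp_eq_up hab (Or.inr le_rfl)] at hb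
  rw [vp_eq_up hab (Or.inr unitInterval.le_one')] at hE
  refine ⟨⟨fun t => ?_, hE⟩, ha, hb⟩
  by_cases ht : t ≤ a ∨ b ≤ t
  · rw [← vp_eq_up (g := g) hab ht]
    exact hq t
  · have ht1 : a ≤ t := (not_le.1 fun h => ht (Or.inl h)).le
    have ht2 : t ≤ b := (not_le.1 fun h => ht (Or.inr h)).le
    have k1 : 1 ≤ (up ρ z a b f t).1 := (le_min ha.1 hb.1).trans (up_min_fst hab ht1 ht2)
    have k2 : 1 ≤ (up ρ z a b f t).2 := (le_min ha.2 hb.2).trans (up_min_snd hab ht1 ht2)
    exact ⟨zero_le_one.trans k1, zero_le_one.trans k2⟩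

end

end MDW
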